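import Pool.Agent.Twn.Basic

/-!
# Random affine maps of `{0,...,m-1}`

`(a, β)` uniform in `Fin m × Fin (4 * m)`, the map is `r ↦ r + a * r / m + β - 2 * m` (floor division),
written without subtraction: `aff a β r r' := (r + a * r / m + β = r' + 2 * m)`.

* `aff_one`: for every `a` exactly one `β < 4 m` works (`r + a * r / m < 2 m`, `r' < m`).
* `aff_near`: `a * r₂ / m - a * r₁ / m` is between `0` and `r₂ - r₁` (as `a < m`).
* `aff_two`: `r₁ < r₂`, `d = r₂ - r₁`: `β` is determined by `a`; and `a * r₂ / m - a * r₁ / m = t` with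
  `t = r₂' - r₁' - d` forces `|a * d - t * m| < m`, i.e. at most `2 * m / d + 1 ≤ 3 * m / d` values of `a`.
-/

namespace Twn

theorem aff_card_le (m : ℕ) (p : Fin m × Fin (4 * m) → Prop) [DecidablePred p]
    (hinj : ∀ ω ω' : Fin m × Fin (4 * m), p ω → p ω' → ω.1 = ω'.1 → ω.2 = ω'.2) :
    ((Finset.univ.filter p).image Prod.fst).card = (Finset.univ.filter p).card := by
  apply Finset.card_image_of_injOn
  intro ω hω ω' hω' h
  simp only [Finset.coe_filter, Finset.mem_univ, true_and, Set.mem_ofPred_eq] at hω hω'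
  exact Prod.ext h (hinj ω ω' hω hω' h)

theorem aff_div_lt (m a r : ℕ) (ha : a < m) (hr : r < m) : a * r / m < m := by
  have hm : 0 < m := lt_of_le_of_lt (Nat.zero_le _) ha
  rw [Nat.div_lt_iff_lt_mul hm]
  exact Nat.mul_lt_mul'' ha hr

theorem aff_one (m r r' : ℕ) (hr : r < m) (hr' : r' < m) :
    Pr (fun ω : Fin m × Fin (4 * m) => r + ω.1 * r / m + ω.2 = r' + 2 * m) = 1 / (4 * m) := by
  classical
  have hm : 0 < m := lt_of_le_of_lt (Nat.zero_le _) hr
  have hmR : (m : ℝ) ≠ 0 := by exact_mod_cast hm.ne'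
  have hcard : (Finset.univ.filter (fun ω : Fin m × Fin (4 * m) =>
      r + ω.1 * r / m + ω.2 = r' + 2 * m)).card = m := by
    rw [← aff_card_le m _ (by
      intro ω ω' h h' he
      apply Fin.ext
      rw [he] at h
      omega)]
    have : (Finset.univ.filter (fun ω : Fin m × Fin (4 * m) =>
      r + ω.1 * r / m + ω.2 = r' + 2 * m)).image Prod.fst = Finset.univ := by
      apply Finset.eq_univ_of_forall
      intro a
      rw [Finset.mem_image]
      have h1 : (a : ℕ) * r / m < m := aff_div_lt m a r a.2 hr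
      generalize hx : (a : ℕ) * r / m = x at h1
      refine ⟨(a, ⟨r' + 2 * m - (r + x), by omega⟩), ?_, rfl⟩
      simp only [Finset.mem_filter, Finset.mem_univ, true_and]
      rw [hx]
      omega
    rw [this, Finset.card_univ, Fintype.card_fin]
  unfold Pr
  have h2 : (Finset.filter (fun ω : Fin m × Fin (4 * m) =>
      r + ω.1 * r / m + ω.2 = r' + 2 * m) Finset.univ).card = m := hcard
  have h3 : (@Finset.filter (Fin m × Fin (4 * m)) (fun ω : Fin m × Fin (4 * m) =>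
      r + ω.1 * r / m + ω.2 = r' + 2 * m) (Classical.decPred _) Finset.univ).card = m := by
    convert h2
  rw [h3, Fintype.card_prod, Fintype.card_fin, Fintype.card_fin]
  push_cast
  field_simp

theorem aff_near (m a β r₁ r₁' r₂ r₂' : ℕ) (ha : a < m) (h : r₁ < r₂)
    (h1 : r₁ + a * r₁ / m + β = r₁' + 2 * m) (h2 : r₂ + a * r₂ / m + β = r₂' + 2 * m) :
    r₁' + (r₂ - r₁) ≤ r₂' ∧ r₂' ≤ r₁' + 2 * (r₂ - r₁) := by
  have hm : 0 < m := lt_of_le_of_lt (Nat.zero_le _) ha
  have e1 : a * r₁ / m ≤ a * r₂ / m := Nat.div_le_div_right (Nat.mul_le_mul_left a h.le)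
  have e2 : a * r₂ / m ≤ a * r₁ / m + (r₂ - r₁) := by
    have : a * r₂ ≤ a * r₁ + m * (r₂ - r₁) := by
      obtain ⟨d, rfl⟩ := Nat.exists_eq_add_of_le h.le
      rw [Nat.mul_add]
      have : a * d ≤ m * d := Nat.mul_le_mul_right d ha.le
      have e : r₁ + d - r₁ = d := by omega
      rw [e]
      omega
    calc a * r₂ / m ≤ (a * r₁ + m * (r₂ - r₁)) / m := Nat.div_le_div_right this
      _ = a * r₁ / m + (r₂ - r₁) := Nat.add_mul_div_left _ _ hm
  omega

theorem aff_two_core (m r₁ r₁' r₂ r₂' a β a' β' : ℕ) (ha : a < m) (ha' : a' < m) (h : r₁ < r₂)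
    (h1 : r₁ + a * r₁ / m + β = r₁' + 2 * m) (h2 : r₂ + a * r₂ / m + β = r₂' + 2 * m)
    (h1' : r₁ + a' * r₁ / m + β' = r₁' + 2 * m) (h2' : r₂ + a' * r₂ / m + β' = r₂' + 2 * m)
    (hle : a ≤ a') : (a' - a) * (r₂ - r₁) < 2 * m := by
  have hm : 0 < m := lt_of_le_of_lt (Nat.zero_le _) ha
  have q1 := Nat.div_add_mod (a * r₁) m
  have q2 := Nat.div_add_mod (a * r₂) m
  have q3 := Nat.div_add_mod (a' * r₁) m
  have q4 := Nat.div_add_mod (a' * r₂) m
  have l1 := Nat.mod_lt (a * r₁) hm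
  have l2 := Nat.mod_lt (a * r₂) hm
  have l3 := Nat.mod_lt (a' * r₁) hm
  have l4 := Nat.mod_lt (a' * r₂) hm
  set x1 := a * r₁ / m
  set x2 := a * r₂ / m
  set x3 := a' * r₁ / m
  set x4 := a' * r₂ / m
  set y1 := a * r₁ % m
  set y2 := a * r₂ % m
  set y3 := a' * r₁ % m
  set y4 := a' * r₂ % m
  have hx : x2 + x3 = x1 + x4 := by omega
  have hx' : m * x2 + m * x3 = m * x1 + m * x4 := by rw [← Nat.mul_add, ← Nat.mul_add, hx]
  obtain ⟨d, rfl⟩ := Nat.exists_eq_add_of_le h.le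
  obtain ⟨e, rfl⟩ := Nat.exists_eq_add_of_le hle
  have e1 : r₁ + d - r₁ = d := by omega
  have e2 : a + e - a = e := by omega
  rw [e1, e2]
  have e3 : a * (r₁ + d) = a * r₁ + a * d := Nat.mul_add _ _ _
  have e4 : (a + e) * (r₁ + d) = a * r₁ + a * d + e * r₁ + e * d := by ring
  have e5 : (a + e) * r₁ = a * r₁ + e * r₁ := by ring
  rw [e3] at q2
  rw [e4] at q4
  rw [e5] at q3
  omega

theorem aff_two (m r₁ r₁' r₂ r₂' : ℕ) (h : r₁ < r₂) (hr : r₂ < m) :
    Pr (fun ω : Fin m × Fin (4 * m) => r₁ + ω.1 * r₁ / m + ω.2 = r₁' + 2 * m ∧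
      r₂ + ω.1 * r₂ / m + ω.2 = r₂' + 2 * m) * ((r₂ - r₁ : ℕ) : ℝ) ≤ 3 / (4 * m) := by
  classical
  have hm : 0 < m := lt_of_le_of_lt (Nat.zero_le _) hr
  have hmR : (0 : ℝ) < m := by exact_mod_cast hm
  set p : Fin m × Fin (4 * m) → Prop := fun ω => r₁ + ω.1 * r₁ / m + ω.2 = r₁' + 2 * m ∧
      r₂ + ω.1 * r₂ / m + ω.2 = r₂' + 2 * m with hp
  have hcard : (Finset.univ.filter p).card * (r₂ - r₁) ≤ 3 * m := by
    rw [← aff_card_le m p (by
      intro ω ω' h h' he
      apply Fin.ext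
      have h := h.1
      have h' := h'.1
      rw [he] at h
      omega)]
    set A := (Finset.univ.filter p).image Prod.fst with hA
    rcases A.eq_empty_or_nonempty with h0 | h0
    · rw [h0]; simp
    · have hmem : ∀ a ∈ A, ∃ β : Fin (4 * m), p (a, β) := by
        intro a ha
        rw [hA, Finset.mem_image] at ha
        obtain ⟨ω, hω, rfl⟩ := ha
        exact ⟨ω.2, by simpa using hω⟩
      obtain ⟨b, hb⟩ := hmem _ (A.min'_mem h0)
      obtain ⟨c, hc⟩ := hmem _ (A.max'_mem h0)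
      have hle : A.min' h0 ≤ A.max' h0 := A.min'_le _ (A.max'_mem h0)
      have key := aff_two_core m r₁ r₁' r₂ r₂' _ _ _ _ (A.min' h0).2 (A.max' h0).2 h
        hb.1 hb.2 hc.1 hc.2 (by exact_mod_cast hle)
      have hsub : A ⊆ Finset.Icc (A.min' h0) (A.max' h0) := by
        intro a ha
        rw [Finset.mem_Icc]
        exact ⟨A.min'_le _ ha, A.le_max' _ ha⟩
      have hc2 := Finset.card_le_card hsub
      rw [Fin.card_Icc] at hc2
      have hle' : ((A.min' h0 : Fin m) : ℕ) ≤ ((A.max' h0 : Fin m) : ℕ) := by exact_mod_cast hle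
      calc A.card * (r₂ - r₁) ≤ (((A.max' h0 : Fin m) : ℕ) + 1 - ((A.min' h0 : Fin m) : ℕ)) * (r₂ - r₁) :=
            Nat.mul_le_mul_right _ hc2
        _ = (((A.max' h0 : Fin m) : ℕ) - ((A.min' h0 : Fin m) : ℕ)) * (r₂ - r₁) + (r₂ - r₁) := by
            rw [Nat.sub_add_comm hle', Nat.add_mul, Nat.one_mul]
        _ ≤ 3 * m := by omega
  have hP : Pr p = ((Finset.univ.filter p).card : ℝ) / (m * (4 * m)) := by
    unfold Pr
    rw [Fintype.card_prod, Fintype.card_fin, Fintype.card_fin]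
    push_cast
    congr 3
    ext ω
    simp only [Finset.mem_filter]
  rw [hP]
  have hcR : ((Finset.univ.filter p).card : ℝ) * ((r₂ - r₁ : ℕ) : ℝ) ≤ 3 * m := by exact_mod_cast hcard
  rw [div_mul_eq_mul_div, div_le_div_iff₀ (by positivity) (by positivity)]
  nlinarith

end Twn
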