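import Mathlib

/-!
# Twins in permutations: basic definitions

A point or a cell is a pair of natural numbers (column, row).
-/

namespace Twn

/-- order-consistent set of pairs of points -/
def OC (Z : Finset ((ℕ × ℕ) × (ℕ × ℕ))) : Prop :=
  ∀ e ∈ Z, ∀ f ∈ Z, (e.1.1 < f.1.1 ↔ e.2.1 < f.2.1) ∧ (e.1.2 < f.1.2 ↔ e.2.2 < f.2.2)

/-- a set of points contains at least `k` order-consistent pairs of different points -/
def Tw (P : Finset (ℕ × ℕ)) (k : ℝ) : Prop :=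
  ∃ Z : Finset ((ℕ × ℕ) × (ℕ × ℕ)), OC Z ∧ (∀ e ∈ Z, e.1 ∈ P ∧ e.2 ∈ P ∧ e.1 ≠ e.2) ∧
    k ≤ (Z.card : ℝ)

/-- `P` is the graph of a permutation of `{0,...,n-1}` -/
def PermSet (n : ℕ) (P : Finset (ℕ × ℕ)) : Prop :=
  P.card = n ∧ (∀ p ∈ P, p.1 < n ∧ p.2 < n) ∧ (∀ p ∈ P, ∀ q ∈ P, p.1 = q.1 → p = q) ∧
    (∀ p ∈ P, ∀ q ∈ P, p.2 = q.2 → p = q)

/-- order-consistent set of pairs of cells, all in different columns and rows -/
def GOC (Z : Finset ((ℕ × ℕ) × (ℕ × ℕ))) : Prop :=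
  ∀ e ∈ Z, ∀ f ∈ Z, (e ≠ f → e.1.1 ≠ f.1.1 ∧ e.1.2 ≠ f.1.2) ∧
    (e.1.1 < f.1.1 ↔ e.2.1 < f.2.1) ∧ (e.1.2 < f.1.2 ↔ e.2.2 < f.2.2)

/-- a set of cells contains at least `k` pairs of different cells, in general position -/
def GTw (Γ : Finset (ℕ × ℕ)) (k : ℝ) : Prop :=
  ∃ Z : Finset ((ℕ × ℕ) × (ℕ × ℕ)), GOC Z ∧ (∀ e ∈ Z, e.1 ∈ Γ ∧ e.2 ∈ Γ ∧ e.1 ≠ e.2) ∧
    k ≤ (Z.card : ℝ)

/-- the rank of `p` (by height) inside its block of `W` consecutive columns -/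
def rk (W : ℕ) (P : Finset (ℕ × ℕ)) (p : ℕ × ℕ) : ℕ :=
  (P.filter (fun q => q.1 / W = p.1 / W ∧ q.2 < p.2)).card

/-- the group of `p`: consecutive triples (by height) inside the block of `p` -/
def grp (W : ℕ) (P : Finset (ℕ × ℕ)) (p : ℕ × ℕ) : Finset (ℕ × ℕ) :=
  P.filter (fun q => q.1 / W = p.1 / W ∧ rk W P q / 3 = rk W P p / 3)

/-- the group of `p` has span less than `L` -/
def IsShort (W L : ℕ) (P : Finset (ℕ × ℕ)) (p : ℕ × ℕ) : Prop :=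
  ∀ q ∈ grp W P p, ∀ q' ∈ grp W P p, q.2 < q'.2 + L

/-- every window of length `D` contains at most four elements -/
def Spr (D : ℕ) (S : Finset ℕ) : Prop :=
  ∀ a, (S.filter (fun c => a ≤ c ∧ c < a + D)).card ≤ 4

/-- probability of an event in a finite uniform space -/
noncomputable def Pr {Ω : Type} [Fintype Ω] (p : Ω → Prop) : ℝ :=
  haveI := Classical.decPred p
  ((Finset.univ.filter p).card : ℝ) / (Fintype.card Ω : ℝ)

/-- the columns of the cells of `Γ` in row `r` -/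
def rowOf (Γ : Finset (ℕ × ℕ)) (r : ℕ) : Finset ℕ := (Γ.filter (fun g => g.2 = r)).image Prod.fst

/-- the rows of the cells of `Γ` in column `c` -/
def colOf (Γ : Finset (ℕ × ℕ)) (c : ℕ) : Finset ℕ := (Γ.filter (fun g => g.1 = c)).image Prod.snd

/-- A random monotone partial matching of the columns `0 .. R*m*b - 1`: there are `R` macro
segments, each consisting of `m` blocks of `b` columns. Blocks are moved by a random affine map,
and inside a pair of blocks one of `H` chains is chosen. `Cov c c'` says that the pair `c, c'`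
belongs to some chain. -/
structure RandRel (R m b H : ℕ) (Cov : ℕ → ℕ → Prop) where
  Ω : Type
  fin : Fintype Ω
  ne : Nonempty Ω
  Rel : Ω → ℕ → ℕ → Prop
  cov : ∀ ω c c', Rel ω c c' → Cov c c' ∧ c / b / m = c' / b / m
  mono : ∀ ω c₁ c₁' c₂ c₂', c₁ < R * m * b → c₁' < R * m * b → c₂ < R * m * b → c₂' < R * m * b →
    Rel ω c₁ c₁' → Rel ω c₂ c₂' → (c₁ < c₂ ↔ c₁' < c₂')
  one : ∀ c c', c < R * m * b → c' < R * m * b → Cov c c' → c / b / m = c' / b / m →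
    Pr (fun ω => Rel ω c c') = 1 / (4 * m * H)
  near : ∀ ω c₁ c₁' c₂ c₂', c₁ < R * m * b → c₁' < R * m * b → c₂ < R * m * b → c₂' < R * m * b →
    c₁ / b / m = c₂ / b / m → c₁ / b < c₂ / b → Rel ω c₁ c₁' → Rel ω c₂ c₂' →
    c₁' / b + (c₂ / b - c₁ / b) ≤ c₂' / b ∧ c₂' / b ≤ c₁' / b + 2 * (c₂ / b - c₁ / b)
  two : ∀ c₁ c₁' c₂ c₂', c₁ < R * m * b → c₁' < R * m * b → c₂ < R * m * b → c₂' < R * m * b →
    c₁ / b / m = c₂ / b / m → c₁ / b < c₂ / b →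
    Pr (fun ω => Rel ω c₁ c₁' ∧ Rel ω c₂ c₂') * ((c₂ / b - c₁ / b : ℕ) : ℝ) ≤
      3 / (4 * m * H * H)
  far : ∀ c₁ c₁' c₂ c₂', c₁ < R * m * b → c₁' < R * m * b → c₂ < R * m * b → c₂' < R * m * b →
    c₁ / b / m ≠ c₂ / b / m →
    Pr (fun ω => Rel ω c₁ c₁' ∧ Rel ω c₂ c₂') ≤ 1 / (4 * m * H) ^ 2

attribute [instance] RandRel.fin RandRel.ne

end Twn
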