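import Pool.Agent.Twn.GoodCell

/-!
# Good pairs: summation over the macro cells

`N(I, J)` = number of elements of `Γ` in macro cell `(I, J)`, `γ = Γ.card`. Heavy macro cells:
`γ ≤ 2 R ^ 2 N`; they contain at least `γ / 2` elements, so `∑_heavy N ^ 2 ≥ γ ^ 2 / (4 R ^ 2)`.
`good_cell` divided by `N ^ 4`: `15 good ≥ N ^ 2 - 30 w N - 20 (Tc + Tr) / N`. Sum over the heavy cells:
`15 Good ≥ γ ^ 2 / (4 R ^ 2) - 30 w γ - 20 * 2 R τ * 2 R ^ 2 / γ ≥ γ ^ 2 / (8 R ^ 2)`.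
-/

namespace Twn

open Classical in
/-- bad triples of cells for the columns: pairwise different column blocks, pairwise uncovered,
same macro cell, macro column `I` -/
noncomputable def badC (Γ : Finset (ℕ × ℕ)) (d0 bc : ℕ) (cc : ℕ → ℕ → Prop) (I : ℕ) :
    Finset ((ℕ × ℕ) × (ℕ × ℕ) × (ℕ × ℕ)) :=
  (Γ ×ˢ Γ ×ˢ Γ).filter (fun t => t.1.1 / d0 = I ∧ t.2.1.1 / d0 = I ∧ t.2.2.1 / d0 = I ∧
    t.1.2 / d0 = t.2.1.2 / d0 ∧ t.1.2 / d0 = t.2.2.2 / d0 ∧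
    t.1.1 / bc ≠ t.2.1.1 / bc ∧ t.1.1 / bc ≠ t.2.2.1 / bc ∧ t.2.1.1 / bc ≠ t.2.2.1 / bc ∧
    ¬ cc t.1.1 t.2.1.1 ∧ ¬ cc t.1.1 t.2.2.1 ∧ ¬ cc t.2.1.1 t.2.2.1)

open Classical in
/-- bad triples of cells for the rows, macro row `J` -/
noncomputable def badR (Γ : Finset (ℕ × ℕ)) (d0 br : ℕ) (cr : ℕ → ℕ → Prop) (J : ℕ) :
    Finset ((ℕ × ℕ) × (ℕ × ℕ) × (ℕ × ℕ)) :=
  (Γ ×ˢ Γ ×ˢ Γ).filter (fun t => t.1.2 / d0 = J ∧ t.2.1.2 / d0 = J ∧ t.2.2.2 / d0 = J ∧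
    t.1.1 / d0 = t.2.1.1 / d0 ∧ t.1.1 / d0 = t.2.2.1 / d0 ∧
    t.1.2 / br ≠ t.2.1.2 / br ∧ t.1.2 / br ≠ t.2.2.2 / br ∧ t.2.1.2 / br ≠ t.2.2.2 / br ∧
    ¬ cr t.1.2 t.2.1.2 ∧ ¬ cr t.1.2 t.2.2.2 ∧ ¬ cr t.2.1.2 t.2.2.2)

open Classical in
/-- good pairs of cells -/
noncomputable def goodPairs (Γ : Finset (ℕ × ℕ)) (d0 bc br : ℕ) (cc cr : ℕ → ℕ → Prop) :
    Finset ((ℕ × ℕ) × (ℕ × ℕ)) :=
  (Γ ×ˢ Γ).filter (fun e => e.1.1 / d0 = e.2.1 / d0 ∧ e.1.2 / d0 = e.2.2 / d0 ∧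
    e.1.1 / bc ≠ e.2.1 / bc ∧ e.1.2 / br ≠ e.2.2 / br ∧ cc e.1.1 e.2.1 ∧ cr e.1.2 e.2.2)

namespace GoodSumAux

theorem cell_ineq {N G w T γ R : ℕ} (hheavy : γ ≤ 2 * R ^ 2 * N)
    (h : N ^ 6 ≤ 15 * G * N ^ 4 + 30 * w * N ^ 5 + 20 * T * N ^ 3) :
    γ * N ^ 2 ≤ 15 * γ * G + 30 * w * γ * N + 40 * R ^ 2 * T := by
  rcases Nat.eq_zero_or_pos N with h0 | h0
  · subst h0
    simp
  · have h1 : N ^ 3 ≤ 15 * G * N + 30 * w * N ^ 2 + 20 * T := by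
      have : N ^ 3 * N ^ 3 ≤ N ^ 3 * (15 * G * N + 30 * w * N ^ 2 + 20 * T) := by
        calc N ^ 3 * N ^ 3 = N ^ 6 := by ring
          _ ≤ _ := h
          _ = _ := by ring
      exact Nat.le_of_mul_le_mul_left this (by positivity)
    have h2 : N * (γ * N ^ 2) ≤ N * (15 * γ * G + 30 * w * γ * N + 40 * R ^ 2 * T) := by
      calc N * (γ * N ^ 2) = γ * N ^ 3 := by ring
        _ ≤ γ * (15 * G * N + 30 * w * N ^ 2 + 20 * T) := Nat.mul_le_mul_left _ h1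
        _ = N * (15 * γ * G + 30 * w * γ * N) + 20 * T * γ := by ring
        _ ≤ N * (15 * γ * G + 30 * w * γ * N) + 20 * T * (2 * R ^ 2 * N) := by gcongr
        _ = _ := by ring
    exact Nat.le_of_mul_le_mul_left h2 h0

theorem final_ineq {γ G w τ R S : ℕ} (hS : γ ^ 2 ≤ 4 * R ^ 2 * S)
    (h : γ * S ≤ 15 * γ * G + 30 * w * γ ^ 2 + 40 * R ^ 2 * (2 * (R * τ)))
    (h1 : 480 * w * R ^ 2 ≤ γ) (h2 : 1280 * τ * R ^ 5 ≤ γ ^ 3) : γ ^ 2 ≤ 120 * R ^ 2 * G := by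
  rcases Nat.eq_zero_or_pos γ with h0 | h0
  · subst h0
    simp
  · have e1 : γ * γ ^ 2 ≤ 60 * R ^ 2 * γ * G + 120 * R ^ 2 * w * γ ^ 2 + 320 * τ * R ^ 5 := by
      calc γ * γ ^ 2 ≤ γ * (4 * R ^ 2 * S) := Nat.mul_le_mul_left _ hS
        _ = 4 * R ^ 2 * (γ * S) := by ring
        _ ≤ 4 * R ^ 2 * (15 * γ * G + 30 * w * γ ^ 2 + 40 * R ^ 2 * (2 * (R * τ))) :=
          Nat.mul_le_mul_left _ h
        _ = _ := by ring
    have e2 : 480 * w * R ^ 2 * γ ^ 2 ≤ γ * γ ^ 2 := Nat.mul_le_mul_right _ h1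
    have e3 : γ * γ ^ 2 ≤ γ * (120 * R ^ 2 * G) := by
      have a1 : 480 * w * R ^ 2 * γ ^ 2 = 4 * (120 * R ^ 2 * w * γ ^ 2) := by ring
      have a2 : 1280 * τ * R ^ 5 = 4 * (320 * τ * R ^ 5) := by ring
      have a3 : γ ^ 3 = γ * γ ^ 2 := by ring
      have a4 : γ * (120 * R ^ 2 * G) = 2 * (60 * R ^ 2 * γ * G) := by ring
      omega
    exact Nat.le_of_mul_le_mul_left e3 h0

end GoodSumAux

theorem good_sum (Γ : Finset (ℕ × ℕ)) (R d0 bc br w τ : ℕ) (hR : 0 < R)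
    (cc cr : ℕ → ℕ → Prop)
    (hΓ : ∀ g ∈ Γ, g.1 / d0 < R ∧ g.2 / d0 < R)
    (hc : ∀ g ∈ Γ, (Γ.filter (fun q => q.1 / bc = g.1 / bc ∧ q.2 / d0 = g.2 / d0)).card ≤ w)
    (hr : ∀ g ∈ Γ, (Γ.filter (fun q => q.2 / br = g.2 / br ∧ q.1 / d0 = g.1 / d0)).card ≤ w)
    (hTc : ∀ I, (badC Γ d0 bc cc I).card ≤ τ) (hTr : ∀ J, (badR Γ d0 br cr J).card ≤ τ)
    (h1 : 480 * w * R ^ 2 ≤ Γ.card) (h2 : 1280 * τ * R ^ 5 ≤ Γ.card ^ 3) :
    Γ.card ^ 2 ≤ 120 * R ^ 2 * (goodPairs Γ d0 bc br cc cr).card := by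
  classical
  -- the macro cells
  let Idx : Finset (ℕ × ℕ) := Finset.range R ×ˢ Finset.range R
  let V : ℕ × ℕ → Finset (ℕ × ℕ) := fun x => Γ.filter (fun g => g.1 / d0 = x.1 ∧ g.2 / d0 = x.2)
  let N : ℕ × ℕ → ℕ := fun x => (V x).card
  let G : ℕ × ℕ → ℕ := fun x => ((V x ×ˢ V x).filter (fun e => ¬ e.1.1 / bc = e.2.1 / bc ∧
    ¬ e.1.2 / br = e.2.2 / br ∧ cc e.1.1 e.2.1 ∧ cr e.1.2 e.2.2)).card
  let Tc : ℕ × ℕ → ℕ := fun x => ((V x ×ˢ V x ×ˢ V x).filter (fun t =>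
    ¬ t.1.1 / bc = t.2.1.1 / bc ∧ ¬ t.1.1 / bc = t.2.2.1 / bc ∧ ¬ t.2.1.1 / bc = t.2.2.1 / bc ∧
    ¬ cc t.1.1 t.2.1.1 ∧ ¬ cc t.1.1 t.2.2.1 ∧ ¬ cc t.2.1.1 t.2.2.1)).card
  let Tr : ℕ × ℕ → ℕ := fun x => ((V x ×ˢ V x ×ˢ V x).filter (fun t =>
    ¬ t.1.2 / br = t.2.1.2 / br ∧ ¬ t.1.2 / br = t.2.2.2 / br ∧ ¬ t.2.1.2 / br = t.2.2.2 / br ∧
    ¬ cr t.1.2 t.2.1.2 ∧ ¬ cr t.1.2 t.2.2.2 ∧ ¬ cr t.2.1.2 t.2.2.2)).card
  have hcell : ∀ x, N x ^ 6 ≤ 15 * G x * N x ^ 4 + 30 * w * N x ^ 5 +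
      20 * (Tc x + Tr x) * N x ^ 3 := by
    intro x
    refine good_cell (V x) w (fun p q => p.1 / bc = q.1 / bc) (fun p q => p.2 / br = q.2 / br)
      (fun p q => cc p.1 q.1) (fun p q => cr p.2 q.2) ?_ ?_
    · intro p hp
      have hp' := Finset.mem_filter.1 hp
      refine (Finset.card_le_card ?_).trans (hc p hp'.1)
      intro q hq
      have hq1 := Finset.mem_filter.1 hq
      have hq2 := Finset.mem_filter.1 hq1.1
      exact Finset.mem_filter.2 ⟨hq2.1, hq1.2.symm, hq2.2.2.trans hp'.2.2.symm⟩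
    · intro p hp
      have hp' := Finset.mem_filter.1 hp
      refine (Finset.card_le_card ?_).trans (hr p hp'.1)
      intro q hq
      have hq1 := Finset.mem_filter.1 hq
      have hq2 := Finset.mem_filter.1 hq1.1
      exact Finset.mem_filter.2 ⟨hq2.1, hq1.2.symm, hq2.2.1.trans hp'.2.1.symm⟩
  -- sums
  have hsumN : ∑ x ∈ Idx, N x = Γ.card := by
    rw [Finset.card_eq_sum_card_fiberwise (f := fun g : ℕ × ℕ => (g.1 / d0, g.2 / d0)) (t := Idx)]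
    · refine Finset.sum_congr rfl fun x _ => ?_
      refine congrArg Finset.card (Finset.filter_congr fun g _ => ?_)
      simp only [Prod.ext_iff]
    · intro g hg
      simp only [Idx, Finset.coe_product, Finset.coe_range, Set.mem_prod, Set.mem_Iio]
      exact hΓ g hg
  have hsumG : ∑ x ∈ Idx, G x ≤ (goodPairs Γ d0 bc br cc cr).card := by
    rw [Finset.card_eq_sum_card_fiberwise
      (f := fun e : (ℕ × ℕ) × (ℕ × ℕ) => (e.1.1 / d0, e.1.2 / d0)) (t := Idx)]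
    · refine Finset.sum_le_sum fun x _ => Finset.card_le_card ?_
      intro e he
      simp only [V, goodPairs, Finset.mem_filter, Finset.mem_product] at he ⊢
      obtain ⟨⟨⟨a1, a2, a3⟩, b1, b2, b3⟩, c1, c2, c3, c4⟩ := he
      exact ⟨⟨⟨a1, b1⟩, a2.trans b2.symm, a3.trans b3.symm, c1, c2, c3, c4⟩, Prod.ext a2 a3⟩
    · intro e he
      simp only [goodPairs, Finset.coe_filter, Finset.mem_product, Set.mem_ofPred_eq] at he
      simp only [Idx, Finset.coe_product, Finset.coe_range, Set.mem_prod, Set.mem_Iio]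
      exact hΓ e.1 he.1.1
  have hsumC : ∑ x ∈ Idx, Tc x ≤ R * τ := by
    rw [Finset.sum_product]
    calc ∑ I ∈ Finset.range R, ∑ J ∈ Finset.range R, Tc (I, J)
        ≤ ∑ I ∈ Finset.range R, (badC Γ d0 bc cc I).card := by
          refine Finset.sum_le_sum fun I _ => ?_
          rw [Finset.card_eq_sum_card_fiberwise
            (f := fun t : (ℕ × ℕ) × (ℕ × ℕ) × (ℕ × ℕ) => t.1.2 / d0) (t := Finset.range R)]
          · refine Finset.sum_le_sum fun J _ => Finset.card_le_card ?_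
            intro t ht
            simp only [V, badC, Finset.mem_filter, Finset.mem_product] at ht ⊢
            obtain ⟨⟨⟨a1, a2, a3⟩, ⟨b1, b2, b3⟩, d1, d2, d3⟩, c⟩ := ht
            exact ⟨⟨⟨a1, b1, d1⟩, a2, b2, d2, a3.trans b3.symm, a3.trans d3.symm, c⟩, a3⟩
          · intro t ht
            simp only [badC, Finset.coe_filter, Finset.mem_product, Set.mem_ofPred_eq] at ht
            simp only [Finset.coe_range, Set.mem_Iio]
            exact (hΓ t.1 ht.1.1).2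
      _ ≤ ∑ I ∈ Finset.range R, τ := Finset.sum_le_sum fun I _ => hTc I
      _ = R * τ := by rw [Finset.sum_const, Finset.card_range, smul_eq_mul]
  have hsumR : ∑ x ∈ Idx, Tr x ≤ R * τ := by
    rw [Finset.sum_product_right]
    calc ∑ J ∈ Finset.range R, ∑ I ∈ Finset.range R, Tr (I, J)
        ≤ ∑ J ∈ Finset.range R, (badR Γ d0 br cr J).card := by
          refine Finset.sum_le_sum fun J _ => ?_
          rw [Finset.card_eq_sum_card_fiberwise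
            (f := fun t : (ℕ × ℕ) × (ℕ × ℕ) × (ℕ × ℕ) => t.1.1 / d0) (t := Finset.range R)]
          · refine Finset.sum_le_sum fun I _ => Finset.card_le_card ?_
            intro t ht
            simp only [V, badR, Finset.mem_filter, Finset.mem_product] at ht ⊢
            obtain ⟨⟨⟨a1, a2, a3⟩, ⟨b1, b2, b3⟩, d1, d2, d3⟩, c⟩ := ht
            exact ⟨⟨⟨a1, b1, d1⟩, a3, b3, d3, a2.trans b2.symm, a2.trans d2.symm, c⟩, a2⟩
          · intro t ht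
            simp only [badR, Finset.coe_filter, Finset.mem_product, Set.mem_ofPred_eq] at ht
            simp only [Finset.coe_range, Set.mem_Iio]
            exact (hΓ t.1 ht.1.1).1
      _ ≤ ∑ I ∈ Finset.range R, τ := Finset.sum_le_sum fun I _ => hTr I
      _ = R * τ := by rw [Finset.sum_const, Finset.card_range, smul_eq_mul]
  -- heavy cells
  let H : Finset (ℕ × ℕ) := Idx.filter (fun x => Γ.card ≤ 2 * R ^ 2 * N x)
  have hHsub : H ⊆ Idx := Finset.filter_subset _ _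
  have hIdx : Idx.card = R ^ 2 := by
    simp [Idx, Finset.card_product, sq]
  have hsplit := Finset.sum_filter_add_sum_filter_not Idx (fun x => Γ.card ≤ 2 * R ^ 2 * N x) N
  have hlight : 2 * R ^ 2 * ∑ x ∈ Idx.filter (fun x => ¬ Γ.card ≤ 2 * R ^ 2 * N x), N x ≤
      R ^ 2 * Γ.card := by
    rw [Finset.mul_sum]
    calc ∑ x ∈ Idx.filter (fun x => ¬ Γ.card ≤ 2 * R ^ 2 * N x), 2 * R ^ 2 * N x
        ≤ ∑ x ∈ Idx.filter (fun x => ¬ Γ.card ≤ 2 * R ^ 2 * N x), Γ.card := by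
          refine Finset.sum_le_sum fun x hx => ?_
          have := (Finset.mem_filter.1 hx).2
          omega
      _ ≤ ∑ x ∈ Idx, Γ.card := Finset.sum_le_sum_of_subset (Finset.filter_subset _ _)
      _ = R ^ 2 * Γ.card := by rw [Finset.sum_const, hIdx, smul_eq_mul]
  have hR2 : 0 < R ^ 2 := by positivity
  have hlight2 : 2 * ∑ x ∈ Idx.filter (fun x => ¬ Γ.card ≤ 2 * R ^ 2 * N x), N x ≤ Γ.card := by
    apply Nat.le_of_mul_le_mul_left _ hR2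
    calc R ^ 2 * (2 * ∑ x ∈ Idx.filter (fun x => ¬ Γ.card ≤ 2 * R ^ 2 * N x), N x) =
        2 * R ^ 2 * ∑ x ∈ Idx.filter (fun x => ¬ Γ.card ≤ 2 * R ^ 2 * N x), N x := by ring
      _ ≤ _ := hlight
  have hheavy : Γ.card ≤ 2 * ∑ x ∈ H, N x := by
    have : ∑ x ∈ H, N x + ∑ x ∈ Idx.filter (fun x => ¬ Γ.card ≤ 2 * R ^ 2 * N x), N x =
      Γ.card := hsplit.trans hsumN
    omega
  have hCS : Γ.card ^ 2 ≤ 4 * R ^ 2 * ∑ x ∈ H, N x ^ 2 := by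
    have h3 := sq_sum_le_card_mul_sum_sq (s := H) (f := N)
    have h4 : H.card ≤ R ^ 2 := by
      rw [← hIdx]
      exact Finset.card_le_card hHsub
    calc Γ.card ^ 2 ≤ (2 * ∑ x ∈ H, N x) ^ 2 := Nat.pow_le_pow_left hheavy 2
      _ = 4 * (∑ x ∈ H, N x) ^ 2 := by ring
      _ ≤ 4 * (H.card * ∑ x ∈ H, N x ^ 2) := Nat.mul_le_mul_left _ h3
      _ ≤ 4 * (R ^ 2 * ∑ x ∈ H, N x ^ 2) := by gcongr
      _ = _ := by ring
  have hmain : Γ.card * ∑ x ∈ H, N x ^ 2 ≤ 15 * Γ.card * (goodPairs Γ d0 bc br cc cr).card +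
      30 * w * Γ.card ^ 2 + 40 * R ^ 2 * (2 * (R * τ)) := by
    rw [Finset.mul_sum]
    calc ∑ x ∈ H, Γ.card * N x ^ 2
        ≤ ∑ x ∈ H, (15 * Γ.card * G x + 30 * w * Γ.card * N x + 40 * R ^ 2 * (Tc x + Tr x)) :=
          Finset.sum_le_sum fun x hx =>
            GoodSumAux.cell_ineq (Finset.mem_filter.1 hx).2 (hcell x)
      _ ≤ ∑ x ∈ Idx, (15 * Γ.card * G x + 30 * w * Γ.card * N x + 40 * R ^ 2 * (Tc x + Tr x)) :=
          Finset.sum_le_sum_of_subset hHsub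
      _ = 15 * Γ.card * ∑ x ∈ Idx, G x + 30 * w * Γ.card * ∑ x ∈ Idx, N x +
          40 * R ^ 2 * (∑ x ∈ Idx, Tc x + ∑ x ∈ Idx, Tr x) := by
          rw [Finset.sum_add_distrib, Finset.sum_add_distrib, ← Finset.mul_sum, ← Finset.mul_sum,
            ← Finset.mul_sum, Finset.sum_add_distrib]
      _ ≤ 15 * Γ.card * (goodPairs Γ d0 bc br cc cr).card + 30 * w * Γ.card * Γ.card +
          40 * R ^ 2 * (R * τ + R * τ) := by
          rw [hsumN]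
          gcongr
      _ = _ := by ring
  exact GoodSumAux.final_ineq hCS hmain h1 h2

end Twn
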