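import Pool.Agent.Twn.Basic

/-!
# Three linear orders: two of them share a long common chain

Proof: for `s ∈ S` let `L12 s` be the largest size of a subset `T ⊆ S` with maximum `s` on which
`a, b` induce the same order; similarly `L13`, `L23`. For `s ≠ t` two of the three comparisons of
`s` with `t` (in `a`, `b`, `c`) agree, hence the triples of `s` and `t` are different. If there is no
common chain of size `l + 1`, all triples lie in `{1..l}^3`, so `S.card ≤ l ^ 3`.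
-/

namespace Twn

namespace TO

variable {α : Type*}

/-- the two labelings induce the same order on `T` -/
def Ch (f g : α → ℕ) (T : Finset α) : Prop := ∀ s ∈ T, ∀ t ∈ T, (f s < f t ↔ g s < g t)

lemma Ch.mono {f g : α → ℕ} {T U : Finset α} (h : Ch f g T) (hU : U ⊆ T) : Ch f g U :=
  fun s hs t ht => h s (hU hs) t (hU ht)

open Classical in
/-- the largest size of a chain in `S` with maximum `s` -/
noncomputable def Lc (S : Finset α) (f g : α → ℕ) (s : α) : ℕ :=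
  (S.powerset.filter (fun T => Ch f g T ∧ s ∈ T ∧ ∀ t ∈ T, f t ≤ f s)).sup Finset.card

lemma sing {S : Finset α} {f g : α → ℕ} {s : α} (hs : s ∈ S) :
    ({s} : Finset α) ⊆ S ∧ Ch f g {s} ∧ s ∈ ({s} : Finset α) ∧ ∀ t ∈ ({s} : Finset α), f t ≤ f s := by
  refine ⟨by simpa using hs, ?_, by simp, ?_⟩
  · intro x hx y hy
    rw [Finset.mem_singleton] at hx hy
    subst hx; subst hy
    simp
  · intro t ht
    rw [Finset.mem_singleton] at ht
    rw [ht]

lemma le_Lc {S : Finset α} {f g : α → ℕ} {s : α} {T : Finset α} (h1 : T ⊆ S) (h2 : Ch f g T)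
    (h3 : s ∈ T) (h4 : ∀ t ∈ T, f t ≤ f s) : T.card ≤ Lc S f g s := by
  classical
  unfold Lc
  apply Finset.le_sup (f := Finset.card)
  rw [Finset.mem_filter, Finset.mem_powerset]
  exact ⟨h1, h2, h3, h4⟩

lemma Lc_pos {S : Finset α} {f g : α → ℕ} {s : α} (hs : s ∈ S) : 1 ≤ Lc S f g s := by
  obtain ⟨h1, h2, h3, h4⟩ := sing (f := f) (g := g) hs
  have := le_Lc h1 h2 h3 h4
  simpa using this

lemma Lc_le {S : Finset α} {f g : α → ℕ} {s : α} {l : ℕ}
    (h : ∀ T ⊆ S, Ch f g T → T.card ≤ l) : Lc S f g s ≤ l := by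
  classical
  unfold Lc
  apply Finset.sup_le
  intro T hT
  rw [Finset.mem_filter, Finset.mem_powerset] at hT
  exact h T hT.1 hT.2.1

lemma exists_Lc {S : Finset α} {f g : α → ℕ} {s : α} (hs : s ∈ S) :
    ∃ T ⊆ S, Ch f g T ∧ s ∈ T ∧ (∀ t ∈ T, f t ≤ f s) ∧ T.card = Lc S f g s := by
  classical
  obtain ⟨h1, h2, h3, h4⟩ := sing (f := f) (g := g) hs
  have hne : (S.powerset.filter (fun T => Ch f g T ∧ s ∈ T ∧ ∀ t ∈ T, f t ≤ f s)).Nonempty :=
    ⟨{s}, by rw [Finset.mem_filter, Finset.mem_powerset]; exact ⟨h1, h2, h3, h4⟩⟩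
  obtain ⟨T, hT, he⟩ := Finset.exists_mem_eq_sup _ hne Finset.card
  rw [Finset.mem_filter, Finset.mem_powerset] at hT
  refine ⟨T, hT.1, hT.2.1, hT.2.2.1, hT.2.2.2, ?_⟩
  unfold Lc
  convert he.symm using 2

lemma Lc_lt [DecidableEq α] {S : Finset α} {f g : α → ℕ}
    (hf : ∀ s ∈ S, ∀ t ∈ S, f s = f t → s = t) {s t : α} (hs : s ∈ S) (ht : t ∈ S)
    (h1 : f s < f t) (h2 : g s < g t) : Lc S f g s < Lc S f g t := by
  obtain ⟨T, hT, hch, hsT, hmax, hcard⟩ := exists_Lc (f := f) (g := g) hs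
  have htT : t ∉ T := fun h => absurd (hmax t h) (by omega)
  have hg : ∀ x ∈ T, g x ≤ g s := by
    intro x hx
    rcases Nat.lt_or_ge (f x) (f s) with h | h
    · exact ((hch x hx s hsT).mp h).le
    · have := hf x (hT hx) s hs (le_antisymm (hmax x hx) h)
      rw [this]
  have h3 : Ch f g (insert t T) := by
    intro x hx y hy
    rw [Finset.mem_insert] at hx hy
    rcases hx with rfl | hx <;> rcases hy with rfl | hy
    · simp
    · have e1 := hmax y hy
      have e2 := hg y hy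
      constructor <;> intro h <;> omega
    · have e1 := hmax x hx
      have e2 := hg x hx
      constructor <;> intro h <;> omega
    · exact hch x hx y hy
  have h4 : ∀ x ∈ insert t T, f x ≤ f t := by
    intro x hx
    rw [Finset.mem_insert] at hx
    rcases hx with rfl | hx
    · exact le_rfl
    · exact (hmax x hx).trans h1.le
  have h5 := le_Lc (Finset.insert_subset ht hT) h3 (Finset.mem_insert_self t T) h4
  rw [Finset.card_insert_of_notMem htT, hcard] at h5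
  omega

lemma Lc_ne [DecidableEq α] {S : Finset α} {f g : α → ℕ}
    (hf : ∀ s ∈ S, ∀ t ∈ S, f s = f t → s = t) {s t : α} (hs : s ∈ S) (ht : t ∈ S)
    (h : (f s < f t ∧ g s < g t) ∨ (f t < f s ∧ g t < g s)) : Lc S f g s ≠ Lc S f g t := by
  rcases h with h | h
  · exact (Lc_lt hf hs ht h.1 h.2).ne
  · exact (Lc_lt hf ht hs h.1 h.2).ne'

lemma of_long {S : Finset α} {f g : α → ℕ} {l : ℕ} (h : ¬ ∀ T ⊆ S, Ch f g T → T.card ≤ l) :
    ∃ T ⊆ S, T.card = l + 1 ∧ Ch f g T := by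
  push Not at h
  obtain ⟨T, hT, hch, hl⟩ := h
  obtain ⟨U, hU, hc⟩ := Finset.exists_subset_card_eq (s := T) (n := l + 1) (by omega)
  exact ⟨U, hU.trans hT, hc, hch.mono hU⟩

end TO

open TO

theorem three_order {α : Type*} [DecidableEq α] (S : Finset α) (a b c : α → ℕ)
    (ha : ∀ s ∈ S, ∀ t ∈ S, a s = a t → s = t) (hb : ∀ s ∈ S, ∀ t ∈ S, b s = b t → s = t)
    (hc : ∀ s ∈ S, ∀ t ∈ S, c s = c t → s = t) (l : ℕ) (h : l ^ 3 < S.card) :
    ∃ T ⊆ S, T.card = l + 1 ∧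
      ((∀ s ∈ T, ∀ t ∈ T, (a s < a t ↔ b s < b t)) ∨
       (∀ s ∈ T, ∀ t ∈ T, (a s < a t ↔ c s < c t)) ∨
       (∀ s ∈ T, ∀ t ∈ T, (b s < b t ↔ c s < c t))) := by
  by_cases h12 : ∀ T ⊆ S, Ch a b T → T.card ≤ l
  swap
  · obtain ⟨T, h1, h2, h3⟩ := of_long h12
    exact ⟨T, h1, h2, Or.inl h3⟩
  by_cases h13 : ∀ T ⊆ S, Ch a c T → T.card ≤ l
  swap
  · obtain ⟨T, h1, h2, h3⟩ := of_long h13
    exact ⟨T, h1, h2, Or.inr (Or.inl h3)⟩
  by_cases h23 : ∀ T ⊆ S, Ch b c T → T.card ≤ l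
  swap
  · obtain ⟨T, h1, h2, h3⟩ := of_long h23
    exact ⟨T, h1, h2, Or.inr (Or.inr h3)⟩
  exfalso
  have hcard : S.card ≤ (Finset.Icc 1 l ×ˢ (Finset.Icc 1 l ×ˢ Finset.Icc 1 l)).card := by
    apply Finset.card_le_card_of_injOn (fun s => (Lc S a b s, (Lc S a c s, Lc S b c s)))
    · intro s hs
      have hs' : s ∈ S := hs
      simp only [Finset.coe_product, Set.mem_prod, Finset.mem_coe, Finset.mem_Icc]
      exact ⟨⟨Lc_pos hs', Lc_le h12⟩, ⟨Lc_pos hs', Lc_le h13⟩, ⟨Lc_pos hs', Lc_le h23⟩⟩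
    · intro s hs t ht hst
      have hs' : s ∈ S := hs
      have ht' : t ∈ S := ht
      simp only [Prod.mk.injEq] at hst
      obtain ⟨e1, e2, e3⟩ := hst
      by_contra hne
      have na : a s ≠ a t := fun h => hne (ha s hs' t ht' h)
      have nb : b s ≠ b t := fun h => hne (hb s hs' t ht' h)
      have nc : c s ≠ c t := fun h => hne (hc s hs' t ht' h)
      have k1 : ¬ ((a s < a t ∧ b s < b t) ∨ (a t < a s ∧ b t < b s)) :=
        fun h => Lc_ne ha hs' ht' h e1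
      have k2 : ¬ ((a s < a t ∧ c s < c t) ∨ (a t < a s ∧ c t < c s)) :=
        fun h => Lc_ne ha hs' ht' h e2
      have k3 : ¬ ((b s < b t ∧ c s < c t) ∨ (b t < b s ∧ c t < c s)) :=
        fun h => Lc_ne hb hs' ht' h e3
      omega
  rw [Finset.card_product, Finset.card_product, Nat.card_Icc] at hcard
  have : (l + 1 - 1) * ((l + 1 - 1) * (l + 1 - 1)) = l ^ 3 := by
    rw [Nat.add_sub_cancel]; ring
  omega

/-- consequence: a common chain `T` with `S.card ≤ T.card ^ 3` -/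
theorem three_order_cube {α : Type*} [DecidableEq α] (S : Finset α) (a b c : α → ℕ)
    (ha : ∀ s ∈ S, ∀ t ∈ S, a s = a t → s = t) (hb : ∀ s ∈ S, ∀ t ∈ S, b s = b t → s = t)
    (hc : ∀ s ∈ S, ∀ t ∈ S, c s = c t → s = t) :
    ∃ T ⊆ S, S.card ≤ T.card ^ 3 ∧
      ((∀ s ∈ T, ∀ t ∈ T, (a s < a t ↔ b s < b t)) ∨
       (∀ s ∈ T, ∀ t ∈ T, (a s < a t ↔ c s < c t)) ∨
       (∀ s ∈ T, ∀ t ∈ T, (b s < b t ↔ c s < c t))) := by
  have hex : ∃ m, S.card ≤ m ^ 3 := ⟨S.card, Nat.le_self_pow (by norm_num) _⟩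
  classical
  obtain ⟨m, hm, hmin⟩ : ∃ m, S.card ≤ m ^ 3 ∧ ∀ k < m, ¬ S.card ≤ k ^ 3 :=
    ⟨Nat.find hex, Nat.find_spec hex, fun k hk => Nat.find_min hex hk⟩
  rcases Nat.eq_zero_or_pos m with h0 | hpos
  · subst h0
    refine ⟨∅, Finset.empty_subset _, ?_, Or.inl (by simp)⟩
    simpa using hm
  · obtain ⟨T, h1, h2, h3⟩ := three_order S a b c ha hb hc (m - 1)
      (by have := hmin (m - 1) (by omega); omega)
    refine ⟨T, h1, ?_, h3⟩
    rw [h2, Nat.sub_add_cancel hpos]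
    exact hm

end Twn
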