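import Pool.Agent.Twn.Cover
import Pool.Agent.Twn.ThreeOrder
import Pool.Agent.Twn.GoodSum

/-!
# Label columns: cover relation from chain covers

`C` = set of label columns, `lam c < R` = label of `c`; a block `c / b` contains at most one column with a
given label. For two blocks `B, B'` the common labels are the `J` such that both blocks have a column
(`x B J`, `x B' J`) with label `J`; apply `chain_cover` with `f = x B`, `f' = x B'`.
`Cov c c'` : `c, c' ∈ C`, same label `J`, and `J` is in `W (c / b) (c' / b)`; `idx c c'` = index of `J`.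
Bad triples of blocks: the labels `J` which are uncovered for the three pairs form a set `U`; if
`l ^ 3 < U.card` then (`three_order` with the functions `x B1, x B2, x B3` and `l`) two of the functions
have a common chain of size `l + 1`, hence of size `l`, inside the uncovered part: contradiction.
-/

namespace Twn

open Classical in
/-- the column of a block with a given label -/
noncomputable def labCol (b : ℕ) (C : Finset ℕ) (lam : ℕ → ℕ) (B J : ℕ) : ℕ :=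
  if h : ∃ c ∈ C, c / b = B ∧ lam c = J then Classical.choose h else 0

theorem labCol_eq {b : ℕ} {C : Finset ℕ} {lam : ℕ → ℕ}
    (huniq : ∀ c ∈ C, ∀ d ∈ C, c / b = d / b → lam c = lam d → c = d) {c B J : ℕ} (hc : c ∈ C)
    (hB : c / b = B) (hJ : lam c = J) : labCol b C lam B J = c := by
  have h : ∃ c ∈ C, c / b = B ∧ lam c = J := ⟨c, hc, hB, hJ⟩
  rw [labCol, dif_pos h]
  obtain ⟨h1, h2, h3⟩ := Classical.choose_spec h
  exact huniq _ h1 _ hc (h2.trans hB.symm) (h3.trans hJ.symm)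

open Classical in
theorem label_side (R l b : ℕ) (hl : 0 < l) (C : Finset ℕ) (lam : ℕ → ℕ)
    (hlam : ∀ c ∈ C, lam c < R)
    (huniq : ∀ c ∈ C, ∀ d ∈ C, c / b = d / b → lam c = lam d → c = d) :
    ∃ (Cov : ℕ → ℕ → Prop) (idx : ℕ → ℕ → ℕ),
      (∀ c c', Cov c c' → c ∈ C ∧ c' ∈ C ∧ lam c = lam c') ∧
      (∀ c c', Cov c c' → idx c c' < R / l) ∧
      (∀ c₁ c₁' c₂ c₂', Cov c₁ c₁' → Cov c₂ c₂' → c₁ / b = c₂ / b → c₁' / b = c₂' / b →
        idx c₁ c₁' = idx c₂ c₂' → (c₁ < c₂ ↔ c₁' < c₂')) ∧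
      (∀ B₁ B₂ B₃, ((Finset.range R).filter (fun J => ∃ c₁ ∈ C, ∃ c₂ ∈ C, ∃ c₃ ∈ C,
        c₁ / b = B₁ ∧ c₂ / b = B₂ ∧ c₃ / b = B₃ ∧ lam c₁ = J ∧ lam c₂ = J ∧ lam c₃ = J ∧
        ¬ Cov c₁ c₂ ∧ ¬ Cov c₁ c₃ ∧ ¬ Cov c₂ c₃)).card ≤ l ^ 3) := by
  set LL : ℕ → ℕ → Finset ℕ := fun B B' => (Finset.range R).filter (fun J =>
    (∃ c ∈ C, c / b = B ∧ lam c = J) ∧ ∃ c ∈ C, c / b = B' ∧ lam c = J) with hLL
  choose W hWs ix hix hch hno using fun B B' =>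
    chain_cover l hl (labCol b C lam B) (labCol b C lam B') (LL B B')
  refine ⟨fun c c' => c ∈ C ∧ c' ∈ C ∧ lam c = lam c' ∧ lam c ∈ W (c / b) (c' / b),
    fun c c' => ix (c / b) (c' / b) (lam c), ?_, ?_, ?_, ?_⟩
  · rintro c c' ⟨h1, h2, h3, _⟩
    exact ⟨h1, h2, h3⟩
  · rintro c c' ⟨h1, h2, h3, h4⟩
    have h5 := hix _ _ _ h4
    have h6 : (LL (c / b) (c' / b)).card ≤ R := by
      refine (Finset.card_filter_le _ _).trans ?_
      rw [Finset.card_range]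
    have h7 : ix (c / b) (c' / b) (lam c) + 1 ≤ R / l := by
      rw [Nat.le_div_iff_mul_le hl]
      exact h5.trans h6
    exact h7
  · rintro c₁ c₁' c₂ c₂' ⟨h1, h1', h2, h3⟩ ⟨g1, g1', g2, g3⟩ hB hB' hidx
    dsimp only at hidx
    rw [← hB, ← hB'] at g3 hidx
    have h4 := hch (c₁ / b) (c₁' / b) _ h3 _ g3 hidx
    rw [labCol_eq huniq h1 rfl rfl, labCol_eq huniq g1 hB.symm rfl,
      labCol_eq huniq h1' rfl h2.symm, labCol_eq huniq g1' hB'.symm g2.symm] at h4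
    exact h4
  · intro B₁ B₂ B₃
    have gen : ∀ F : Finset ℕ, (∀ J ∈ F, J ∈ Finset.range R ∧ ∃ c₁ ∈ C, ∃ c₂ ∈ C, ∃ c₃ ∈ C,
        c₁ / b = B₁ ∧ c₂ / b = B₂ ∧ c₃ / b = B₃ ∧ lam c₁ = J ∧ lam c₂ = J ∧ lam c₃ = J ∧
        ¬ (c₁ ∈ C ∧ c₂ ∈ C ∧ lam c₁ = lam c₂ ∧ lam c₁ ∈ W (c₁ / b) (c₂ / b)) ∧
        ¬ (c₁ ∈ C ∧ c₃ ∈ C ∧ lam c₁ = lam c₃ ∧ lam c₁ ∈ W (c₁ / b) (c₃ / b)) ∧
        ¬ (c₂ ∈ C ∧ c₃ ∈ C ∧ lam c₂ = lam c₃ ∧ lam c₂ ∈ W (c₂ / b) (c₃ / b))) →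
        F.card ≤ l ^ 3 := by
      intro F hF
      by_contra hlt
      rw [not_le] at hlt
      have key : ∀ J ∈ F,
          (lam (labCol b C lam B₁ J) = J ∧ lam (labCol b C lam B₂ J) = J ∧
          lam (labCol b C lam B₃ J) = J) ∧ J ∈ LL B₁ B₂ \ W B₁ B₂ ∧ J ∈ LL B₁ B₃ \ W B₁ B₃ ∧
          J ∈ LL B₂ B₃ \ W B₂ B₃ := by
        intro J hJ
        obtain ⟨hJR, c₁, h1, c₂, h2, c₃, h3, e1, e2, e3, l1, l2, l3, n1, n2, n3⟩ := hF J hJ
        subst e1 e2 e3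
        refine ⟨⟨?_, ?_, ?_⟩, ?_, ?_, ?_⟩
        · rw [labCol_eq huniq h1 rfl l1, l1]
        · rw [labCol_eq huniq h2 rfl l2, l2]
        · rw [labCol_eq huniq h3 rfl l3, l3]
        · rw [Finset.mem_sdiff, hLL]
          refine ⟨Finset.mem_filter.mpr ⟨hJR, ⟨c₁, h1, rfl, l1⟩, c₂, h2, rfl, l2⟩, fun hW => n1 ?_⟩
          exact ⟨h1, h2, l1.trans l2.symm, by rw [l1]; exact hW⟩
        · rw [Finset.mem_sdiff, hLL]
          refine ⟨Finset.mem_filter.mpr ⟨hJR, ⟨c₁, h1, rfl, l1⟩, c₃, h3, rfl, l3⟩, fun hW => n2 ?_⟩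
          exact ⟨h1, h3, l1.trans l3.symm, by rw [l1]; exact hW⟩
        · rw [Finset.mem_sdiff, hLL]
          refine ⟨Finset.mem_filter.mpr ⟨hJR, ⟨c₂, h2, rfl, l2⟩, c₃, h3, rfl, l3⟩, fun hW => n3 ?_⟩
          exact ⟨h2, h3, l2.trans l3.symm, by rw [l2]; exact hW⟩
      obtain ⟨T, hT, hTc, hch3⟩ := three_order _ (labCol b C lam B₁) (labCol b C lam B₂)
        (labCol b C lam B₃)
        (fun s hs t ht hst => by rw [← (key s hs).1.1, ← (key t ht).1.1, hst])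
        (fun s hs t ht hst => by rw [← (key s hs).1.2.1, ← (key t ht).1.2.1, hst])
        (fun s hs t ht hst => by rw [← (key s hs).1.2.2, ← (key t ht).1.2.2, hst]) l hlt
      obtain ⟨T', hT', hT'c⟩ := Finset.exists_subset_card_eq (n := l) (s := T) (by omega)
      rcases hch3 with h | h | h
      · exact hno B₁ B₂ T' (fun J hJ => (key J (hT (hT' hJ))).2.1) hT'c
          fun J hJ J' hJ' => h J (hT' hJ) J' (hT' hJ')
      · exact hno B₁ B₃ T' (fun J hJ => (key J (hT (hT' hJ))).2.2.1) hT'c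
          fun J hJ J' hJ' => h J (hT' hJ) J' (hT' hJ')
      · exact hno B₂ B₃ T' (fun J hJ => (key J (hT (hT' hJ))).2.2.2) hT'c
          fun J hJ J' hJ' => h J (hT' hJ) J' (hT' hJ')
    refine gen _ fun J hJ => ?_
    have hJ' := (@Finset.mem_filter _ _ (_) _ _).mp hJ
    exact hJ'

/-- count of the bad triples of cells: `m ^ 3` triples of blocks, at most `l ^ 3` labels each, and then
at most `w` cells in each of the three columns -/
theorem label_triples (Γ : Finset (ℕ × ℕ)) (R l b m w : ℕ) (hb : 0 < b) (hm : 0 < m)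
    (C : Finset ℕ) (lam : ℕ → ℕ)
    (hlam : ∀ c ∈ C, lam c < R)
    (huniq : ∀ c ∈ C, ∀ d ∈ C, c / b = d / b → lam c = lam d → c = d)
    (hΓ : ∀ g ∈ Γ, g.1 ∈ C ∧ lam g.1 = g.2 / (m * b))
    (hw : ∀ c, (Γ.filter (fun g => g.1 = c)).card ≤ w)
    (Cov : ℕ → ℕ → Prop)
    (hbad : haveI : ∀ B₁ B₂ B₃, DecidablePred (fun J => ∃ c₁ ∈ C, ∃ c₂ ∈ C, ∃ c₃ ∈ C,
        c₁ / b = B₁ ∧ c₂ / b = B₂ ∧ c₃ / b = B₃ ∧ lam c₁ = J ∧ lam c₂ = J ∧ lam c₃ = J ∧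
        ¬ Cov c₁ c₂ ∧ ¬ Cov c₁ c₃ ∧ ¬ Cov c₂ c₃) := fun _ _ _ => Classical.decPred _
      ∀ B₁ B₂ B₃, ((Finset.range R).filter (fun J => ∃ c₁ ∈ C, ∃ c₂ ∈ C, ∃ c₃ ∈ C,
        c₁ / b = B₁ ∧ c₂ / b = B₂ ∧ c₃ / b = B₃ ∧ lam c₁ = J ∧ lam c₂ = J ∧ lam c₃ = J ∧
        ¬ Cov c₁ c₂ ∧ ¬ Cov c₁ c₃ ∧ ¬ Cov c₂ c₃)).card ≤ l ^ 3) (I : ℕ) :
    (badC Γ (m * b) b Cov I).card ≤ m ^ 3 * l ^ 3 * w ^ 3 := by
  classical
  have hbad' : ∀ B : ℕ × ℕ × ℕ, ∃ U : Finset ℕ, U.card ≤ l ^ 3 ∧ ∀ J, J ∈ U ↔ (J < R ∧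
      ∃ c₁ ∈ C, ∃ c₂ ∈ C, ∃ c₃ ∈ C,
        c₁ / b = B.1 ∧ c₂ / b = B.2.1 ∧ c₃ / b = B.2.2 ∧ lam c₁ = J ∧ lam c₂ = J ∧ lam c₃ = J ∧
        ¬ Cov c₁ c₂ ∧ ¬ Cov c₁ c₃ ∧ ¬ Cov c₂ c₃) := by
    intro B
    refine ⟨_, hbad B.1 B.2.1 B.2.2, fun J => ?_⟩
    rw [@Finset.mem_filter _ _ (_), Finset.mem_range]
  choose U hUc hU using hbad'
  set BB : Finset (ℕ × ℕ × ℕ) := (Finset.Ico (I * m) (I * m + m)) ×ˢ
    ((Finset.Ico (I * m) (I * m + m)) ×ˢ (Finset.Ico (I * m) (I * m + m))) with hBB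
  have hBBc : BB.card = m ^ 3 := by
    rw [hBB, Finset.card_product, Finset.card_product, Nat.card_Ico]
    have : I * m + m - I * m = m := by omega
    rw [this]
    ring
  have hsub : badC Γ (m * b) b Cov I ⊆ BB.biUnion fun B => (U B).biUnion fun J =>
      (Γ.filter (fun g => g.1 = labCol b C lam B.1 J)) ×ˢ
        ((Γ.filter (fun g => g.1 = labCol b C lam B.2.1 J)) ×ˢ
          (Γ.filter (fun g => g.1 = labCol b C lam B.2.2 J))) := by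
    rintro ⟨t1, t2, t3⟩ ht
    rw [badC, Finset.mem_filter, Finset.mem_product, Finset.mem_product] at ht
    obtain ⟨⟨g1, g2, g3⟩, i1, i2, i3, j1, j2, -, -, -, n1, n2, n3⟩ := ht
    dsimp only at g1 g2 g3 i1 i2 i3 j1 j2 n1 n2 n3
    obtain ⟨c1, l1⟩ := hΓ _ g1
    obtain ⟨c2, l2⟩ := hΓ _ g2
    obtain ⟨c3, l3⟩ := hΓ _ g3
    rw [← j1] at l2
    rw [← j2] at l3
    have hblock : ∀ c : ℕ, c / (m * b) = I → c / b ∈ Finset.Ico (I * m) (I * m + m) := by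
      intro c hc
      have h1 : c / b / m = I := by rw [Nat.div_div_eq_div_mul, mul_comm b m, hc]
      rw [Finset.mem_Ico]
      have h2 := Nat.div_mul_le_self (c / b) m
      have h3 := Nat.lt_div_mul_add (a := c / b) hm
      rw [h1] at h2 h3
      exact ⟨h2, h3⟩
    rw [Finset.mem_biUnion]
    refine ⟨(t1.1 / b, t2.1 / b, t3.1 / b), ?_, ?_⟩
    · rw [hBB, Finset.mem_product, Finset.mem_product]
      exact ⟨hblock _ i1, hblock _ i2, hblock _ i3⟩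
    · rw [Finset.mem_biUnion]
      refine ⟨t1.2 / (m * b), ?_, ?_⟩
      · rw [hU]
        refine ⟨by rw [← l1]; exact hlam _ c1, t1.1, c1, t2.1, c2, t3.1, c3, rfl, rfl, rfl, l1, l2,
          l3, n1, n2, n3⟩
      · rw [Finset.mem_product, Finset.mem_product, Finset.mem_filter, Finset.mem_filter,
          Finset.mem_filter]
        exact ⟨⟨g1, (labCol_eq huniq c1 rfl l1).symm⟩, ⟨g2, (labCol_eq huniq c2 rfl l2).symm⟩,
          ⟨g3, (labCol_eq huniq c3 rfl l3).symm⟩⟩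
  refine (Finset.card_le_card hsub).trans ?_
  have hw3 : ∀ B J : ℕ, ∀ B' B'' : ℕ, ((Γ.filter (fun g => g.1 = labCol b C lam B J)) ×ˢ
        ((Γ.filter (fun g => g.1 = labCol b C lam B' J)) ×ˢ
          (Γ.filter (fun g => g.1 = labCol b C lam B'' J)))).card ≤ w ^ 3 := by
    intro B J B' B''
    rw [Finset.card_product, Finset.card_product]
    calc _ ≤ w * (w * w) := Nat.mul_le_mul (hw _) (Nat.mul_le_mul (hw _) (hw _))
      _ = w ^ 3 := by ring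
  calc _ ≤ BB.card * (l ^ 3 * w ^ 3) := by
        refine Finset.card_biUnion_le_card_mul _ _ _ fun B _ => ?_
        refine (Finset.card_biUnion_le_card_mul _ _ _ fun J _ => hw3 _ _ _ _).trans ?_
        exact Nat.mul_le_mul_right _ (hUc B)
    _ = m ^ 3 * l ^ 3 * w ^ 3 := by rw [hBBc]; ring

end Twn
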