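import Pool.Agent.Twn.Combine
import Pool.Agent.Twn.Label

/-!
# The three cases: light/light, label/light, label/label
-/

namespace Twn

lemma mem_badC {Γ : Finset (ℕ × ℕ)} {d0 bc I : ℕ} {cc : ℕ → ℕ → Prop}
    {t : (ℕ × ℕ) × (ℕ × ℕ) × (ℕ × ℕ)} : t ∈ badC Γ d0 bc cc I ↔
    (t.1 ∈ Γ ∧ t.2.1 ∈ Γ ∧ t.2.2 ∈ Γ) ∧
    t.1.1 / d0 = I ∧ t.2.1.1 / d0 = I ∧ t.2.2.1 / d0 = I ∧
    t.1.2 / d0 = t.2.1.2 / d0 ∧ t.1.2 / d0 = t.2.2.2 / d0 ∧
    t.1.1 / bc ≠ t.2.1.1 / bc ∧ t.1.1 / bc ≠ t.2.2.1 / bc ∧ t.2.1.1 / bc ≠ t.2.2.1 / bc ∧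
    ¬ cc t.1.1 t.2.1.1 ∧ ¬ cc t.1.1 t.2.2.1 ∧ ¬ cc t.2.1.1 t.2.2.1 := by
  classical
  unfold badC
  simp only [Finset.mem_filter, Finset.mem_product]

lemma mem_badR {Γ : Finset (ℕ × ℕ)} {d0 br J : ℕ} {cr : ℕ → ℕ → Prop}
    {t : (ℕ × ℕ) × (ℕ × ℕ) × (ℕ × ℕ)} : t ∈ badR Γ d0 br cr J ↔
    (t.1 ∈ Γ ∧ t.2.1 ∈ Γ ∧ t.2.2 ∈ Γ) ∧
    t.1.2 / d0 = J ∧ t.2.1.2 / d0 = J ∧ t.2.2.2 / d0 = J ∧
    t.1.1 / d0 = t.2.1.1 / d0 ∧ t.1.1 / d0 = t.2.2.1 / d0 ∧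
    t.1.2 / br ≠ t.2.1.2 / br ∧ t.1.2 / br ≠ t.2.2.2 / br ∧ t.2.1.2 / br ≠ t.2.2.2 / br ∧
    ¬ cr t.1.2 t.2.1.2 ∧ ¬ cr t.1.2 t.2.2.2 ∧ ¬ cr t.2.1.2 t.2.2.2 := by
  classical
  unfold badR
  simp only [Finset.mem_filter, Finset.mem_product]

lemma badC_light (Γ : Finset (ℕ × ℕ)) (d0 bc I : ℕ) :
    (badC Γ d0 bc (fun _ _ => True) I).card ≤ 0 := by
  rw [Nat.le_zero, Finset.card_eq_zero, Finset.eq_empty_iff_forall_notMem]
  intro t ht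
  rw [mem_badC] at ht
  exact ht.2.2.2.2.2.2.2.2.2.1 trivial

lemma badR_light (Γ : Finset (ℕ × ℕ)) (d0 bc I : ℕ) :
    (badR Γ d0 bc (fun _ _ => True) I).card ≤ 0 := by
  rw [Nat.le_zero, Finset.card_eq_zero, Finset.eq_empty_iff_forall_notMem]
  intro t ht
  rw [mem_badR] at ht
  exact ht.2.2.2.2.2.2.2.2.2.1 trivial

/-- `badR` is `badC` of the transposed set -/
lemma badR_eq_swap (Γ : Finset (ℕ × ℕ)) (d0 br J : ℕ) (cr : ℕ → ℕ → Prop) :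
    (badR Γ d0 br cr J).card = (badC (Γ.image Prod.swap) d0 br cr J).card := by
  refine Finset.card_bij (fun t _ => (t.1.swap, t.2.1.swap, t.2.2.swap)) ?_ ?_ ?_
  · intro t ht
    rw [mem_badR] at ht
    rw [mem_badC]
    refine ⟨⟨Finset.mem_image_of_mem _ ht.1.1, Finset.mem_image_of_mem _ ht.1.2.1,
      Finset.mem_image_of_mem _ ht.1.2.2⟩, ?_⟩
    simpa using ht.2
  · intro t _ t' _ h
    simp only [Prod.mk.injEq] at h
    obtain ⟨h1, h2, h3⟩ := h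
    have h1' := Prod.swap_injective h1
    have h2' := Prod.swap_injective h2
    have h3' := Prod.swap_injective h3
    exact Prod.ext h1' (Prod.ext h2' h3')
  · intro t ht
    rw [mem_badC] at ht
    obtain ⟨⟨h1, h2, h3⟩, h⟩ := ht
    obtain ⟨a, ha, ha'⟩ := Finset.mem_image.mp h1
    obtain ⟨b, hb, hb'⟩ := Finset.mem_image.mp h2
    obtain ⟨c, hc, hc'⟩ := Finset.mem_image.mp h3
    refine ⟨(a, b, c), ?_, ?_⟩
    · rw [mem_badR]
      refine ⟨⟨ha, hb, hc⟩, ?_⟩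
      rw [← ha', ← hb', ← hc'] at h
      simpa using h
    · exact Prod.ext ha' (Prod.ext hb' hc')

/-- light in both directions -/
theorem case_LL (R w D b X : ℕ) (hR : 0 < R) (hw : 0 < w) (hD : 0 < D)
    (Γ : Finset (ℕ × ℕ)) (hΓ : GridHyp w D R b Γ)
    (hXr : ∀ g ∈ Γ, (Γ.filter (fun q => q.2 = g.2 ∧ q.1 / (w * D) = g.1 / (w * D))).card ≤ X)
    (hXc : ∀ g ∈ Γ, (Γ.filter (fun q => q.1 = g.1 ∧ q.2 / (w * D) = g.2 / (w * D))).card ≤ X)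
    (h1 : 480 * w * R ^ 2 ≤ Γ.card) :
    GTw Γ (((Γ.card : ℝ) ^ 2 / (120 * R ^ 2)) / (2 * (4 * (w * D)) * (4 * (w * D)) *
      (1 + 2 * (200 * (1 + X / D) + 200 * (1 + X / D))))) := by
  have h := combine R w D b (w * D) 1 1 X (w * D) 1 1 X 0 hR hw hD (Nat.mul_pos hw hD) one_pos
    one_pos (Nat.mul_pos hw hD) one_pos one_pos (Nat.mul_one _) (Nat.mul_one _) hD hD Γ hΓ hXr hXc
    (by intro g _ h _ h1 _; simpa using h1) (by intro g _ h _ h1 _; simpa using h1)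
    (fun _ _ => True) (fun _ _ => True) (fun _ _ => 0) (fun _ _ => 0)
    (by intro _ _ _; exact one_pos)
    (by
      intro c₁ c₁' c₂ c₂' _ _ h1 h2 _
      simp only [Nat.div_one] at h1 h2
      rw [h1, h2]
      simp)
    (by intro _ _ _; exact one_pos)
    (by
      intro c₁ c₁' c₂ c₂' _ _ h1 h2 _
      simp only [Nat.div_one] at h1 h2
      rw [h1, h2]
      simp)
    (fun I => badC_light Γ _ _ I) (fun I => badR_light Γ _ _ I) h1 (by simp)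
  refine GTw.mono h (Finset.Subset.refl _) (le_of_eq ?_)
  push_cast
  simp only [mul_one, div_one]

/-- label columns, light rows -/
theorem case_AL (R w D b m l X : ℕ) (hR : 0 < R) (hw : 0 < w) (hD : 0 < D) (hm : 0 < m)
    (hb : 0 < b) (hl : 0 < l) (hH : 0 < R / l) (hmb : m * b = w * D) (hbD : b ≤ D)
    (Γ : Finset (ℕ × ℕ)) (hΓ : GridHyp w D R b Γ)
    (hXr : ∀ g ∈ Γ, (Γ.filter (fun q => q.2 = g.2 ∧ q.1 / (w * D) = g.1 / (w * D))).card ≤ X)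
    (lam : ℕ → ℕ) (hlam : ∀ g ∈ Γ, lam g.1 = g.2 / (w * D))
    (huniq : ∀ g ∈ Γ, ∀ h ∈ Γ, g.1 / b = h.1 / b → lam g.1 = lam h.1 → g.1 = h.1)
    (h1 : 480 * w * R ^ 2 ≤ Γ.card) (h2 : 1280 * (m ^ 3 * l ^ 3 * w ^ 3) * R ^ 5 ≤ Γ.card ^ 3) :
    GTw Γ (((Γ.card : ℝ) ^ 2 / (120 * R ^ 2)) / (2 * (4 * m * (R / l : ℕ)) * (4 * (w * D)) *
      (1 + 2 * ((200 / (R / l : ℕ)) * (1 + X * b / D) + 200 * (1 + w / D))))) := by
  classical
  have hwD : 0 < w * D := Nat.mul_pos hw hD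
  have hC : ∀ c ∈ Γ.image Prod.fst, ∃ g ∈ Γ, g.1 = c := by
    intro c hc
    obtain ⟨g, hg, h⟩ := Finset.mem_image.mp hc
    exact ⟨g, hg, h⟩
  have hlamR : ∀ c ∈ Γ.image Prod.fst, lam c < R := by
    intro c hc
    obtain ⟨g, hg, rfl⟩ := hC c hc
    rw [hlam g hg]
    exact Nat.div_lt_of_lt_mul (by rw [Nat.mul_comm]; exact (hΓ.1 g hg).2)
  have huniq' : ∀ c ∈ Γ.image Prod.fst, ∀ d ∈ Γ.image Prod.fst, c / b = d / b → lam c = lam d →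
      c = d := by
    intro c hc d hd
    obtain ⟨g, hg, rfl⟩ := hC c hc
    obtain ⟨h, hh, rfl⟩ := hC d hd
    exact huniq g hg h hh
  obtain ⟨Cov, idx, hcov, hidx, hmono, hbad⟩ := label_side R l b hl (Γ.image Prod.fst) lam hlamR
    huniq'
  have h := combine R w D b m b (R / l) X (w * D) 1 1 w (m ^ 3 * l ^ 3 * w ^ 3) hR hw hD hm hb hH
    hwD one_pos one_pos hmb (Nat.mul_one _) hbD hD Γ hΓ hXr
    (by
      intro g hg
      refine le_trans (Finset.card_le_card ?_) (hΓ.2.2.2.1 g.1)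
      intro q hq
      rw [Finset.mem_filter] at hq ⊢
      exact ⟨hq.1, hq.2.1⟩)
    (by
      intro g hg h hh h1 h2
      exact huniq g hg h hh h1 (by rw [hlam g hg, hlam h hh, h2]))
    (by intro g _ h _ h1 _; simpa using h1)
    Cov (fun _ _ => True) idx (fun _ _ => 0) hidx hmono
    (by intro _ _ _; exact one_pos)
    (by
      intro c₁ c₁' c₂ c₂' _ _ h1 h2 _
      simp only [Nat.div_one] at h1 h2
      rw [h1, h2]
      simp)
    (by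
      intro I
      rw [← hmb]
      refine label_triples Γ R l b m w hb hm (Γ.image Prod.fst) lam hlamR huniq' ?_ hΓ.2.2.2.1 Cov
        ?_ I
      · intro g hg
        exact ⟨Finset.mem_image_of_mem _ hg, by rw [hmb]; exact hlam g hg⟩
      · intro B₁ B₂ B₃
        convert hbad B₁ B₂ B₃)
    (fun J => le_trans (badR_light Γ _ _ J) (Nat.zero_le _)) h1 h2
  refine GTw.mono h (Finset.Subset.refl _) (le_of_eq ?_)
  push_cast
  simp only [mul_one, div_one]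

/-- label columns, label rows -/
theorem case_AA (R w D b m l : ℕ) (hR : 0 < R) (hw : 0 < w) (hD : 0 < D) (hm : 0 < m)
    (hb : 0 < b) (hl : 0 < l) (hH : 0 < R / l) (hmb : m * b = w * D) (hbD : b ≤ D)
    (Γ : Finset (ℕ × ℕ)) (hΓ : GridHyp w D R b Γ)
    (lam : ℕ → ℕ) (hlam : ∀ g ∈ Γ, lam g.1 = g.2 / (w * D))
    (huniq : ∀ g ∈ Γ, ∀ h ∈ Γ, g.1 / b = h.1 / b → lam g.1 = lam h.1 → g.1 = h.1)
    (mu : ℕ → ℕ) (hmu : ∀ g ∈ Γ, mu g.2 = g.1 / (w * D))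
    (huniq2 : ∀ g ∈ Γ, ∀ h ∈ Γ, g.2 / b = h.2 / b → mu g.2 = mu h.2 → g.2 = h.2)
    (h1 : 480 * w * R ^ 2 ≤ Γ.card) (h2 : 1280 * (m ^ 3 * l ^ 3 * w ^ 3) * R ^ 5 ≤ Γ.card ^ 3) :
    GTw Γ (((Γ.card : ℝ) ^ 2 / (120 * R ^ 2)) / (2 * (4 * m * (R / l : ℕ)) *
      (4 * m * (R / l : ℕ)) *
      (1 + 2 * ((200 / (R / l : ℕ)) * (1 + w * b / D) +
        (200 / (R / l : ℕ)) * (1 + w * b / D))))) := by
  classical
  have hwD : 0 < w * D := Nat.mul_pos hw hD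
  have hC : ∀ c ∈ Γ.image Prod.fst, ∃ g ∈ Γ, g.1 = c := by
    intro c hc
    obtain ⟨g, hg, h⟩ := Finset.mem_image.mp hc
    exact ⟨g, hg, h⟩
  have hC2 : ∀ c ∈ Γ.image Prod.snd, ∃ g ∈ Γ, g.2 = c := by
    intro c hc
    obtain ⟨g, hg, h⟩ := Finset.mem_image.mp hc
    exact ⟨g, hg, h⟩
  have hlamR : ∀ c ∈ Γ.image Prod.fst, lam c < R := by
    intro c hc
    obtain ⟨g, hg, rfl⟩ := hC c hc
    rw [hlam g hg]
    exact Nat.div_lt_of_lt_mul (by rw [Nat.mul_comm]; exact (hΓ.1 g hg).2)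
  have hmuR : ∀ c ∈ Γ.image Prod.snd, mu c < R := by
    intro c hc
    obtain ⟨g, hg, rfl⟩ := hC2 c hc
    rw [hmu g hg]
    exact Nat.div_lt_of_lt_mul (by rw [Nat.mul_comm]; exact (hΓ.1 g hg).1)
  have huniq' : ∀ c ∈ Γ.image Prod.fst, ∀ d ∈ Γ.image Prod.fst, c / b = d / b → lam c = lam d →
      c = d := by
    intro c hc d hd
    obtain ⟨g, hg, rfl⟩ := hC c hc
    obtain ⟨h, hh, rfl⟩ := hC d hd
    exact huniq g hg h hh
  have huniq2' : ∀ c ∈ Γ.image Prod.snd, ∀ d ∈ Γ.image Prod.snd, c / b = d / b → mu c = mu d →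
      c = d := by
    intro c hc d hd
    obtain ⟨g, hg, rfl⟩ := hC2 c hc
    obtain ⟨h, hh, rfl⟩ := hC2 d hd
    exact huniq2 g hg h hh
  obtain ⟨Cov, idx, hcov, hidx, hmono, hbad⟩ := label_side R l b hl (Γ.image Prod.fst) lam hlamR
    huniq'
  obtain ⟨Cov2, idx2, hcov2, hidx2, hmono2, hbad2⟩ := label_side R l b hl (Γ.image Prod.snd) mu
    hmuR huniq2'
  have h := combine R w D b m b (R / l) w m b (R / l) w (m ^ 3 * l ^ 3 * w ^ 3) hR hw hD hm hb hH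
    hm hb hH hmb hmb hbD hbD Γ hΓ
    (by
      intro g hg
      refine le_trans (Finset.card_le_card ?_) (hΓ.2.2.2.2 g.2)
      intro q hq
      rw [Finset.mem_filter] at hq ⊢
      exact ⟨hq.1, hq.2.1⟩)
    (by
      intro g hg
      refine le_trans (Finset.card_le_card ?_) (hΓ.2.2.2.1 g.1)
      intro q hq
      rw [Finset.mem_filter] at hq ⊢
      exact ⟨hq.1, hq.2.1⟩)
    (by
      intro g hg h hh h1 h2
      exact huniq g hg h hh h1 (by rw [hlam g hg, hlam h hh, h2]))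
    (by
      intro g hg h hh h1 h2
      exact huniq2 g hg h hh h1 (by rw [hmu g hg, hmu h hh, h2]))
    Cov Cov2 idx idx2 hidx hmono hidx2 hmono2
    (by
      intro I
      rw [← hmb]
      refine label_triples Γ R l b m w hb hm (Γ.image Prod.fst) lam hlamR huniq' ?_ hΓ.2.2.2.1 Cov
        ?_ I
      · intro g hg
        exact ⟨Finset.mem_image_of_mem _ hg, by rw [hmb]; exact hlam g hg⟩
      · intro B₁ B₂ B₃
        convert hbad B₁ B₂ B₃)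
    (by
      intro I
      rw [← hmb, badR_eq_swap]
      refine label_triples (Γ.image Prod.swap) R l b m w hb hm (Γ.image Prod.snd) mu hmuR huniq2'
        ?_ (GridHyp.swap hΓ).2.2.2.1 Cov2 ?_ I
      · intro g hg
        obtain ⟨h, hh, rfl⟩ := Finset.mem_image.mp hg
        exact ⟨Finset.mem_image_of_mem _ hh, by rw [hmb]; exact hmu h hh⟩
      · intro B₁ B₂ B₃
        convert hbad2 B₁ B₂ B₃)
    h1 h2
  exact h

end Twn
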