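import Pool.Agent.Twn.Affine

/-!
# Existence of the random monotone matching

`Ω = Fin R → (Fin m × Fin (4 * m)) × (Fin m → Fin H)`, i.e. for each macro segment an independent random
affine map of its `m` blocks and independent random chain indices `h` of its blocks.
`Rel ω c c'` iff `Cov c c'`, `c / b / m = c' / b / m =: I`, with `B = c / b % m`, `B' = c' / b % m`:
`B + a * B / m + β = B' + 2 * m` (where `((a, β), h) = ω I`) and `h B = idx c c'`.
(If `c / b / m ≥ R` put `False`.) For columns `< R * m * b` the index `c / b / m` is less than `R`.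
`one`: product of `aff_one` and `1 / H`. `two`: `aff_two` and `1 / H ^ 2` (different blocks).
`far`: independence of different macro segments. `mono`: different macro segments; or same macro,
different blocks: `aff_near` (strictly increasing); same block: `hmono`.
-/

namespace Twn

/-! ### Probabilities in finite product spaces -/

section pr

variable {A B : Type} [Fintype A] [Fintype B]

theorem rr_equiv (e : A ≃ B) (p : B → Prop) : Pr (fun a => p (e a)) = Pr p := by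
  classical
  unfold Pr
  have h1 : Fintype.card A = Fintype.card B := Fintype.card_congr e
  rw [h1]
  congr 2
  apply Finset.card_bij (fun a _ => e a)
  · intro a ha
    simpa using ha
  · intro a _ a' _ h
    exact e.injective h
  · intro b hb
    exact ⟨e.symm b, by simpa using hb, by simp⟩

theorem rr_prod (p : A → Prop) (q : B → Prop) :
    Pr (fun x : A × B => p x.1 ∧ q x.2) = Pr p * Pr q := by
  classical
  unfold Pr
  have h : (@Finset.filter (A × B) (fun x : A × B => p x.1 ∧ q x.2) (Classical.decPred _)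
      Finset.univ) = (@Finset.filter A p (Classical.decPred _) Finset.univ) ×ˢ
        (@Finset.filter B q (Classical.decPred _) Finset.univ) := by
    ext x
    simp
  rw [h, Finset.card_product, Fintype.card_prod]
  push_cast
  rw [div_mul_div_comm]

theorem rr_true [Nonempty A] : Pr (fun _ : A => True) = 1 := by
  classical
  unfold Pr
  simp

theorem rr_mono {p q : A → Prop} (h : ∀ a, p a → q a) : Pr p ≤ Pr q := by
  classical
  unfold Pr
  apply div_le_div_of_nonneg_right _ (by positivity)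
  norm_cast
  apply Finset.card_le_card
  intro a ha
  simp only [Finset.mem_filter, Finset.mem_univ, true_and] at ha ⊢
  exact h a ha

theorem rr_nonneg (p : A → Prop) : 0 ≤ Pr p := by
  unfold Pr
  positivity

theorem rr_congr {p q : A → Prop} (h : ∀ a, p a ↔ q a) : Pr p = Pr q :=
  le_antisymm (rr_mono fun a => (h a).1) (rr_mono fun a => (h a).2)

theorem rr_fst [Nonempty B] (p : A → Prop) : Pr (fun x : A × B => p x.1) = Pr p := by
  have h := rr_prod p (fun _ : B => True)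
  rw [rr_true, mul_one] at h
  rw [← h]
  exact rr_congr fun a => by simp

theorem rr_coord {ι : Type} [Fintype ι] [DecidableEq ι] [Nonempty A] (i : ι) (q : A → Prop) :
    Pr (fun ω : ι → A => q (ω i)) = Pr q := by
  rw [← rr_fst (B := {j // j ≠ i} → A) q, ← rr_equiv (Equiv.funSplitAt i A)]
  rfl

theorem rr_coord2 {ι : Type} [Fintype ι] [DecidableEq ι] [Nonempty A] {i j : ι} (hij : j ≠ i)
    (q q' : A → Prop) : Pr (fun ω : ι → A => q (ω i) ∧ q' (ω j)) = Pr q * Pr q' := by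
  rw [← rr_coord (A := A) (⟨j, hij⟩ : {j // j ≠ i}) q', ← rr_prod,
    ← rr_equiv (Equiv.funSplitAt i A)]
  rfl

end pr

theorem rr_fin_le (H a : ℕ) : Pr (fun k : Fin H => (k : ℕ) = a) ≤ 1 / (H : ℝ) := by
  classical
  unfold Pr
  rw [Fintype.card_fin]
  apply div_le_div_of_nonneg_right _ (by positivity)
  norm_cast
  rw [Finset.card_le_one]
  intro x hx y hy
  simp only [Finset.mem_filter, Finset.mem_univ, true_and] at hx hy
  exact Fin.ext (hx.trans hy.symm)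

theorem rr_fin (H a : ℕ) (ha : a < H) : Pr (fun k : Fin H => (k : ℕ) = a) = 1 / (H : ℝ) := by
  classical
  unfold Pr
  rw [Fintype.card_fin]
  congr 1
  norm_cast
  rw [Finset.card_eq_one]
  refine ⟨⟨a, ha⟩, ?_⟩
  ext x
  simp only [Finset.mem_filter, Finset.mem_univ, true_and, Finset.mem_singleton]
  constructor
  · intro h
    exact Fin.ext h
  · rintro rfl
    rfl

/-- the event of one pair of columns -/
def rrEv {m H : ℕ} (r r' : ℕ) (B : Fin m) (j : ℕ)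
    (u : (Fin m × Fin (4 * m)) × (Fin m → Fin H)) : Prop :=
  (r + (u.1.1 : ℕ) * r / m + (u.1.2 : ℕ) = r' + 2 * m) ∧ ((u.2 B : Fin H) : ℕ) = j

theorem rrEv_pr {m H : ℕ} [Nonempty (Fin H)] (r r' : ℕ) (B : Fin m) (j : ℕ) (hr : r < m)
    (hr' : r' < m) :
    Pr (rrEv (m := m) (H := H) r r' B j) = 1 / (4 * m) * Pr (fun k : Fin H => (k : ℕ) = j) := by
  have h := rr_prod (fun v : Fin m × Fin (4 * m) => r + (v.1 : ℕ) * r / m + (v.2 : ℕ) = r' + 2 * m)
    (fun h : Fin m → Fin H => ((h B : Fin H) : ℕ) = j)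
  rw [aff_one m r r' hr hr'] at h
  have h2 := rr_coord (A := Fin H) B (fun k => (k : ℕ) = j)
  rw [h2] at h
  exact h

theorem rrEv_two {m H : ℕ} [Nonempty (Fin H)] (r₁ r₁' r₂ r₂' : ℕ) (B₁ B₂ : Fin m) (j₁ j₂ : ℕ)
    (hr : r₁ < r₂) (hr₂ : r₂ < m) (hB : B₂ ≠ B₁) (hH : 0 < H) :
    Pr (fun u : (Fin m × Fin (4 * m)) × (Fin m → Fin H) =>
      rrEv r₁ r₁' B₁ j₁ u ∧ rrEv r₂ r₂' B₂ j₂ u) * ((r₂ - r₁ : ℕ) : ℝ) ≤ 3 / (4 * m * H * H) := by
  have hHR : (0 : ℝ) < H := by exact_mod_cast hH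
  have hmR : (0 : ℝ) < m := by exact_mod_cast (lt_of_le_of_lt (Nat.zero_le _) hr₂)
  have e := rr_prod (fun v : Fin m × Fin (4 * m) =>
      r₁ + (v.1 : ℕ) * r₁ / m + (v.2 : ℕ) = r₁' + 2 * m ∧
      r₂ + (v.1 : ℕ) * r₂ / m + (v.2 : ℕ) = r₂' + 2 * m)
    (fun h : Fin m → Fin H => ((h B₁ : Fin H) : ℕ) = j₁ ∧ ((h B₂ : Fin H) : ℕ) = j₂)
  have h2 := rr_coord2 (A := Fin H) hB (fun k => (k : ℕ) = j₁) (fun k => (k : ℕ) = j₂)
  rw [h2] at e
  have e' : Pr (fun u : (Fin m × Fin (4 * m)) × (Fin m → Fin H) =>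
      rrEv r₁ r₁' B₁ j₁ u ∧ rrEv r₂ r₂' B₂ j₂ u) ≤ _ :=
    (rr_mono (fun u hu => ⟨⟨hu.1.1, hu.2.1⟩, hu.1.2, hu.2.2⟩)).trans e.le
  have ha := aff_two m r₁ r₁' r₂ r₂' hr hr₂
  have hf₁ := rr_fin_le H j₁
  have hf₂ := rr_fin_le H j₂
  have n₁ := rr_nonneg (fun k : Fin H => (k : ℕ) = j₁)
  have n₂ := rr_nonneg (fun k : Fin H => (k : ℕ) = j₂)
  set P := Pr (fun v : Fin m × Fin (4 * m) =>
      r₁ + (v.1 : ℕ) * r₁ / m + (v.2 : ℕ) = r₁' + 2 * m ∧
      r₂ + (v.1 : ℕ) * r₂ / m + (v.2 : ℕ) = r₂' + 2 * m) with hP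
  set F₁ := Pr (fun k : Fin H => (k : ℕ) = j₁)
  set F₂ := Pr (fun k : Fin H => (k : ℕ) = j₂)
  set d : ℝ := ((r₂ - r₁ : ℕ) : ℝ)
  have hd0 : 0 ≤ d := Nat.cast_nonneg _
  calc _ ≤ P * (F₁ * F₂) * d := mul_le_mul_of_nonneg_right e' hd0
    _ = (P * d) * (F₁ * F₂) := by ring
    _ ≤ (3 / (4 * m)) * (1 / H * (1 / H)) := by
        apply mul_le_mul ha _ (mul_nonneg n₁ n₂) (by positivity)
        exact mul_le_mul hf₁ hf₂ n₂ (by positivity)
    _ = 3 / (4 * m * H * H) := by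
        field_simp

/-- the relation -/
def rrRel (R m b H : ℕ) (Cov : ℕ → ℕ → Prop) (idx : ℕ → ℕ → ℕ)
    (ω : Fin R → (Fin m × Fin (4 * m)) × (Fin m → Fin H)) (c c' : ℕ) : Prop :=
  ∃ (I : Fin R) (B : Fin m), (I : ℕ) = c / b / m ∧ (B : ℕ) = c / b % m ∧ Cov c c' ∧
    c / b / m = c' / b / m ∧ rrEv (c / b % m) (c' / b % m) B (idx c c') (ω I)

theorem rr_lt {R m b c : ℕ} (h : c < R * m * b) : c / b / m < R := by
  have h1 : c / b < R * m := Nat.div_lt_of_lt_mul (by rw [Nat.mul_comm]; exact h)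
  exact Nat.div_lt_of_lt_mul (by rw [Nat.mul_comm]; exact h1)

theorem exists_rel (R m b H : ℕ) (hR : 0 < R) (hm : 0 < m) (hb : 0 < b) (hH : 0 < H)
    (Cov : ℕ → ℕ → Prop) (idx : ℕ → ℕ → ℕ) (hidx : ∀ c c', Cov c c' → idx c c' < H)
    (hmono : ∀ c₁ c₁' c₂ c₂', Cov c₁ c₁' → Cov c₂ c₂' → c₁ / b = c₂ / b → c₁' / b = c₂' / b →
      idx c₁ c₁' = idx c₂ c₂' → (c₁ < c₂ ↔ c₁' < c₂')) :
    Nonempty (RandRel R m b H Cov) := by
  classical
  have : Nonempty (Fin m) := ⟨⟨0, hm⟩⟩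
  have : Nonempty (Fin H) := ⟨⟨0, hH⟩⟩
  have : Nonempty (Fin (4 * m)) := ⟨⟨0, by omega⟩⟩
  have hHR : (0 : ℝ) < H := by exact_mod_cast hH
  have hmR : (0 : ℝ) < m := by exact_mod_cast hm
  -- the blocks
  have key : ∀ ω c₁ c₁' c₂ c₂', c₁ / b / m = c₂ / b / m → c₁ / b < c₂ / b →
      rrRel R m b H Cov idx ω c₁ c₁' → rrRel R m b H Cov idx ω c₂ c₂' →
      c₁' / b + (c₂ / b - c₁ / b) ≤ c₂' / b ∧ c₂' / b ≤ c₁' / b + 2 * (c₂ / b - c₁ / b) := by
    rintro ω c₁ c₁' c₂ c₂' hI hlt ⟨I₁, B₁, hI₁, hB₁, -, hm₁, e₁, -⟩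
      ⟨I₂, B₂, hI₂, hB₂, -, hm₂, e₂, -⟩
    have hII : I₁ = I₂ := Fin.ext (by rw [hI₁, hI₂, hI])
    subst hII
    have d1 := Nat.div_add_mod (c₁ / b) m
    have d2 := Nat.div_add_mod (c₂ / b) m
    have d3 := Nat.div_add_mod (c₁' / b) m
    have d4 := Nat.div_add_mod (c₂' / b) m
    rw [← hI] at d2
    rw [← hm₁] at d3
    rw [← hm₂, ← hI] at d4
    have hr : c₁ / b % m < c₂ / b % m := by omega
    have h := aff_near m (ω I₁).1.1 (ω I₁).1.2 _ _ _ _ (ω I₁).1.1.2 hr e₁ e₂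
    constructor
    · have := h.1
      omega
    · have := h.2
      omega
  refine ⟨{
    Ω := Fin R → (Fin m × Fin (4 * m)) × (Fin m → Fin H)
    fin := inferInstance
    ne := inferInstance
    Rel := rrRel R m b H Cov idx
    cov := ?_
    mono := ?_
    one := ?_
    near := ?_
    two := ?_
    far := ?_ }⟩
  · rintro ω c c' ⟨I, B, -, -, h1, h2, -, -⟩
    exact ⟨h1, h2⟩
  · intro ω c₁ c₁' c₂ c₂' _ _ _ _ h₁ h₂
    have h₁' := h₁
    have h₂' := h₂
    obtain ⟨I₁, B₁, hI₁, hB₁, hC₁, hm₁, e₁, hh₁⟩ := h₁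
    obtain ⟨I₂, B₂, hI₂, hB₂, hC₂, hm₂, e₂, hh₂⟩ := h₂
    have hq : ∀ x y : ℕ, x / b / m < y / b / m → x < y := by
      intro x y h
      by_contra hxy
      have : y / b / m ≤ x / b / m :=
        Nat.div_le_div_right (Nat.div_le_div_right (not_lt.1 hxy))
      omega
    have hq' : ∀ x y : ℕ, x / b < y / b → x < y := by
      intro x y h
      by_contra hxy
      have : y / b ≤ x / b := Nat.div_le_div_right (not_lt.1 hxy)
      omega
    rcases lt_trichotomy (c₁ / b / m) (c₂ / b / m) with h | h | h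
    · exact iff_of_true (hq _ _ h) (hq _ _ (by omega))
    · rcases lt_trichotomy (c₁ / b) (c₂ / b) with h3 | h3 | h3
      · have := (key ω _ _ _ _ h h3 h₁' h₂').1
        exact iff_of_true (hq' _ _ h3) (hq' _ _ (by omega))
      · have hII : I₁ = I₂ := Fin.ext (by rw [hI₁, hI₂, h])
        subst hII
        have hBB : B₁ = B₂ := Fin.ext (by rw [hB₁, hB₂, h3])
        subst hBB
        have e3 : c₁' / b % m = c₂' / b % m := by
          rw [h3] at e₁
          omega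
        have d3 := Nat.div_add_mod (c₁' / b) m
        have d4 := Nat.div_add_mod (c₂' / b) m
        rw [← hm₁, h] at d3
        rw [← hm₂] at d4
        exact hmono _ _ _ _ hC₁ hC₂ h3 (by omega) (by rw [← hh₁, ← hh₂])
      · have := (key ω _ _ _ _ h.symm h3 h₂' h₁').1
        have a1 := hq' _ _ h3
        have a2 := hq' c₂' c₁' (by omega)
        exact iff_of_false (by omega) (by omega)
    · have a1 := hq _ _ h
      have a2 := hq c₂' c₁' (by omega)
      exact iff_of_false (by omega) (by omega)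
  · intro c c' hc hc' hC hcc
    have hI := rr_lt hc
    have hr : c / b % m < m := Nat.mod_lt _ hm
    have hr' : c' / b % m < m := Nat.mod_lt _ hm
    have e := rr_coord (A := (Fin m × Fin (4 * m)) × (Fin m → Fin H)) (⟨c / b / m, hI⟩ : Fin R)
      (rrEv (c / b % m) (c' / b % m) ⟨c / b % m, hr⟩ (idx c c'))
    rw [rrEv_pr _ _ _ _ hr hr', rr_fin H _ (hidx _ _ hC)] at e
    have e2 : (1 : ℝ) / (4 * m * H) = 1 / (4 * m) * (1 / H) := by field_simp
    rw [e2, ← e]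
    apply rr_congr
    intro ω
    constructor
    · rintro ⟨I, B, h1, h2, -, -, h3⟩
      have hI' : I = ⟨c / b / m, hI⟩ := Fin.ext h1
      have hB' : B = ⟨c / b % m, hr⟩ := Fin.ext h2
      subst hI' hB'
      exact h3
    · intro h3
      exact ⟨⟨c / b / m, hI⟩, ⟨c / b % m, hr⟩, rfl, rfl, hC, hcc, h3⟩
  · intro ω c₁ c₁' c₂ c₂' _ _ _ _ h1 h2 h3 h4
    exact key ω c₁ c₁' c₂ c₂' h1 h2 h3 h4
  · intro c₁ c₁' c₂ c₂' hc₁ hc₁' hc₂ hc₂' hI hlt
    have hI₁ := rr_lt hc₁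
    have hr₁ : c₁ / b % m < m := Nat.mod_lt _ hm
    have hr₂ : c₂ / b % m < m := Nat.mod_lt _ hm
    have d1 := Nat.div_add_mod (c₁ / b) m
    have d2 := Nat.div_add_mod (c₂ / b) m
    rw [← hI] at d2
    have hr : c₁ / b % m < c₂ / b % m := by omega
    have hd : c₂ / b - c₁ / b = c₂ / b % m - c₁ / b % m := by omega
    have e1 := rr_coord (A := (Fin m × Fin (4 * m)) × (Fin m → Fin H))
      (⟨c₁ / b / m, hI₁⟩ : Fin R) (fun u =>
        rrEv (c₁ / b % m) (c₁' / b % m) ⟨c₁ / b % m, hr₁⟩ (idx c₁ c₁') u ∧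
        rrEv (c₂ / b % m) (c₂' / b % m) ⟨c₂ / b % m, hr₂⟩ (idx c₂ c₂') u)
    have e2 := rrEv_two (c₁ / b % m) (c₁' / b % m) (c₂ / b % m) (c₂' / b % m)
      (⟨c₁ / b % m, hr₁⟩ : Fin m) ⟨c₂ / b % m, hr₂⟩ (idx c₁ c₁') (idx c₂ c₂') hr hr₂
      (fun h => by
        have := congrArg Fin.val h
        simp only at this
        omega) hH
    rw [hd]
    refine le_trans (mul_le_mul_of_nonneg_right ?_ (Nat.cast_nonneg _)) e2
    refine le_trans (rr_mono ?_) e1.le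
    rintro ω ⟨⟨I, B, h1, h2, -, -, h3⟩, ⟨I', B', h1', h2', -, -, h3'⟩⟩
    have hI' : I = ⟨c₁ / b / m, hI₁⟩ := Fin.ext h1
    have hII : I' = ⟨c₁ / b / m, hI₁⟩ := Fin.ext (h1'.trans hI.symm)
    have hB' : B = ⟨c₁ / b % m, hr₁⟩ := Fin.ext h2
    have hBB : B' = ⟨c₂ / b % m, hr₂⟩ := Fin.ext h2'
    subst hI' hB' hII hBB
    exact ⟨h3, h3'⟩
  · intro c₁ c₁' c₂ c₂' hc₁ hc₁' hc₂ hc₂' hI
    have hI₁ := rr_lt hc₁
    have hI₂ := rr_lt hc₂
    have hr₁ : c₁ / b % m < m := Nat.mod_lt _ hm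
    have hr₂ : c₂ / b % m < m := Nat.mod_lt _ hm
    have hr₁' : c₁' / b % m < m := Nat.mod_lt _ hm
    have hr₂' : c₂' / b % m < m := Nat.mod_lt _ hm
    have hone : ∀ (c c' : ℕ) (hr : c / b % m < m), c' / b % m < m →
        Pr (rrEv (m := m) (H := H) (c / b % m) (c' / b % m) ⟨c / b % m, hr⟩ (idx c c')) ≤
          1 / (4 * m * H) := by
      intro c c' hr hr'
      rw [rrEv_pr _ _ _ _ hr hr']
      calc _ ≤ 1 / (4 * (m : ℝ)) * (1 / H) :=
            mul_le_mul_of_nonneg_left (rr_fin_le H _) (by positivity)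
        _ = 1 / (4 * m * H) := by field_simp
    have e := rr_coord2 (A := (Fin m × Fin (4 * m)) × (Fin m → Fin H))
      (i := (⟨c₁ / b / m, hI₁⟩ : Fin R)) (j := ⟨c₂ / b / m, hI₂⟩) (fun h => by
        have := congrArg Fin.val h
        simp only at this
        exact hI this.symm)
      (rrEv (c₁ / b % m) (c₁' / b % m) ⟨c₁ / b % m, hr₁⟩ (idx c₁ c₁'))
      (rrEv (c₂ / b % m) (c₂' / b % m) ⟨c₂ / b % m, hr₂⟩ (idx c₂ c₂'))
    have e3 : Pr (rrEv (m := m) (H := H) (c₁ / b % m) (c₁' / b % m) ⟨c₁ / b % m, hr₁⟩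
        (idx c₁ c₁')) * Pr (rrEv (m := m) (H := H) (c₂ / b % m) (c₂' / b % m) ⟨c₂ / b % m, hr₂⟩
        (idx c₂ c₂')) ≤ 1 / (4 * m * H) ^ 2 := by
      rw [pow_two, ← one_div_mul_one_div]
      exact mul_le_mul (hone _ _ hr₁ hr₁') (hone _ _ hr₂ hr₂') (rr_nonneg _) (by positivity)
    refine le_trans (le_trans (rr_mono ?_) e.le) e3
    rintro ω ⟨⟨I, B, h1, h2, -, -, h3⟩, ⟨I', B', h1', h2', -, -, h3'⟩⟩
    have hI' : I = ⟨c₁ / b / m, hI₁⟩ := Fin.ext h1
    have hII : I' = ⟨c₂ / b / m, hI₂⟩ := Fin.ext h1'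
    have hB' : B = ⟨c₁ / b % m, hr₁⟩ := Fin.ext h2
    have hBB : B' = ⟨c₂ / b % m, hr₂⟩ := Fin.ext h2'
    subst hI' hB' hII hBB
    exact ⟨h3, h3'⟩

end Twn
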