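import Pool.Agent.Twn.Pipeline
import Pool.Agent.Twn.RandRel
import Pool.Agent.Twn.GoodSum

/-!
# Good pairs and the engine together
-/

namespace Twn

lemma colOf_card_filter (Γ : Finset (ℕ × ℕ)) (c : ℕ) (p : ℕ → Prop) [DecidablePred p] :
    ((colOf Γ c).filter p).card = (Γ.filter (fun g => g.1 = c ∧ p g.2)).card := by
  have h : (colOf Γ c).filter p = (Γ.filter (fun g => g.1 = c ∧ p g.2)).image Prod.snd := by
    ext r
    simp only [Finset.mem_filter, mem_colOf, Finset.mem_image, Prod.exists]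
    constructor
    · rintro ⟨h1, h2⟩
      exact ⟨c, r, ⟨h1, rfl, h2⟩, rfl⟩
    · rintro ⟨a, b, ⟨h1, h2, h3⟩, h4⟩
      subst h2; subst h4
      exact ⟨h1, h3⟩
  rw [h, Finset.card_image_of_injOn]
  rintro ⟨a, b⟩ hx ⟨a', b'⟩ hy hxy
  simp only [Finset.coe_filter, Set.mem_setOf_eq] at hx hy
  simp only at hxy
  rw [Prod.mk.injEq]
  exact ⟨by rw [hx.2.1, hy.2.1], hxy⟩

lemma rowOf_card_filter (Γ : Finset (ℕ × ℕ)) (r : ℕ) (p : ℕ → Prop) [DecidablePred p] :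
    ((rowOf Γ r).filter p).card = (Γ.filter (fun g => g.2 = r ∧ p g.1)).card := by
  have h : (rowOf Γ r).filter p = (Γ.filter (fun g => g.2 = r ∧ p g.1)).image Prod.fst := by
    ext c
    simp only [Finset.mem_filter, mem_rowOf, Finset.mem_image, Prod.exists]
    constructor
    · rintro ⟨h1, h2⟩
      exact ⟨c, r, ⟨h1, rfl, h2⟩, rfl⟩
    · rintro ⟨a, b, ⟨h1, h2, h3⟩, h4⟩
      subst h2; subst h4
      exact ⟨h1, h3⟩
  rw [h, Finset.card_image_of_injOn]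
  rintro ⟨a, b⟩ hx ⟨a', b'⟩ hy hxy
  simp only [Finset.coe_filter, Set.mem_setOf_eq] at hx hy
  simp only at hxy
  rw [Prod.mk.injEq]
  exact ⟨hxy, by rw [hx.2.1, hy.2.1]⟩

lemma spr_colOf {w D R b : ℕ} {Γ : Finset (ℕ × ℕ)} (h : GridHyp w D R b Γ) (c : ℕ) :
    Spr D (colOf Γ c) := by
  intro a
  rw [colOf_card_filter]
  refine le_trans (Finset.card_le_card ?_) (h.2.1 (c / b) a)
  intro g hg
  rw [Finset.mem_filter] at hg ⊢
  exact ⟨hg.1, by rw [hg.2.1], hg.2.2.1, hg.2.2.2⟩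

lemma spr_rowOf {w D R b : ℕ} {Γ : Finset (ℕ × ℕ)} (h : GridHyp w D R b Γ) (r : ℕ) :
    Spr D (rowOf Γ r) := by
  intro a
  rw [rowOf_card_filter]
  refine le_trans (Finset.card_le_card ?_) (h.2.2.1 (r / b) a)
  intro g hg
  rw [Finset.mem_filter] at hg ⊢
  exact ⟨hg.1, by rw [hg.2.1], hg.2.2.1, hg.2.2.2⟩

theorem combine (R w D b mc bc Hc Xr mr br Hr Xc τ : ℕ) (hR : 0 < R) (hw : 0 < w) (hD : 0 < D)
    (hmc0 : 0 < mc) (hbc0 : 0 < bc) (hHc : 0 < Hc) (hmr0 : 0 < mr) (hbr0 : 0 < br) (hHr : 0 < Hr)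
    (hmc : mc * bc = w * D) (hmr : mr * br = w * D) (hbc : bc ≤ D) (hbr : br ≤ D)
    (Γ : Finset (ℕ × ℕ)) (hΓ : GridHyp w D R b Γ)
    (hXr : ∀ g ∈ Γ, (Γ.filter (fun q => q.2 = g.2 ∧ q.1 / (w * D) = g.1 / (w * D))).card ≤ Xr)
    (hXc : ∀ g ∈ Γ, (Γ.filter (fun q => q.1 = g.1 ∧ q.2 / (w * D) = g.2 / (w * D))).card ≤ Xc)
    (hlc : ∀ g ∈ Γ, ∀ h ∈ Γ, g.1 / bc = h.1 / bc → g.2 / (w * D) = h.2 / (w * D) → g.1 = h.1)
    (hlr : ∀ g ∈ Γ, ∀ h ∈ Γ, g.2 / br = h.2 / br → g.1 / (w * D) = h.1 / (w * D) → g.2 = h.2)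
    (Covc Covr : ℕ → ℕ → Prop) (idxc idxr : ℕ → ℕ → ℕ)
    (hidxc : ∀ c c', Covc c c' → idxc c c' < Hc)
    (hmonoc : ∀ c₁ c₁' c₂ c₂', Covc c₁ c₁' → Covc c₂ c₂' → c₁ / bc = c₂ / bc →
      c₁' / bc = c₂' / bc → idxc c₁ c₁' = idxc c₂ c₂' → (c₁ < c₂ ↔ c₁' < c₂'))
    (hidxr : ∀ c c', Covr c c' → idxr c c' < Hr)
    (hmonor : ∀ c₁ c₁' c₂ c₂', Covr c₁ c₁' → Covr c₂ c₂' → c₁ / br = c₂ / br →
      c₁' / br = c₂' / br → idxr c₁ c₁' = idxr c₂ c₂' → (c₁ < c₂ ↔ c₁' < c₂'))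
    (hTc : ∀ I, (badC Γ (w * D) bc Covc I).card ≤ τ)
    (hTr : ∀ J, (badR Γ (w * D) br Covr J).card ≤ τ)
    (h1 : 480 * w * R ^ 2 ≤ Γ.card) (h2 : 1280 * τ * R ^ 5 ≤ Γ.card ^ 3) :
    GTw Γ (((Γ.card : ℝ) ^ 2 / (120 * R ^ 2)) / (2 * (4 * mc * Hc) * (4 * mr * Hr) *
      (1 + 2 * ((200 / Hc) * (1 + Xr * bc / D) + (200 / Hr) * (1 + Xc * br / D))))) := by
  obtain ⟨Fc⟩ := exists_rel R mc bc Hc hR hmc0 hbc0 hHc Covc idxc hidxc hmonoc
  obtain ⟨Fr⟩ := exists_rel R mr br Hr hR hmr0 hbr0 hHr Covr idxr hidxr hmonor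
  have hwD : 0 < w * D := Nat.mul_pos hw hD
  have hgs := good_sum Γ R (w * D) bc br w τ hR Covc Covr
    (fun g hg => ⟨Nat.div_lt_of_lt_mul (by rw [Nat.mul_comm]; exact (hΓ.1 g hg).1),
      Nat.div_lt_of_lt_mul (by rw [Nat.mul_comm]; exact (hΓ.1 g hg).2)⟩)
    (by
      intro g hg
      refine le_trans (Finset.card_le_card ?_) (hΓ.2.2.2.1 g.1)
      intro q hq
      rw [Finset.mem_filter] at hq ⊢
      exact ⟨hq.1, hlc q hq.1 g hg hq.2.1 hq.2.2⟩)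
    (by
      intro g hg
      refine le_trans (Finset.card_le_card ?_) (hΓ.2.2.2.2 g.2)
      intro q hq
      rw [Finset.mem_filter] at hq ⊢
      exact ⟨hq.1, hlr q hq.1 g hg hq.2.1 hq.2.2⟩)
    hTc hTr h1 h2
  have hp := pipeline R w D mc bc Hc Xr mr br Hr Xc hw hD hmc0 hbc0 hHc hmr0 hbr0 hHr hmc hmr hbc
    hbr Γ hΓ.1 (spr_rowOf hΓ) (spr_colOf hΓ)
    (by
      intro r
      have := rowOf_card_filter Γ r (fun _ => True)
      simp only [Finset.filter_true, and_true] at this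
      rw [this]
      exact hΓ.2.2.2.2 r)
    (by
      intro c
      have := colOf_card_filter Γ c (fun _ => True)
      simp only [Finset.filter_true, and_true] at this
      rw [this]
      exact hΓ.2.2.2.1 c)
    (by
      intro r I
      rw [rowOf_card_filter]
      rcases (Γ.filter (fun g => g.2 = r ∧ g.1 / (w * D) = I)).eq_empty_or_nonempty with h | ⟨g, hg⟩
      · rw [h]; simp
      · rw [Finset.mem_filter] at hg
        have := hXr g hg.1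
        rw [hg.2.1, hg.2.2] at this
        exact this)
    (by
      intro c J
      rw [colOf_card_filter]
      rcases (Γ.filter (fun g => g.1 = c ∧ g.2 / (w * D) = J)).eq_empty_or_nonempty with h | ⟨g, hg⟩
      · rw [h]; simp
      · rw [Finset.mem_filter] at hg
        have := hXc g hg.1
        rw [hg.2.1, hg.2.2] at this
        exact this)
    (fun g hg h hh h1 h2 => hlc g hg h hh h2 (by rw [h1]))
    (fun g hg h hh h1 h2 => hlr g hg h hh h2 (by rw [h1]))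
    Covc Covr Fc Fr (goodPairs Γ (w * D) bc br Covc Covr)
    (by
      classical
      intro e he
      unfold goodPairs at he
      rw [Finset.mem_filter, Finset.mem_product] at he
      obtain ⟨⟨h1, h2⟩, h3, h4, h5, h6, h7, h8⟩ := he
      refine ⟨h1, h2, ?_, h7, h8, h3, h4⟩
      intro h
      exact h5 (by rw [h]))
  refine GTw.mono hp (Finset.Subset.refl _) ?_
  have hx : (0 : ℝ) < 2 * (4 * mc * Hc) * (4 * mr * Hr) *
      (1 + 2 * ((200 / Hc) * (1 + Xr * bc / D) + (200 / Hr) * (1 + Xc * br / D))) := by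
    positivity
  refine div_le_div_of_nonneg_right ?_ hx.le
  rw [div_le_iff₀ (by positivity)]
  have : ((Γ.card ^ 2 : ℕ) : ℝ) ≤ ((120 * R ^ 2 * (goodPairs Γ (w * D) bc br Covc Covr).card : ℕ) : ℝ) :=
    by exact_mod_cast hgs
  push_cast at this
  linarith

end Twn
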