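import Pool.Agent.Twn.Short

/-!
# Groups of three consecutive points of a block

`W ∣ n`, `3 ∣ W`: every block of `W` columns of the permutation contains exactly `W` points, the ranks in
the block are `0 .. W - 1`, and every group (`rk / 3` constant) has exactly three points. Different groups
of the same block are value-separated.
-/

namespace Twn

/-- a block has `W` points -/
theorem blk_card {n : ℕ} (P : Finset (ℕ × ℕ)) (hP : PermSet n P) (W : ℕ) (hW : 0 < W) (B : ℕ)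
    (hB : B < n / W) : (P.filter (fun q => q.1 / W = B)).card = W := by
  obtain ⟨h1, h2, h3, h4⟩ := hP
  have himg : P.image Prod.fst = Finset.range n := by
    apply Finset.eq_of_subset_of_card_le
    · intro c hc
      obtain ⟨p, hp, rfl⟩ := Finset.mem_image.1 hc
      exact Finset.mem_range.2 (h2 p hp).1
    · rw [Finset.card_image_of_injOn (fun p hp q hq h => h3 p hp q hq h), h1, Finset.card_range]
  have hBn : (B + 1) * W ≤ n :=
    le_trans (Nat.mul_le_mul_right W hB) (Nat.div_mul_le_self n W)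
  have h5 : (P.filter (fun q => q.1 / W = B)).image Prod.fst = Finset.Ico (B * W) (B * W + W) := by
    ext c
    rw [Finset.mem_image, Finset.mem_Ico]
    constructor
    · rintro ⟨p, hp, rfl⟩
      obtain ⟨hp1, hp2⟩ := Finset.mem_filter.1 hp
      have h6 := Nat.div_add_mod p.1 W
      have h7 := Nat.mod_lt p.1 hW
      rw [hp2, mul_comm] at h6
      omega
    · rintro ⟨h6, h7⟩
      have h8 : c ∈ Finset.range n := by
        rw [Finset.mem_range]
        rw [add_mul, one_mul] at hBn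
        omega
      rw [← himg] at h8
      obtain ⟨p, hp, rfl⟩ := Finset.mem_image.1 h8
      refine ⟨p, Finset.mem_filter.2 ⟨hp, ?_⟩, rfl⟩
      refine Nat.div_eq_of_lt_le h6 ?_
      rw [add_mul, one_mul]
      exact h7
  have h6 : ((P.filter (fun q => q.1 / W = B)).image Prod.fst).card =
      (P.filter (fun q => q.1 / W = B)).card := by
    apply Finset.card_image_of_injOn
    intro p hp q hq h
    exact h3 p (Finset.mem_filter.1 hp).1 q (Finset.mem_filter.1 hq).1 h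
  rw [← h6, h5, Nat.card_Ico]
  omega

theorem rk_lt_of_lt (P : Finset (ℕ × ℕ)) (W : ℕ) {p q : ℕ × ℕ} (hp : p ∈ P)
    (hb : p.1 / W = q.1 / W) (h : p.2 < q.2) : rk W P p < rk W P q := by
  unfold rk
  apply Finset.card_lt_card
  rw [Finset.ssubset_iff_of_subset]
  · refine ⟨p, Finset.mem_filter.2 ⟨hp, hb, h⟩, ?_⟩
    rw [Finset.mem_filter]
    rintro ⟨-, -, h1⟩
    exact lt_irrefl _ h1
  · intro r hr
    obtain ⟨h1, h2, h3⟩ := Finset.mem_filter.1 hr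
    exact Finset.mem_filter.2 ⟨h1, h2.trans hb, h3.trans h⟩

theorem rk_le_iff {n : ℕ} (P : Finset (ℕ × ℕ)) (hP : PermSet n P) (W : ℕ) {p q : ℕ × ℕ}
    (hp : p ∈ P) (hq : q ∈ P) (hb : p.1 / W = q.1 / W) : rk W P p ≤ rk W P q ↔ p.2 ≤ q.2 := by
  constructor
  · intro h
    by_contra h1
    have h2 := rk_lt_of_lt P W hq hb.symm (not_le.1 h1)
    omega
  · intro h
    rcases Nat.lt_or_eq_of_le h with h1 | h1
    · exact (rk_lt_of_lt P W hp hb h1).le
    · rw [hP.2.2.2 p hp q hq h1]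

theorem rk_lt_iff {n : ℕ} (P : Finset (ℕ × ℕ)) (hP : PermSet n P) (W : ℕ) {p q : ℕ × ℕ}
    (hp : p ∈ P) (hq : q ∈ P) (hb : p.1 / W = q.1 / W) : rk W P p < rk W P q ↔ p.2 < q.2 := by
  rw [← not_le, ← not_le, rk_le_iff P hP W hq hp hb.symm]

theorem rk_inj {n : ℕ} (P : Finset (ℕ × ℕ)) (hP : PermSet n P) (W : ℕ) {p q : ℕ × ℕ}
    (hp : p ∈ P) (hq : q ∈ P) (hb : p.1 / W = q.1 / W) (h : rk W P p = rk W P q) : p = q := by
  apply hP.2.2.2 p hp q hq
  have h1 := (rk_le_iff P hP W hp hq hb).1 h.le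
  have h2 := (rk_le_iff P hP W hq hp hb.symm).1 h.ge
  omega

theorem div_lt_of_mem {n : ℕ} (P : Finset (ℕ × ℕ)) (hP : PermSet n P) (W : ℕ) (hWn : W ∣ n)
    {p : ℕ × ℕ} (hp : p ∈ P) : p.1 / W < n / W :=
  Nat.div_lt_div_of_lt_of_dvd hWn (hP.2.1 p hp).1

theorem rk_lt_W {n : ℕ} (P : Finset (ℕ × ℕ)) (hP : PermSet n P) (W : ℕ) (hW : 0 < W)
    (hWn : W ∣ n) {p : ℕ × ℕ} (hp : p ∈ P) : rk W P p < W := by
  have h1 := blk_card P hP W hW (p.1 / W) (div_lt_of_mem P hP W hWn hp)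
  have h2 : rk W P p < (P.filter (fun q => q.1 / W = p.1 / W)).card := by
    unfold rk
    apply Finset.card_lt_card
    rw [Finset.ssubset_iff_of_subset]
    · refine ⟨p, Finset.mem_filter.2 ⟨hp, rfl⟩, ?_⟩
      rw [Finset.mem_filter]
      rintro ⟨-, -, h1⟩
      exact lt_irrefl _ h1
    · intro r hr
      obtain ⟨h1, h2, h3⟩ := Finset.mem_filter.1 hr
      exact Finset.mem_filter.2 ⟨h1, h2⟩
  rwa [h1] at h2

theorem rk_surj {n : ℕ} (P : Finset (ℕ × ℕ)) (hP : PermSet n P) (W : ℕ) (hW : 0 < W)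
    (hWn : W ∣ n) {B r : ℕ} (hB : B < n / W) (hr : r < W) :
    ∃ q ∈ P, q.1 / W = B ∧ rk W P q = r := by
  have h1 : (P.filter (fun q => q.1 / W = B)).image (rk W P) = Finset.range W := by
    apply Finset.eq_of_subset_of_card_le
    · intro c hc
      obtain ⟨p, hp, rfl⟩ := Finset.mem_image.1 hc
      exact Finset.mem_range.2 (rk_lt_W P hP W hW hWn (Finset.mem_filter.1 hp).1)
    · rw [Finset.card_image_of_injOn, blk_card P hP W hW B hB, Finset.card_range]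
      intro p hp q hq h
      obtain ⟨h2, h3⟩ := Finset.mem_filter.1 hp
      obtain ⟨h4, h5⟩ := Finset.mem_filter.1 hq
      exact rk_inj P hP W h2 h4 (h3.trans h5.symm) h
  have h2 : r ∈ (P.filter (fun q => q.1 / W = B)).image (rk W P) := by
    rw [h1]
    exact Finset.mem_range.2 hr
  obtain ⟨q, hq, h3⟩ := Finset.mem_image.1 h2
  exact ⟨q, (Finset.mem_filter.1 hq).1, (Finset.mem_filter.1 hq).2, h3⟩

theorem mem_grp (P : Finset (ℕ × ℕ)) (W : ℕ) (p q : ℕ × ℕ) :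
    q ∈ grp W P p ↔ q ∈ P ∧ q.1 / W = p.1 / W ∧ rk W P q / 3 = rk W P p / 3 := by
  unfold grp
  exact Finset.mem_filter

theorem grp_card {n : ℕ} (P : Finset (ℕ × ℕ)) (hP : PermSet n P) (W : ℕ) (hW : 0 < W)
    (h3 : 3 ∣ W) (hWn : W ∣ n) {p : ℕ × ℕ} (hp : p ∈ P) : (grp W P p).card = 3 := by
  have h1 : (grp W P p).image (rk W P) =
      Finset.Ico (3 * (rk W P p / 3)) (3 * (rk W P p / 3) + 3) := by
    ext r
    rw [Finset.mem_image, Finset.mem_Ico]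
    constructor
    · rintro ⟨q, hq, rfl⟩
      obtain ⟨-, -, h4⟩ := (mem_grp P W p q).1 hq
      omega
    · rintro ⟨h4, h5⟩
      have h6 := rk_lt_W P hP W hW hWn hp
      obtain ⟨w, rfl⟩ := h3
      obtain ⟨q, hq, h7, h8⟩ := rk_surj P hP (3 * w) hW hWn (div_lt_of_mem P hP (3 * w) hWn hp)
        (show r < 3 * w by omega)
      refine ⟨q, (mem_grp P _ p q).2 ⟨hq, h7, ?_⟩, h8⟩
      rw [h8]
      omega
  have h2 : ((grp W P p).image (rk W P)).card = (grp W P p).card := by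
    apply Finset.card_image_of_injOn
    intro q hq q' hq' h
    obtain ⟨h4, h5, -⟩ := (mem_grp P W p q).1 hq
    obtain ⟨h6, h7, -⟩ := (mem_grp P W p q').1 hq'
    exact rk_inj P hP W h4 h6 (h5.trans h7.symm) h
  rw [← h2, h1, Nat.card_Ico]
  omega

/-- the elements of a set of three points, sorted by columns -/
def Srt (S : Finset (ℕ × ℕ)) (t : (ℕ × ℕ) × (ℕ × ℕ) × (ℕ × ℕ)) : Prop :=
  t.1.1 < t.2.1.1 ∧ t.2.1.1 < t.2.2.1 ∧ ∀ q, q ∈ S ↔ q = t.1 ∨ q = t.2.1 ∨ q = t.2.2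

theorem exists_srt (S : Finset (ℕ × ℕ)) (h : S.card = 3)
    (hd : ∀ p ∈ S, ∀ q ∈ S, p.1 = q.1 → p = q) : ∃ t, Srt S t := by
  obtain ⟨x, y, z, hxy, hxz, hyz, hS⟩ := Finset.card_eq_three.1 h
  have hm : ∀ q, q ∈ S ↔ q = x ∨ q = y ∨ q = z := by
    intro q
    rw [hS]
    simp
  have hx := (hm x).2 (Or.inl rfl)
  have hy := (hm y).2 (Or.inr (Or.inl rfl))
  have hz := (hm z).2 (Or.inr (Or.inr rfl))
  have h1 : x.1 ≠ y.1 := fun h => hxy (hd x hx y hy h)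
  have h2 : x.1 ≠ z.1 := fun h => hxz (hd x hx z hz h)
  have h3 : y.1 ≠ z.1 := fun h => hyz (hd y hy z hz h)
  rcases Nat.lt_or_gt_of_ne h1 with h4 | h4 <;> rcases Nat.lt_or_gt_of_ne h2 with h5 | h5 <;>
    rcases Nat.lt_or_gt_of_ne h3 with h6 | h6
  · exact ⟨(x, y, z), h4, h6, fun q => by rw [hm]⟩
  · exact ⟨(x, z, y), h5, h6, fun q => by rw [hm]; tauto⟩
  · exact absurd h5 (by omega)
  · exact ⟨(z, x, y), h5, h4, fun q => by rw [hm]; tauto⟩
  · exact ⟨(y, x, z), h4, h5, fun q => by rw [hm]; tauto⟩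
  · exact absurd h5 (by omega)
  · exact ⟨(y, z, x), h6, h5, fun q => by rw [hm]; tauto⟩
  · exact ⟨(z, y, x), h6, h4, fun q => by rw [hm]; tauto⟩

theorem hi_mem (S : Finset (ℕ × ℕ)) (t : (ℕ × ℕ) × (ℕ × ℕ) × (ℕ × ℕ)) (h : Srt S t) :
    ∃ q ∈ S, q.2 = hi t := by
  obtain ⟨-, -, h⟩ := h
  unfold hi
  rcases le_total t.1.2 (max t.2.1.2 t.2.2.2) with h1 | h1
  · rw [max_eq_right h1]
    rcases le_total t.2.1.2 t.2.2.2 with h2 | h2
    · rw [max_eq_right h2]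
      exact ⟨_, (h _).2 (Or.inr (Or.inr rfl)), rfl⟩
    · rw [max_eq_left h2]
      exact ⟨_, (h _).2 (Or.inr (Or.inl rfl)), rfl⟩
  · rw [max_eq_left h1]
    exact ⟨_, (h _).2 (Or.inl rfl), rfl⟩

theorem lo_mem (S : Finset (ℕ × ℕ)) (t : (ℕ × ℕ) × (ℕ × ℕ) × (ℕ × ℕ)) (h : Srt S t) :
    ∃ q ∈ S, q.2 = lo t := by
  obtain ⟨-, -, h⟩ := h
  unfold lo
  rcases le_total t.1.2 (min t.2.1.2 t.2.2.2) with h1 | h1
  · rw [min_eq_left h1]
    exact ⟨_, (h _).2 (Or.inl rfl), rfl⟩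
  · rw [min_eq_right h1]
    rcases le_total t.2.1.2 t.2.2.2 with h2 | h2
    · rw [min_eq_left h2]
      exact ⟨_, (h _).2 (Or.inr (Or.inl rfl)), rfl⟩
    · rw [min_eq_right h2]
      exact ⟨_, (h _).2 (Or.inr (Or.inr rfl)), rfl⟩

theorem grp_sep {n : ℕ} (P : Finset (ℕ × ℕ)) (hP : PermSet n P) (W : ℕ) {p p' : ℕ × ℕ}
    (hb : p.1 / W = p'.1 / W) (h : rk W P p / 3 < rk W P p' / 3)
    (t t' : (ℕ × ℕ) × (ℕ × ℕ) × (ℕ × ℕ)) (ht : Srt (grp W P p) t) (ht' : Srt (grp W P p') t') :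
    hi t < lo t' := by
  obtain ⟨q, hq, h1⟩ := hi_mem _ _ ht
  obtain ⟨q', hq', h2⟩ := lo_mem _ _ ht'
  obtain ⟨h3, h4, h5⟩ := (mem_grp P W p q).1 hq
  obtain ⟨h6, h7, h8⟩ := (mem_grp P W p' q').1 hq'
  rw [← h1, ← h2, ← rk_lt_iff P hP W h3 h6 (h4.trans (hb.trans h7.symm))]
  omega

theorem short_groups_aux {n : ℕ} (P : Finset (ℕ × ℕ)) (hP : PermSet n P) (W L : ℕ) (hW : 0 < W)
    (h3 : 3 ∣ W) (hWn : W ∣ n) [DecidablePred (IsShort W L P)] :
    ∃ 𝒢 : Finset ((ℕ × ℕ) × (ℕ × ℕ) × (ℕ × ℕ)), TripSet W P 𝒢 ∧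
      (∀ G ∈ 𝒢, hi G < lo G + L) ∧ (P.filter (IsShort W L P)).card ≤ 3 * 𝒢.card := by
  have hex : ∀ S : Finset (ℕ × ℕ), ∃ t, (∃ t', Srt S t') → Srt S t := by
    intro S
    by_cases h : ∃ t', Srt S t'
    · obtain ⟨t, ht⟩ := h
      exact ⟨t, fun _ => ht⟩
    · exact ⟨((0, 0), (0, 0), (0, 0)), fun h' => absurd h' h⟩
  choose tr htr using hex
  have hsrt : ∀ p ∈ P, Srt (grp W P p) (tr (grp W P p)) := by
    intro p hp
    apply htr
    apply exists_srt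
    · exact grp_card P hP W hW h3 hWn hp
    · intro q hq q' hq' h
      exact hP.2.2.1 q ((mem_grp P W p q).1 hq).1 q' ((mem_grp P W p q').1 hq').1 h
  refine ⟨(P.filter (IsShort W L P)).image (fun p => tr (grp W P p)), ⟨?_, ?_⟩, ?_, ?_⟩
  · intro G hG
    obtain ⟨p, hp, rfl⟩ := Finset.mem_image.1 hG
    have hp1 := (Finset.mem_filter.1 hp).1
    obtain ⟨h4, h5, h6⟩ := hsrt p hp1
    have h7 := (mem_grp P W p _).1 ((h6 _).2 (Or.inl rfl))
    have h8 := (mem_grp P W p _).1 ((h6 _).2 (Or.inr (Or.inl rfl)))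
    have h9 := (mem_grp P W p _).1 ((h6 _).2 (Or.inr (Or.inr rfl)))
    exact ⟨h7.1, h8.1, h9.1, h4, h5, h8.2.1.trans h7.2.1.symm, h9.2.1.trans h7.2.1.symm⟩
  · intro G hG G' hG' hne hB
    obtain ⟨p, hp, rfl⟩ := Finset.mem_image.1 hG
    obtain ⟨p', hp', rfl⟩ := Finset.mem_image.1 hG'
    have hp1 := (Finset.mem_filter.1 hp).1
    have hp1' := (Finset.mem_filter.1 hp').1
    have h4 := hsrt p hp1
    have h5 := hsrt p' hp1'
    have h6 := (mem_grp P W p _).1 ((h4.2.2 _).2 (Or.inl rfl))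
    have h7 := (mem_grp P W p' _).1 ((h5.2.2 _).2 (Or.inl rfl))
    have hb : p.1 / W = p'.1 / W := h6.2.1.symm.trans (hB.trans h7.2.1)
    rcases Nat.lt_trichotomy (rk W P p / 3) (rk W P p' / 3) with h8 | h8 | h8
    · exact Or.inl (grp_sep P hP W hb h8 _ _ h4 h5)
    · exfalso
      apply hne
      have h9 : grp W P p = grp W P p' := by
        unfold grp
        rw [hb, h8]
      simp only [h9]
    · exact Or.inr (grp_sep P hP W hb.symm h8 _ _ h5 h4)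
  · intro G hG
    obtain ⟨p, hp, rfl⟩ := Finset.mem_image.1 hG
    obtain ⟨hp1, hp2⟩ := Finset.mem_filter.1 hp
    have h4 := hsrt p hp1
    obtain ⟨q, hq, h5⟩ := hi_mem _ _ h4
    obtain ⟨q', hq', h6⟩ := lo_mem _ _ h4
    rw [← h5, ← h6]
    exact hp2 q hq q' hq'
  · apply Finset.card_le_mul_card_image
    intro G hG
    have h4 : ((P.filter (IsShort W L P)).filter (fun p => tr (grp W P p) = G)) ⊆
        {G.1, G.2.1, G.2.2} := by
      intro q hq
      obtain ⟨h5, h6⟩ := Finset.mem_filter.1 hq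
      have h7 := hsrt q (Finset.mem_filter.1 h5).1
      have h8 : q ∈ grp W P q := (mem_grp P W q q).2 ⟨(Finset.mem_filter.1 h5).1, rfl, rfl⟩
      have h9 := (h7.2.2 q).1 h8
      rw [h6] at h9
      simpa using h9
    exact le_trans (Finset.card_le_card h4) Finset.card_le_three

/-- the short groups, as sorted triples -/
theorem short_groups {n : ℕ} (P : Finset (ℕ × ℕ)) (hP : PermSet n P) (W L : ℕ) (hW : 0 < W)
    (h3 : 3 ∣ W) (hWn : W ∣ n) :
    haveI := Classical.decPred (IsShort W L P)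
    ∃ 𝒢 : Finset ((ℕ × ℕ) × (ℕ × ℕ) × (ℕ × ℕ)), TripSet W P 𝒢 ∧
      (∀ G ∈ 𝒢, hi G < lo G + L) ∧ (P.filter (IsShort W L P)).card ≤ 3 * 𝒢.card :=
  @short_groups_aux n P hP W L hW h3 hWn (Classical.decPred (IsShort W L P))

theorem long_sparse_aux {n : ℕ} (P : Finset (ℕ × ℕ)) (hP : PermSet n P) (W L : ℕ) (B a : ℕ)
    (T : Finset (ℕ × ℕ)) (hT : ∀ p ∈ T, p ∈ P ∧ ¬ IsShort W L P p ∧ p.1 / W = B ∧ a ≤ p.2 ∧
      p.2 < a + L) : T.card ≤ 4 := by
  by_contra hc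
  have h0 : (T.image (rk W P)).card = T.card := by
    apply Finset.card_image_of_injOn
    intro p hp q hq h
    obtain ⟨h1, -, h2, -⟩ := hT p hp
    obtain ⟨h3, -, h4, -⟩ := hT q hq
    exact rk_inj P hP W h1 h3 (h2.trans h4.symm) h
  have hex : ∀ (i : Fin (T.card)), ∃ p ∈ T, rk W P p = (T.image (rk W P)).orderEmbOfFin h0 i := by
    intro i
    have h1 := Finset.orderEmbOfFin_mem (T.image (rk W P)) h0 i
    exact Finset.mem_image.1 h1
  have hlt : ∀ i j : Fin (T.card), i < j → (T.image (rk W P)).orderEmbOfFin h0 i <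
      (T.image (rk W P)).orderEmbOfFin h0 j := by
    intro i j hij
    exact ((T.image (rk W P)).orderEmbOfFin h0).strictMono hij
  have l0 : 0 < T.card := by omega
  have l1 : 1 < T.card := by omega
  have l2 : 2 < T.card := by omega
  have l3 : 3 < T.card := by omega
  have l4 : 4 < T.card := by omega
  obtain ⟨p1, hp1, e1⟩ := hex ⟨0, l0⟩
  obtain ⟨p3, hp3, e3⟩ := hex ⟨2, l2⟩
  obtain ⟨p5, hp5, e5⟩ := hex ⟨4, l4⟩
  have k1 := hlt ⟨0, l0⟩ ⟨1, l1⟩ (by simp)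
  have k2 := hlt ⟨1, l1⟩ ⟨2, l2⟩ (by simp)
  have k3 := hlt ⟨2, l2⟩ ⟨3, l3⟩ (by simp)
  have k4 := hlt ⟨3, l3⟩ ⟨4, l4⟩ (by simp)
  obtain ⟨a1, a2, a3, a4, a5⟩ := hT p1 hp1
  obtain ⟨b1, b2, b3, b4, b5⟩ := hT p3 hp3
  obtain ⟨c1, c2, c3, c4, c5⟩ := hT p5 hp5
  apply b2
  have hw : ∀ q ∈ grp W P p3, a ≤ q.2 ∧ q.2 < a + L := by
    intro q hq
    obtain ⟨d1, d2, d3⟩ := (mem_grp P W p3 q).1 hq
    have f1 := (rk_le_iff P hP W a1 d1 (by rw [a3, d2, b3])).1 (by omega)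
    have f2 := (rk_le_iff P hP W d1 c1 (by rw [c3, d2, b3])).1 (by omega)
    omega
  intro q hq q' hq'
  have f1 := hw q hq
  have f2 := hw q' hq'
  omega

theorem long_sparse_inst {n : ℕ} (P : Finset (ℕ × ℕ)) (hP : PermSet n P) (W L : ℕ) (B a : ℕ)
    [DecidablePred (fun p : ℕ × ℕ => ¬ IsShort W L P p ∧ p.1 / W = B ∧ a ≤ p.2 ∧
      p.2 < a + L)] :
    (P.filter (fun p => ¬ IsShort W L P p ∧ p.1 / W = B ∧ a ≤ p.2 ∧ p.2 < a + L)).card ≤ 4 := by
  apply long_sparse_aux P hP W L B a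
  intro p hp
  exact Finset.mem_filter.1 hp

/-- The points of long groups are sparse. Proof: if `p1 < ... < p5` (by value) are points of a block in a
window of height `L`, then the group of `p3` has ranks in `[rk p3 - 2, rk p3 + 2]`, which is inside
`[rk p1, rk p5]`, so all its three points are in the window and the group is short. -/
theorem long_sparse {n : ℕ} (P : Finset (ℕ × ℕ)) (hP : PermSet n P) (W L : ℕ) (hW : 0 < W)
    (h3 : 3 ∣ W) (hWn : W ∣ n) (B a : ℕ) :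
    haveI := Classical.decPred (fun p : ℕ × ℕ => ¬ IsShort W L P p ∧ p.1 / W = B ∧ a ≤ p.2 ∧
      p.2 < a + L)
    (P.filter (fun p => ¬ IsShort W L P p ∧ p.1 / W = B ∧ a ≤ p.2 ∧ p.2 < a + L)).card ≤ 4 :=
  @long_sparse_inst n P hP W L B a (Classical.decPred (fun p : ℕ × ℕ => ¬ IsShort W L P p ∧
    p.1 / W = B ∧ a ≤ p.2 ∧ p.2 < a + L))

end Twn
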