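import Pool.Agent.Twn.GridMain
import Pool.Agent.Twn.Groups

/-!
# The core theorem for permutations of length `K ^ (15 u)`
-/

namespace Twn

section

variable {K u δ g k1 k2 el G e1 e2 e3 eH : ℕ}

lemma core_short (P : Par K u δ g k1 k2 el G e1 e2 e3 eH) {δ' : ℕ} (hδ : δ = 3 * δ')
    (hg : g = 2 * δ') (hG : g = G + 2) (h3 : 3 ∣ K) (hKu : 2160 * u ≤ K)
    (Q : Finset (ℕ × ℕ)) (hQ : PermSet (K ^ (15 * u)) Q)
    (hs : haveI := Classical.decPred (IsShort (K ^ e2 * K ^ (5 * u)) (K ^ e1 * K ^ (5 * u)) Q)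
      K ^ (15 * u) ≤ 4 * (Q.filter (IsShort (K ^ e2 * K ^ (5 * u)) (K ^ e1 * K ^ (5 * u)) Q)).card) :
    Tw Q ((K : ℝ) ^ (9 * u + G)) := by
  have h1 := P.h1
  have h2 := P.h2
  have hu := P.hu
  have hKr := P.hKr
  have hk1 : (1 : ℝ) ≤ K := by exact_mod_cast P.hK1
  have hk0 : (0 : ℝ) < K := by linarith
  obtain ⟨𝒢, hT, hsp, hcard⟩ := short_groups Q hQ (K ^ e2 * K ^ (5 * u)) (K ^ e1 * K ^ (5 * u))
    (Nat.mul_pos (P.pow_pos _) (P.pow_pos _))
    (Dvd.dvd.mul_left (dvd_trans h3 (dvd_pow_self K (by omega))) _)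
    (by rw [← pow_add]; exact pow_dvd_pow K (by omega))
  obtain ⟨v, hv⟩ : ∃ v, v + δ' = 3 * u := ⟨3 * u - δ', by omega⟩
  have hw := short_win Q hQ K (e1 + 5 * u) (K ^ e2 * K ^ (5 * u)) (2 * K ^ v)
    (le_trans (by norm_num) P.hK) (Nat.mul_pos (P.pow_pos _) (P.pow_pos _))
    (by
      have : e1 + 5 * u = 3 * v := by omega
      rw [this]
      calc 2 * K ^ (3 * v) ≤ 8 * K ^ (3 * v) := Nat.mul_le_mul_right _ (by norm_num)
        _ = (2 * K ^ v) ^ 3 := by ring)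
    𝒢 hT (by rw [pow_add]; exact hsp)
  obtain ⟨Z, hZ1, hZ2, hZ3⟩ := hw
  refine ⟨Z, hZ1, hZ2, le_trans ?_ hZ3⟩
  have h12 : (K : ℝ) ^ (15 * u) ≤ 12 * (𝒢.card : ℝ) := by
    have : K ^ (15 * u) ≤ 12 * 𝒢.card := by
      refine le_trans hs ?_
      omega
    exact_mod_cast this
  have hW : (((K ^ e2 * K ^ (5 * u) : ℕ) : ℝ) + ((2 * K ^ v : ℕ) : ℝ) ^ 2) =
      5 * (K : ℝ) ^ (e2 + 5 * u) := by
    push_cast
    have : e2 + 5 * u = 2 * v := by omega
    calc (K : ℝ) ^ e2 * (K : ℝ) ^ (5 * u) + (2 * (K : ℝ) ^ v) ^ 2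
        = (K : ℝ) ^ (e2 + 5 * u) + 4 * (K : ℝ) ^ (2 * v) := by ring
      _ = 5 * (K : ℝ) ^ (e2 + 5 * u) := by rw [this]; ring
  rw [hW]
  have hspos : 0 < e1 + 5 * u := by omega
  have hden : (0 : ℝ) < 4 * ((e1 + 5 * u : ℕ) : ℝ) * K * (5 * (K : ℝ) ^ (e2 + 5 * u)) := by
    have : (0 : ℝ) < ((e1 + 5 * u : ℕ) : ℝ) := by exact_mod_cast hspos
    positivity
  rw [le_div_iff₀ hden]
  have hsb : ((e1 + 5 * u : ℕ) : ℝ) * 240 ≤ K := by
    have : (e1 + 5 * u) * 240 ≤ K := by omega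
    exact_mod_cast this
  have : (K : ℝ) ^ (9 * u + G) * (4 * ((e1 + 5 * u : ℕ) : ℝ) * K *
      (5 * (K : ℝ) ^ (e2 + 5 * u))) * 12 ≤ (K : ℝ) ^ (15 * u) := by
    calc (K : ℝ) ^ (9 * u + G) * (4 * ((e1 + 5 * u : ℕ) : ℝ) * K *
          (5 * (K : ℝ) ^ (e2 + 5 * u))) * 12
        = (((e1 + 5 * u : ℕ) : ℝ) * 240) * (K : ℝ) ^ (9 * u + G + 1 + (e2 + 5 * u)) := by ring
      _ ≤ (K : ℝ) ^ (15 * u) := pow_absorb hsb hk1 (by omega)
  linarith

lemma long_sparse' {n : ℕ} (P : Finset (ℕ × ℕ)) (hP : PermSet n P) (W L : ℕ) (hW : 0 < W)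
    (h3 : 3 ∣ W) (hWn : W ∣ n) (B a : ℕ) (S : Finset (ℕ × ℕ))
    (hS : ∀ p ∈ S, p ∈ P ∧ ¬ IsShort W L P p ∧ p.1 / W = B ∧ a ≤ p.2 ∧ p.2 < a + L) :
    S.card ≤ 4 := by
  classical
  refine le_trans (Finset.card_le_card ?_) (long_sparse P hP W L hW h3 hWn B a)
  intro p hp
  simp only [Finset.mem_filter]
  exact hS p hp

theorem core (P : Par K u δ g k1 k2 el G e1 e2 e3 eH) {δ' : ℕ} (hδ : δ = 3 * δ')
    (hg : g = 2 * δ') (hG : g = G + 2) (h3 : 3 ∣ K) (hKu : 2160 * u ≤ K)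
    (Q : Finset (ℕ × ℕ)) (hQ : PermSet (K ^ (15 * u)) Q) :
    Tw Q ((K : ℝ) ^ (9 * u + G)) := by
  classical
  have h1 := P.h1
  have h2 := P.h2
  have hu := P.hu
  set W := K ^ e2 * K ^ (5 * u) with hW
  set L := K ^ e1 * K ^ (5 * u) with hL
  by_cases hs1 : K ^ (15 * u) ≤ 4 * (Q.filter (IsShort W L Q)).card
  · refine core_short P hδ hg hG h3 hKu Q hQ ?_
    convert hs1
  by_cases hs2 : K ^ (15 * u) ≤
      4 * ((Q.image Prod.swap).filter (IsShort W L (Q.image Prod.swap))).card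
  · refine Tw.swap (core_short P hδ hg hG h3 hKu (Q.image Prod.swap) hQ.swap ?_)
    convert hs2
  have hW0 : 0 < W := Nat.mul_pos (P.pow_pos _) (P.pow_pos _)
  have hW3 : 3 ∣ W := Dvd.dvd.mul_left (dvd_trans h3 (dvd_pow_self K (by omega))) _
  have hWn : W ∣ K ^ (15 * u) := by
    rw [hW, ← pow_add]
    exact pow_dvd_pow K (by omega)
  set P0 := Q.filter (fun p => ¬ IsShort W L Q p ∧ ¬ IsShort W L (Q.image Prod.swap) p.swap)
    with hP0
  have hcardP0 : K ^ (15 * u) ≤ 2 * P0.card := by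
    have hc : Q.card ≤ P0.card + (Q.filter (IsShort W L Q)).card +
        ((Q.image Prod.swap).filter (IsShort W L (Q.image Prod.swap))).card := by
      have e : ((Q.image Prod.swap).filter (IsShort W L (Q.image Prod.swap))).card =
          (Q.filter (fun p => IsShort W L (Q.image Prod.swap) p.swap)).card :=
        swap_filter_card Q _ _ (fun x => Iff.rfl)
      rw [e]
      refine le_trans (Finset.card_le_card (t := (P0 ∪ Q.filter (IsShort W L Q)) ∪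
        Q.filter (fun p => IsShort W L (Q.image Prod.swap) p.swap)) ?_) ?_
      · intro p hp
        simp only [Finset.mem_union, hP0, Finset.mem_filter]
        by_cases h1 : IsShort W L Q p
        · exact Or.inl (Or.inr ⟨hp, h1⟩)
        · by_cases h2 : IsShort W L (Q.image Prod.swap) p.swap
          · exact Or.inr ⟨hp, h2⟩
          · exact Or.inl (Or.inl ⟨hp, h1, h2⟩)
      · refine le_trans (Finset.card_union_le _ _) (Nat.add_le_add_right ?_ _)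
        exact Finset.card_union_le _ _
    have hQc : Q.card = K ^ (15 * u) := hQ.1
    omega
  have hn : K ^ (15 * u) = K ^ (u + δ) * (K ^ (5 * u) * K ^ e1) * K ^ (5 * u) := by
    rw [← pow_add, ← pow_add, ← pow_add]
    congr 1
    omega
  obtain ⟨Γ, hΓ, hΓc, hΓt⟩ := grid_of (K ^ (5 * u)) (K ^ e1) (K ^ (u + δ)) (K ^ e2) (K ^ (15 * u))
    (P.pow_pos _) (P.pow_pos _) (P.pow_pos _) Q hQ hn P0 (Finset.filter_subset _ _)
    (by
      intro B a
      refine long_sparse' Q hQ W L hW0 hW3 hWn B a _ ?_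
      intro p hp
      rw [Finset.mem_filter] at hp
      have hp1 := Finset.mem_filter.mp hp.1
      exact ⟨hp1.1, hp1.2.1, hp.2⟩)
    (by
      intro B a
      rw [← Finset.card_image_of_injective _ Prod.swap_injective]
      refine long_sparse' (Q.image Prod.swap) hQ.swap W L hW0 hW3 hWn B a _ ?_
      intro p hp
      obtain ⟨q, hq, rfl⟩ := Finset.mem_image.mp hp
      rw [Finset.mem_filter] at hq
      have hp1 := Finset.mem_filter.mp hq.1
      exact ⟨Finset.mem_image_of_mem _ hp1.1, hp1.2.2, hq.2⟩)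
  exact hΓt _ (grid_main P Γ hΓ (by omega))

end

end Twn
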