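import Pool.Agent.Twn.Basic

/-!
# Maximal families of disjoint common chains

Strong induction on the number of labels: if some `T ⊆ LL` with `T.card = l` is a common chain, use it as
chain number `0` and continue with `LL \ T`, shifting the numbers by one.
-/

namespace Twn

theorem chain_cover (l : ℕ) (hl : 0 < l) (f f' : ℕ → ℕ) (LL : Finset ℕ) :
    ∃ W ⊆ LL, ∃ idx : ℕ → ℕ, (∀ J ∈ W, (idx J + 1) * l ≤ LL.card) ∧
      (∀ J ∈ W, ∀ J' ∈ W, idx J = idx J' → (f J < f J' ↔ f' J < f' J')) ∧
      (∀ T ⊆ LL \ W, T.card = l → ¬ (∀ J ∈ T, ∀ J' ∈ T, (f J < f J' ↔ f' J < f' J'))) := by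
  classical
  induction hn : LL.card using Nat.strong_induction_on generalizing LL with
  | _ n ih =>
    by_cases hex : ∃ T ⊆ LL, T.card = l ∧ ∀ J ∈ T, ∀ J' ∈ T, (f J < f J' ↔ f' J < f' J')
    · obtain ⟨T, hT, hTl, hTc⟩ := hex
      have hcard : (LL \ T).card = n - l := by
        rw [Finset.card_sdiff_of_subset hT, hTl, hn]
      have hle : l ≤ n := by
        rw [← hTl, ← hn]
        exact Finset.card_le_card hT
      obtain ⟨W, hW, idx, h1, h2, h3⟩ := ih (n - l) (by omega) (LL \ T) hcard
      have hWT : ∀ J ∈ W, J ∉ T := fun J hJ => (Finset.mem_sdiff.1 (hW hJ)).2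
      refine ⟨T ∪ W, ?_, fun J => if J ∈ T then 0 else idx J + 1, ?_, ?_, ?_⟩
      · exact Finset.union_subset hT (hW.trans Finset.sdiff_subset)
      · intro J hJ
        by_cases hJT : J ∈ T
        · simp only [hJT, if_true]
          omega
        · have hJW : J ∈ W := (Finset.mem_union.1 hJ).resolve_left hJT
          have h4 := h1 J hJW
          simp only [hJT, if_false]
          have h5 : (idx J + 1 + 1) * l = (idx J + 1) * l + l := by ring
          omega
      · intro J hJ J' hJ' h4
        by_cases hJT : J ∈ T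
        · by_cases hJT' : J' ∈ T
          · exact hTc J hJT J' hJT'
          · simp [hJT, hJT'] at h4
        · by_cases hJT' : J' ∈ T
          · simp [hJT, hJT'] at h4
          · simp only [hJT, hJT', if_false, Nat.add_right_cancel_iff] at h4
            exact h2 J ((Finset.mem_union.1 hJ).resolve_left hJT) J'
              ((Finset.mem_union.1 hJ').resolve_left hJT') h4
      · intro T' hT' hT'l
        refine h3 T' ?_ hT'l
        intro J hJ
        have h4 := hT' hJ
        rw [Finset.mem_sdiff, Finset.mem_union, not_or] at h4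
        rw [Finset.mem_sdiff, Finset.mem_sdiff]
        exact ⟨⟨h4.1, h4.2.1⟩, h4.2.2⟩
    · refine ⟨∅, Finset.empty_subset _, fun _ => 0, by simp, by simp, ?_⟩
      intro T hT hTl hc
      rw [Finset.sdiff_empty] at hT
      exact hex ⟨T, hT, hTl, hc⟩

end Twn
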