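import Pool.Agent.Twn.Basic

/-!
# From order-consistent pairs of points to a twin

Let `Z` be order-consistent with `3 k ≤ Z.card`. All first points are different and all second points
are different. Take a maximal subset `Z' ⊆ Z` such that no first point of `Z'` is a second point of
`Z'`; every pair of `Z` is in `Z'` or its first point is a second point of `Z'` or its second point is
a first point of `Z'`, hence `Z.card ≤ 3 * Z'.card`. Sort `k` pairs of `Z'` by the column of the first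
point.
-/

namespace Twn

theorem disj_max {n : ℕ} (Y : Finset (Fin n × Fin n)) (h1 : ∀ e ∈ Y, e.1 ≠ e.2)
    (h2 : ∀ e ∈ Y, ∀ f ∈ Y, e.1 < f.1 ↔ e.2 < f.2) :
    ∃ T ⊆ Y, (∀ e ∈ T, ∀ f ∈ T, e.1 ≠ f.2) ∧ Y.card ≤ 3 * T.card := by
  classical
  have hinj1 : ∀ e ∈ Y, ∀ f ∈ Y, e.1 = f.1 → e = f := by
    intro e he f hf h
    have h3 := h2 e he f hf
    have h4 := h2 f hf e he
    rw [h] at h3 h4
    have h5 : ¬ e.2 < f.2 := fun h6 => lt_irrefl _ (h3.2 h6)
    have h6 : ¬ f.2 < e.2 := fun h6 => lt_irrefl _ (h4.2 h6)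
    exact Prod.ext h (le_antisymm (not_lt.1 h6) (not_lt.1 h5))
  have hinj2 : ∀ e ∈ Y, ∀ f ∈ Y, e.2 = f.2 → e = f := by
    intro e he f hf h
    have h3 := h2 e he f hf
    have h4 := h2 f hf e he
    rw [h] at h3 h4
    have h5 : ¬ e.1 < f.1 := fun h6 => lt_irrefl _ (h3.1 h6)
    have h6 : ¬ f.1 < e.1 := fun h6 => lt_irrefl _ (h4.1 h6)
    exact Prod.ext (le_antisymm (not_lt.1 h6) (not_lt.1 h5)) h
  obtain ⟨T, hT, hmax⟩ := Finset.exists_max_image
    (Y.powerset.filter (fun T => ∀ e ∈ T, ∀ f ∈ T, e.1 ≠ f.2)) Finset.card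
    ⟨∅, by simp⟩
  rw [Finset.mem_filter, Finset.mem_powerset] at hT
  refine ⟨T, hT.1, hT.2, ?_⟩
  have hsub : Y ⊆ T ∪ (Y.filter (fun e => e.1 ∈ T.image Prod.snd) ∪
      Y.filter (fun e => e.2 ∈ T.image Prod.fst)) := by
    intro e he
    by_contra hcon
    rw [Finset.mem_union, Finset.mem_union, Finset.mem_filter, Finset.mem_filter] at hcon
    push Not at hcon
    obtain ⟨hc1, hc2, hc3⟩ := hcon
    have hc2' := hc2 he
    have hc3' := hc3 he
    have h3 : insert e T ∈ Y.powerset.filter (fun T => ∀ e ∈ T, ∀ f ∈ T, e.1 ≠ f.2) := by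
      rw [Finset.mem_filter, Finset.mem_powerset]
      refine ⟨Finset.insert_subset he hT.1, ?_⟩
      intro a ha b hb hab
      rw [Finset.mem_insert] at ha hb
      rcases ha with rfl | ha
      · rcases hb with rfl | hb
        · exact h1 _ he hab
        · exact hc2' (Finset.mem_image.2 ⟨b, hb, hab.symm⟩)
      · rcases hb with rfl | hb
        · exact hc3' (Finset.mem_image.2 ⟨a, ha, hab⟩)
        · exact hT.2 a ha b hb hab
    have h4 := hmax _ h3
    rw [Finset.card_insert_of_notMem hc1] at h4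
    omega
  have hA : (Y.filter (fun e => e.1 ∈ T.image Prod.snd)).card ≤ T.card := by
    refine le_trans (Finset.card_le_card_of_injOn (fun e => e.1) ?_ ?_)
      (Finset.card_image_le (s := T) (f := Prod.snd))
    · intro e he
      exact (Finset.mem_filter.1 he).2
    · intro e he f hf h
      exact hinj1 e (Finset.mem_filter.1 he).1 f (Finset.mem_filter.1 hf).1 h
  have hB : (Y.filter (fun e => e.2 ∈ T.image Prod.fst)).card ≤ T.card := by
    refine le_trans (Finset.card_le_card_of_injOn (fun e => e.2) ?_ ?_)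
      (Finset.card_image_le (s := T) (f := Prod.fst))
    · intro e he
      exact (Finset.mem_filter.1 he).2
    · intro e he f hf h
      exact hinj2 e (Finset.mem_filter.1 he).1 f (Finset.mem_filter.1 hf).1 h
  have h5 := Finset.card_le_card hsub
  have h6 := Finset.card_union_le T (Y.filter (fun e => e.1 ∈ T.image Prod.snd) ∪
      Y.filter (fun e => e.2 ∈ T.image Prod.fst))
  have h7 := Finset.card_union_le (Y.filter (fun e => e.1 ∈ T.image Prod.snd))
      (Y.filter (fun e => e.2 ∈ T.image Prod.fst))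
  omega

theorem disj_twin {n : ℕ} (σ : Equiv.Perm (Fin n)) (P : Finset (ℕ × ℕ))
    (hP : P = Finset.univ.image (fun i : Fin n => ((i : ℕ), (σ i : ℕ)))) (k : ℕ)
    (h : Tw P ((3 * k : ℕ) : ℝ)) :
    ∃ f g : Fin k ↪o Fin n, (∀ i j, f i ≠ g j) ∧
      ∀ i j, (σ (f i) < σ (f j) ↔ σ (g i) < σ (g j)) := by
  classical
  obtain ⟨Z, hOC, hZ, hk⟩ := h
  have hk' : 3 * k ≤ Z.card := by exact_mod_cast hk
  let φ : Fin n × Fin n → (ℕ × ℕ) × (ℕ × ℕ) := fun e =>
    (((e.1 : ℕ), (σ e.1 : ℕ)), ((e.2 : ℕ), (σ e.2 : ℕ)))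
  let Y : Finset (Fin n × Fin n) := Finset.univ.filter (fun e => φ e ∈ Z)
  have hmem : ∀ e, e ∈ Y ↔ φ e ∈ Z := fun e => by simp [Y]
  have hcard : Z.card ≤ Y.card := by
    refine le_trans (Finset.card_le_card ?_) (Finset.card_image_le (s := Y) (f := φ))
    intro e he
    obtain ⟨h1, h2, h3⟩ := hZ e he
    rw [hP, Finset.mem_image] at h1 h2
    obtain ⟨a, -, ha⟩ := h1
    obtain ⟨b, -, hb⟩ := h2
    have hab : φ (a, b) = e := Prod.ext ha hb
    rw [Finset.mem_image]
    refine ⟨(a, b), ?_, hab⟩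
    rw [hmem, hab]
    exact he
  have h1 : ∀ e ∈ Y, e.1 ≠ e.2 := by
    intro e he heq
    rw [hmem] at he
    apply (hZ _ he).2.2
    change ((e.1 : ℕ), (σ e.1 : ℕ)) = ((e.2 : ℕ), (σ e.2 : ℕ))
    rw [heq]
  have h2 : ∀ e ∈ Y, ∀ f ∈ Y, e.1 < f.1 ↔ e.2 < f.2 := by
    intro e he f hf
    rw [hmem] at he hf
    exact (hOC _ he _ hf).1
  have h3 : ∀ e ∈ Y, ∀ f ∈ Y, σ e.1 < σ f.1 ↔ σ e.2 < σ f.2 := by
    intro e he f hf
    rw [hmem] at he hf
    exact (hOC _ he _ hf).2
  obtain ⟨T, hTY, hT, hTc⟩ := disj_max Y h1 h2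
  have hkT : k ≤ T.card := by omega
  obtain ⟨U, hUT, hU⟩ := Finset.exists_subset_card_eq hkT
  have hUY : ∀ e ∈ U, e ∈ Y := fun e he => hTY (hUT he)
  have hinj : Set.InjOn Prod.fst (U : Set (Fin n × Fin n)) := by
    intro e he f hf h
    have h4 := h2 e (hUY e he) f (hUY f hf)
    have h5 := h2 f (hUY f hf) e (hUY e he)
    change e.1 = f.1 at h
    rw [h] at h4 h5
    have h6 : ¬ e.2 < f.2 := fun h6 => lt_irrefl _ (h4.2 h6)
    have h7 : ¬ f.2 < e.2 := fun h6 => lt_irrefl _ (h5.2 h6)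
    exact Prod.ext h (le_antisymm (not_lt.1 h7) (not_lt.1 h6))
  have hI : (U.image Prod.fst).card = k := by
    rw [Finset.card_image_of_injOn hinj, hU]
  let f := (U.image Prod.fst).orderEmbOfFin hI
  have hf : ∀ m, ∃ e ∈ U, e.1 = f m := by
    intro m
    have h4 := Finset.orderEmbOfFin_mem (U.image Prod.fst) hI m
    rw [Finset.mem_image] at h4
    exact h4
  choose e heU hef using hf
  have hg : StrictMono (fun m => (e m).2) := by
    intro m m' hm
    have h4 : (e m).1 < (e m').1 := by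
      rw [hef, hef]
      exact f.strictMono hm
    exact (h2 _ (hUY _ (heU m)) _ (hUY _ (heU m'))).1 h4
  refine ⟨f, OrderEmbedding.ofStrictMono _ hg, ?_, ?_⟩
  · intro i j
    change f i ≠ (e j).2
    rw [← hef i]
    exact hT _ (hUT (heU i)) _ (hUT (heU j))
  · intro i j
    change σ (f i) < σ (f j) ↔ σ (e i).2 < σ (e j).2
    rw [← hef i, ← hef j]
    exact h3 _ (hUY _ (heU i)) _ (hUY _ (heU j))

end Twn
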