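import Pool.Agent.Twn.Basic

/-!
# The engine: second moment and greedy choice

`Ω = Ωc × Ωr`, uniform. `E ω` = set of the `e ∈ Good` with `Rc ω.1 e.1.1 e.2.1` and
`Rr ω.2 e.1.2 e.2.2`. Two different edges of `E ω` are in conflict if they have the same first column or
the same first row (by monotonicity then also the same second column resp. row; both together would force
equality). `∑_ω ∑_{e ∈ E ω} X_e(ω) ≤ (κc + κr) ∑_ω |E ω|` where `X_e` = number of conflicts, so for some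
`ω` at least half of the average number of edges have `X_e ≤ 2 (κc + κr)`; a maximal conflict free
subset of these edges is `Z`.
-/

namespace Twn

/-- greedy choice of an independent set -/
theorem eng_greedy {α : Type} [DecidableEq α] (E : Finset α) (cf : α → α → Prop)
    [DecidableRel cf] (hsymm : ∀ x y, cf x y → cf y x) (D : ℝ) (E' : Finset α) (hE : E' ⊆ E)
    (hD : ∀ e ∈ E', ((E.filter fun f => f ≠ e ∧ cf e f).card : ℝ) ≤ D) :
    ∃ Z : Finset α, Z ⊆ E' ∧ (∀ x ∈ Z, ∀ y ∈ Z, x ≠ y → ¬ cf x y) ∧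
      (E'.card : ℝ) ≤ (1 + D) * Z.card := by
  obtain ⟨p, hp⟩ : ∃ p : Finset α → Prop, ∀ Z, p Z ↔ ∀ x ∈ Z, ∀ y ∈ Z, x ≠ y → ¬ cf x y :=
    ⟨_, fun _ => Iff.rfl⟩
  have hdec : DecidablePred p := Classical.decPred p
  obtain ⟨Z, hZ, hmax⟩ := Finset.exists_max_image (E'.powerset.filter p) Finset.card
    ⟨∅, by
      rw [Finset.mem_filter, Finset.mem_powerset, hp]
      exact ⟨Finset.empty_subset _, by simp⟩⟩
  rw [Finset.mem_filter, Finset.mem_powerset, hp] at hZ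
  refine ⟨Z, hZ.1, hZ.2, ?_⟩
  have hcov : E' ⊆ Z.biUnion fun z => insert z (E.filter fun f => f ≠ z ∧ cf z f) := by
    intro e he
    rw [Finset.mem_biUnion]
    by_cases heZ : e ∈ Z
    · exact ⟨e, heZ, Finset.mem_insert_self _ _⟩
    · by_contra hcon
      push Not at hcon
      have h1 : insert e Z ∈ E'.powerset.filter p := by
        rw [Finset.mem_filter, Finset.mem_powerset, hp]
        refine ⟨Finset.insert_subset he hZ.1, ?_⟩
        have key : ∀ z ∈ Z, ¬ cf z e := by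
          intro z hz hc
          apply hcon z hz
          rw [Finset.mem_insert, Finset.mem_filter]
          refine Or.inr ⟨hE he, ?_, hc⟩
          rintro rfl
          exact heZ hz
        intro x hx y hy hxy
        rw [Finset.mem_insert] at hx hy
        rcases hx with rfl | hx
        · rcases hy with rfl | hy
          · exact absurd rfl hxy
          · exact fun h => key y hy (hsymm _ _ h)
        · rcases hy with rfl | hy
          · exact key x hx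
          · exact hZ.2 x hx y hy hxy
      have h2 := hmax _ h1
      rw [Finset.card_insert_of_notMem heZ] at h2
      omega
  have h1 : E'.card ≤ ∑ z ∈ Z, (1 + (E.filter fun f => f ≠ z ∧ cf z f).card) := by
    refine (Finset.card_le_card hcov).trans (Finset.card_biUnion_le.trans ?_)
    refine Finset.sum_le_sum fun z _ => ?_
    refine (Finset.card_insert_le _ _).trans ?_
    omega
  calc (E'.card : ℝ) ≤ ∑ z ∈ Z, ((1 : ℝ) + (E.filter fun f => f ≠ z ∧ cf z f).card) := by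
        have h2 : (E'.card : ℝ) ≤
            ((∑ z ∈ Z, (1 + (E.filter fun f => f ≠ z ∧ cf z f).card) : ℕ) : ℝ) := by
          exact_mod_cast h1
        push_cast at h2
        exact h2
    _ ≤ ∑ z ∈ Z, ((1 : ℝ) + D) :=
        Finset.sum_le_sum fun z hz => by linarith [hD z (hZ.1 hz)]
    _ = (1 + D) * Z.card := by rw [Finset.sum_const, nsmul_eq_mul, mul_comm]

theorem eng_pr {Ω : Type} [Fintype Ω] [Nonempty Ω] (p : Ω → Prop) [DecidablePred p] :
    ∑ ω, (if p ω then (1 : ℝ) else 0) = Fintype.card Ω * Pr p := by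
  unfold Pr
  have h : (Fintype.card Ω : ℝ) ≠ 0 := by
    exact_mod_cast Fintype.card_ne_zero
  rw [mul_div_cancel₀ _ h, Finset.sum_boole]
  congr!

theorem engine {Ωc Ωr : Type} [Fintype Ωc] [Fintype Ωr] [Nonempty Ωc] [Nonempty Ωr]
    (Rc : Ωc → ℕ → ℕ → Prop) (Rr : Ωr → ℕ → ℕ → Prop) (Γ : Finset (ℕ × ℕ))
    (hmc : ∀ ω, ∀ e ∈ Γ, ∀ e' ∈ Γ, ∀ f ∈ Γ, ∀ f' ∈ Γ, Rc ω e.1 e'.1 → Rc ω f.1 f'.1 →
      (e.1 < f.1 ↔ e'.1 < f'.1))
    (hmr : ∀ ω, ∀ e ∈ Γ, ∀ e' ∈ Γ, ∀ f ∈ Γ, ∀ f' ∈ Γ, Rr ω e.2 e'.2 → Rr ω f.2 f'.2 →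
      (e.2 < f.2 ↔ e'.2 < f'.2))
    (κc κr pc pr : ℝ) (hκc : 0 ≤ κc) (hκr : 0 ≤ κr) (hpc : 0 ≤ pc) (hpr : 0 ≤ pr)
    (hc : ∀ g ∈ Γ, ∀ g' ∈ Γ, ∑ c₂ ∈ (rowOf Γ g.2).erase g.1, ∑ c₂' ∈ rowOf Γ g'.2,
      Pr (fun ω => Rc ω g.1 g'.1 ∧ Rc ω c₂ c₂') ≤ κc * Pr (fun ω => Rc ω g.1 g'.1))
    (hr : ∀ g ∈ Γ, ∀ g' ∈ Γ, ∑ r₂ ∈ (colOf Γ g.1).erase g.2, ∑ r₂' ∈ colOf Γ g'.1,
      Pr (fun ω => Rr ω g.2 g'.2 ∧ Rr ω r₂ r₂') ≤ κr * Pr (fun ω => Rr ω g.2 g'.2))
    (Good : Finset ((ℕ × ℕ) × (ℕ × ℕ)))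
    (hG : ∀ e ∈ Good, e.1 ∈ Γ ∧ e.2 ∈ Γ ∧ e.1 ≠ e.2 ∧ pc ≤ Pr (fun ω => Rc ω e.1.1 e.2.1) ∧
      pr ≤ Pr (fun ω => Rr ω e.1.2 e.2.2)) :
    GTw Γ (Good.card * pc * pr / (2 * (1 + 2 * (κc + κr)))) := by
  classical
  -- the random edge set and the number of conflicts
  set E : Ωc × Ωr → Finset ((ℕ × ℕ) × (ℕ × ℕ)) := fun ω =>
    Good.filter fun e => Rc ω.1 e.1.1 e.2.1 ∧ Rr ω.2 e.1.2 e.2.2 with hEdef
  set cf : ((ℕ × ℕ) × (ℕ × ℕ)) → ((ℕ × ℕ) × (ℕ × ℕ)) → Prop := fun e f =>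
    e.1.1 = f.1.1 ∨ e.1.2 = f.1.2 with hcf
  set X : Ωc × Ωr → ((ℕ × ℕ) × (ℕ × ℕ)) → ℕ := fun ω e =>
    ((E ω).filter fun f => f ≠ e ∧ cf e f).card with hX
  set κ : ℝ := κc + κr with hκ
  have hκ0 : 0 ≤ κ := add_nonneg hκc hκr
  have hmem : ∀ ω e, e ∈ E ω ↔ e ∈ Good ∧ Rc ω.1 e.1.1 e.2.1 ∧ Rr ω.2 e.1.2 e.2.2 := by
    intro ω e
    rw [hEdef]
    exact Finset.mem_filter
  have eqc : ∀ ω, ∀ e ∈ E ω, ∀ f ∈ E ω, e.1.1 = f.1.1 → e.2.1 = f.2.1 := by
    intro ω e he f hf h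
    rw [hmem] at he hf
    have h1 := hmc ω.1 e.1 (hG e he.1).1 e.2 (hG e he.1).2.1 f.1 (hG f hf.1).1 f.2
      (hG f hf.1).2.1 he.2.1 hf.2.1
    have h2 := hmc ω.1 f.1 (hG f hf.1).1 f.2 (hG f hf.1).2.1 e.1 (hG e he.1).1 e.2
      (hG e he.1).2.1 hf.2.1 he.2.1
    omega
  have eqr : ∀ ω, ∀ e ∈ E ω, ∀ f ∈ E ω, e.1.2 = f.1.2 → e.2.2 = f.2.2 := by
    intro ω e he f hf h
    rw [hmem] at he hf
    have h1 := hmr ω.2 e.1 (hG e he.1).1 e.2 (hG e he.1).2.1 f.1 (hG f hf.1).1 f.2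
      (hG f hf.1).2.1 he.2.2 hf.2.2
    have h2 := hmr ω.2 f.1 (hG f hf.1).1 f.2 (hG f hf.1).2.1 e.1 (hG e he.1).1 e.2
      (hG e he.1).2.1 hf.2.2 he.2.2
    omega
  -- total number of edges
  set T : ℝ := ∑ ω : Ωc × Ωr, ((E ω).card : ℝ) with hT
  have hcardE : ∀ ω, ((E ω).card : ℝ) = ∑ e ∈ Good,
      (if Rc ω.1 e.1.1 e.2.1 then (1 : ℝ) else 0) * (if Rr ω.2 e.1.2 e.2.2 then (1 : ℝ) else 0) := by
    intro ω
    rw [hEdef]
    simp only
    rw [Finset.card_filter]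
    push_cast
    refine Finset.sum_congr rfl fun e _ => ?_
    by_cases h1 : Rc ω.1 e.1.1 e.2.1 <;> by_cases h2 : Rr ω.2 e.1.2 e.2.2 <;> simp [h1, h2]
  have hTe : T = ∑ e ∈ Good, (Fintype.card Ωc * Pr (fun ω => Rc ω e.1.1 e.2.1)) *
      (Fintype.card Ωr * Pr (fun ω => Rr ω e.1.2 e.2.2)) := by
    rw [hT]
    simp only [hcardE]
    rw [Finset.sum_comm]
    refine Finset.sum_congr rfl fun e _ => ?_
    rw [← eng_pr (fun ω => Rc ω e.1.1 e.2.1), ← eng_pr (fun ω => Rr ω e.1.2 e.2.2),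
      Finset.sum_mul_sum, ← Finset.univ_product_univ, Finset.sum_product]
  have hcc : (0 : ℝ) < Fintype.card Ωc := by exact_mod_cast Fintype.card_pos
  have hcr : (0 : ℝ) < Fintype.card Ωr := by exact_mod_cast Fintype.card_pos
  have hTlow : Good.card * pc * pr * (Fintype.card Ωc * Fintype.card Ωr) ≤ T := by
    rw [hTe]
    calc Good.card * pc * pr * (Fintype.card Ωc * Fintype.card Ωr)
        = ∑ e ∈ Good, (Fintype.card Ωc * pc) * (Fintype.card Ωr * pr) := by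
          rw [Finset.sum_const, nsmul_eq_mul]
          ring
      _ ≤ _ := by
          refine Finset.sum_le_sum fun e he => ?_
          obtain ⟨-, -, -, h1, h2⟩ := hG e he
          refine mul_le_mul (mul_le_mul_of_nonneg_left h1 hcc.le)
            (mul_le_mul_of_nonneg_left h2 hcr.le) (by positivity) ?_
          exact mul_nonneg hcc.le (hpc.trans h1)
  -- conflicts
  have hXle : ∀ ω, ∀ e ∈ E ω, (X ω e : ℝ) ≤
      (∑ r₂ ∈ (colOf Γ e.1.1).erase e.1.2, ∑ r₂' ∈ colOf Γ e.2.1,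
        (if Rr ω.2 r₂ r₂' then (1 : ℝ) else 0)) +
      (∑ c₂ ∈ (rowOf Γ e.1.2).erase e.1.1, ∑ c₂' ∈ rowOf Γ e.2.2,
        (if Rc ω.1 c₂ c₂' then (1 : ℝ) else 0)) := by
    intro ω e he
    have he' := (hmem ω e).1 he
    have hs1 : ((E ω).filter fun f => f ≠ e ∧ cf e f) ⊆
        ((E ω).filter fun f => f ≠ e ∧ e.1.1 = f.1.1) ∪
        ((E ω).filter fun f => f ≠ e ∧ e.1.2 = f.1.2) := by
      intro f hf
      have hf' := Finset.mem_filter.1 hf
      refine Finset.mem_union.2 ?_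
      rcases hf'.2.2 with h | h
      · exact Or.inl (Finset.mem_filter.2 ⟨hf'.1, hf'.2.1, h⟩)
      · exact Or.inr (Finset.mem_filter.2 ⟨hf'.1, hf'.2.1, h⟩)
    have hA : ((E ω).filter fun f => f ≠ e ∧ e.1.1 = f.1.1).card ≤
        ((((colOf Γ e.1.1).erase e.1.2) ×ˢ (colOf Γ e.2.1)).filter
          fun z => Rr ω.2 z.1 z.2).card := by
      refine Finset.card_le_card_of_injOn (fun f => (f.1.2, f.2.2)) ?_ ?_
      · intro f hf
        rw [Finset.mem_coe, Finset.mem_filter] at hf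
        obtain ⟨hfE, hfe, h1⟩ := hf
        have hf' := (hmem ω f).1 hfE
        have h2 := eqc ω e he f hfE h1
        rw [Finset.mem_coe, Finset.mem_filter, Finset.mem_product, Finset.mem_erase]
        refine ⟨⟨⟨?_, ?_⟩, ?_⟩, hf'.2.2⟩
        · intro h3
          have h3' : f.1.2 = e.1.2 := h3
          apply hfe
          have h4 := eqr ω e he f hfE h3'.symm
          exact Prod.ext (Prod.ext h1.symm h3') (Prod.ext h2.symm h4.symm)
        · unfold colOf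
          rw [Finset.mem_image]
          exact ⟨f.1, Finset.mem_filter.2 ⟨(hG f hf'.1).1, h1.symm⟩, rfl⟩
        · unfold colOf
          rw [Finset.mem_image]
          exact ⟨f.2, Finset.mem_filter.2 ⟨(hG f hf'.1).2.1, h2.symm⟩, rfl⟩
      · intro f hf f' hf' hff
        rw [Finset.mem_coe, Finset.mem_filter] at hf hf'
        have h2 := eqc ω e he f hf.1 hf.2.2
        have h2' := eqc ω e he f' hf'.1 hf'.2.2
        simp only [Prod.mk.injEq] at hff
        exact Prod.ext (Prod.ext (hf.2.2.symm.trans hf'.2.2) hff.1)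
          (Prod.ext (h2.symm.trans h2') hff.2)
    have hB : ((E ω).filter fun f => f ≠ e ∧ e.1.2 = f.1.2).card ≤
        ((((rowOf Γ e.1.2).erase e.1.1) ×ˢ (rowOf Γ e.2.2)).filter
          fun z => Rc ω.1 z.1 z.2).card := by
      refine Finset.card_le_card_of_injOn (fun f => (f.1.1, f.2.1)) ?_ ?_
      · intro f hf
        rw [Finset.mem_coe, Finset.mem_filter] at hf
        obtain ⟨hfE, hfe, h1⟩ := hf
        have hf' := (hmem ω f).1 hfE
        have h2 := eqr ω e he f hfE h1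
        rw [Finset.mem_coe, Finset.mem_filter, Finset.mem_product, Finset.mem_erase]
        refine ⟨⟨⟨?_, ?_⟩, ?_⟩, hf'.2.1⟩
        · intro h3
          have h3' : f.1.1 = e.1.1 := h3
          apply hfe
          have h4 := eqc ω e he f hfE h3'.symm
          exact Prod.ext (Prod.ext h3' h1.symm) (Prod.ext h4.symm h2.symm)
        · unfold rowOf
          rw [Finset.mem_image]
          exact ⟨f.1, Finset.mem_filter.2 ⟨(hG f hf'.1).1, h1.symm⟩, rfl⟩
        · unfold rowOf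
          rw [Finset.mem_image]
          exact ⟨f.2, Finset.mem_filter.2 ⟨(hG f hf'.1).2.1, h2.symm⟩, rfl⟩
      · intro f hf f' hf' hff
        rw [Finset.mem_coe, Finset.mem_filter] at hf hf'
        have h2 := eqr ω e he f hf.1 hf.2.2
        have h2' := eqr ω e he f' hf'.1 hf'.2.2
        simp only [Prod.mk.injEq] at hff
        exact Prod.ext (Prod.ext hff.1 (hf.2.2.symm.trans hf'.2.2))
          (Prod.ext hff.2 (h2.symm.trans h2'))
    have hC : X ω e ≤ ((((colOf Γ e.1.1).erase e.1.2) ×ˢ (colOf Γ e.2.1)).filter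
          fun z => Rr ω.2 z.1 z.2).card + ((((rowOf Γ e.1.2).erase e.1.1) ×ˢ
          (rowOf Γ e.2.2)).filter fun z => Rc ω.1 z.1 z.2).card :=
      (Finset.card_le_card hs1).trans ((Finset.card_union_le _ _).trans (add_le_add hA hB))
    have hD : (X ω e : ℝ) ≤ (((((colOf Γ e.1.1).erase e.1.2) ×ˢ (colOf Γ e.2.1)).filter
          fun z => Rr ω.2 z.1 z.2).card : ℝ) + ((((rowOf Γ e.1.2).erase e.1.1) ×ˢ
          (rowOf Γ e.2.2)).filter fun z => Rc ω.1 z.1 z.2).card := by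
      exact_mod_cast hC
    refine hD.trans (le_of_eq ?_)
    rw [Finset.card_filter, Finset.card_filter]
    push_cast
    rw [Finset.sum_product, Finset.sum_product]
  -- sum of conflicts
  have hsum : ∑ ω : Ωc × Ωr, ∑ e ∈ E ω, (X ω e : ℝ) ≤ κ * T := by
    have h1 : ∀ ω : Ωc × Ωr, ∑ e ∈ E ω, (X ω e : ℝ) ≤ ∑ e ∈ Good,
        ((if Rc ω.1 e.1.1 e.2.1 then (1 : ℝ) else 0) *
          (∑ r₂ ∈ (colOf Γ e.1.1).erase e.1.2, ∑ r₂' ∈ colOf Γ e.2.1,
            (if Rr ω.2 e.1.2 e.2.2 ∧ Rr ω.2 r₂ r₂' then (1 : ℝ) else 0)) +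
        (∑ c₂ ∈ (rowOf Γ e.1.2).erase e.1.1, ∑ c₂' ∈ rowOf Γ e.2.2,
            (if Rc ω.1 e.1.1 e.2.1 ∧ Rc ω.1 c₂ c₂' then (1 : ℝ) else 0)) *
          (if Rr ω.2 e.1.2 e.2.2 then (1 : ℝ) else 0)) := by
      intro ω
      have h2 : E ω = Good.filter fun e => Rc ω.1 e.1.1 e.2.1 ∧ Rr ω.2 e.1.2 e.2.2 := rfl
      refine (Finset.sum_le_sum (hXle ω)).trans ?_
      rw [h2, Finset.sum_filter]
      refine Finset.sum_le_sum fun e _ => ?_
      by_cases h3 : Rc ω.1 e.1.1 e.2.1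
      · by_cases h4 : Rr ω.2 e.1.2 e.2.2
        · simp only [h3, h4, and_self, if_true, true_and, one_mul, mul_one]
          exact le_rfl
        · simp only [h3, h4, and_false, if_false, false_and, Finset.sum_const_zero, mul_zero,
            add_zero]
          exact le_rfl
      · simp only [h3, false_and, if_false, Finset.sum_const_zero, zero_mul, add_zero]
        exact le_rfl
    refine (Finset.sum_le_sum fun ω _ => h1 ω).trans ?_
    rw [Finset.sum_comm, hTe, Finset.mul_sum]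
    refine Finset.sum_le_sum fun e he => ?_
    obtain ⟨he1, he2, -, -, -⟩ := hG e he
    rw [Finset.sum_add_distrib, ← Finset.univ_product_univ, Finset.sum_product,
      Finset.sum_product]
    have h5 : ∑ u : Ωc, ∑ v : Ωr, ((if Rc u e.1.1 e.2.1 then (1 : ℝ) else 0) *
          (∑ r₂ ∈ (colOf Γ e.1.1).erase e.1.2, ∑ r₂' ∈ colOf Γ e.2.1,
            (if Rr v e.1.2 e.2.2 ∧ Rr v r₂ r₂' then (1 : ℝ) else 0))) ≤
        κr * ((Fintype.card Ωc * Pr (fun ω => Rc ω e.1.1 e.2.1)) *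
          (Fintype.card Ωr * Pr (fun ω => Rr ω e.1.2 e.2.2))) := by
      rw [← Finset.sum_mul_sum, eng_pr (fun ω => Rc ω e.1.1 e.2.1), Finset.sum_comm]
      have h6 : ∑ r₂ ∈ (colOf Γ e.1.1).erase e.1.2, ∑ v : Ωr, ∑ r₂' ∈ colOf Γ e.2.1,
            (if Rr v e.1.2 e.2.2 ∧ Rr v r₂ r₂' then (1 : ℝ) else 0) =
          Fintype.card Ωr * ∑ r₂ ∈ (colOf Γ e.1.1).erase e.1.2, ∑ r₂' ∈ colOf Γ e.2.1,
            Pr (fun ω => Rr ω e.1.2 e.2.2 ∧ Rr ω r₂ r₂') := by
        rw [Finset.mul_sum]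
        refine Finset.sum_congr rfl fun r₂ _ => ?_
        rw [Finset.sum_comm, Finset.mul_sum]
        refine Finset.sum_congr rfl fun r₂' _ => ?_
        rw [← eng_pr]
      rw [h6]
      have h7 := hr e.1 he1 e.2 he2
      have h8 : 0 ≤ (Fintype.card Ωc : ℝ) * Pr (fun ω => Rc ω e.1.1 e.2.1) := by
        rw [← eng_pr]
        exact Finset.sum_nonneg fun _ _ => by split_ifs <;> norm_num
      have h9 := mul_le_mul_of_nonneg_left (mul_le_mul_of_nonneg_left h7 hcr.le) h8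
      refine h9.trans (le_of_eq ?_)
      ring
    have h5' : ∑ u : Ωc, ∑ v : Ωr,
          ((∑ c₂ ∈ (rowOf Γ e.1.2).erase e.1.1, ∑ c₂' ∈ rowOf Γ e.2.2,
            (if Rc u e.1.1 e.2.1 ∧ Rc u c₂ c₂' then (1 : ℝ) else 0)) *
          (if Rr v e.1.2 e.2.2 then (1 : ℝ) else 0)) ≤
        κc * ((Fintype.card Ωc * Pr (fun ω => Rc ω e.1.1 e.2.1)) *
          (Fintype.card Ωr * Pr (fun ω => Rr ω e.1.2 e.2.2))) := by
      rw [← Finset.sum_mul_sum, eng_pr (fun ω => Rr ω e.1.2 e.2.2), Finset.sum_comm]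
      have h6 : ∑ c₂ ∈ (rowOf Γ e.1.2).erase e.1.1, ∑ u : Ωc, ∑ c₂' ∈ rowOf Γ e.2.2,
            (if Rc u e.1.1 e.2.1 ∧ Rc u c₂ c₂' then (1 : ℝ) else 0) =
          Fintype.card Ωc * ∑ c₂ ∈ (rowOf Γ e.1.2).erase e.1.1, ∑ c₂' ∈ rowOf Γ e.2.2,
            Pr (fun ω => Rc ω e.1.1 e.2.1 ∧ Rc ω c₂ c₂') := by
        rw [Finset.mul_sum]
        refine Finset.sum_congr rfl fun r₂ _ => ?_
        rw [Finset.sum_comm, Finset.mul_sum]
        refine Finset.sum_congr rfl fun r₂' _ => ?_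
        rw [← eng_pr]
      rw [h6]
      have h7 := hc e.1 he1 e.2 he2
      have h8 : 0 ≤ (Fintype.card Ωr : ℝ) * Pr (fun ω => Rr ω e.1.2 e.2.2) := by
        rw [← eng_pr]
        exact Finset.sum_nonneg fun _ _ => by split_ifs <;> norm_num
      have h9 := mul_le_mul_of_nonneg_right (mul_le_mul_of_nonneg_left h7 hcc.le) h8
      refine h9.trans (le_of_eq ?_)
      ring
    refine (add_le_add h5 h5').trans (le_of_eq ?_)
    rw [hκ]
    ring
  -- the good edges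
  set E' : Ωc × Ωr → Finset ((ℕ × ℕ) × (ℕ × ℕ)) := fun ω =>
    (E ω).filter fun e => (X ω e : ℝ) ≤ 2 * κ with hE'
  have hhalf : T / 2 ≤ ∑ ω : Ωc × Ωr, ((E' ω).card : ℝ) := by
    have h1 : ∀ ω, ((E ω).card : ℝ) = (E' ω).card +
        (((E ω).filter fun e => ¬ (X ω e : ℝ) ≤ 2 * κ).card : ℝ) := by
      intro ω
      have h2 := Finset.card_filter_add_card_filter_not (s := E ω)
        (fun e => (X ω e : ℝ) ≤ 2 * κ)
      rw [← h2]
      push_cast
      rfl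
    have h2 : ∑ ω : Ωc × Ωr, (((E ω).filter fun e => ¬ (X ω e : ℝ) ≤ 2 * κ).card : ℝ) ≤
        T / 2 := by
      rcases hκ0.eq_or_lt with h0 | h0
      · have h3 : ∑ ω : Ωc × Ωr, ∑ e ∈ E ω, (X ω e : ℝ) = 0 := by
          refine le_antisymm ?_ (Finset.sum_nonneg fun _ _ => Finset.sum_nonneg fun _ _ =>
            Nat.cast_nonneg _)
          refine hsum.trans (le_of_eq ?_)
          rw [← h0, zero_mul]
        have h4 : ∀ ω : Ωc × Ωr, ((E ω).filter fun e => ¬ (X ω e : ℝ) ≤ 2 * κ) = ∅ := by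
          intro ω
          rw [Finset.filter_eq_empty_iff]
          intro e he
          rw [not_not]
          have h5 := (Finset.sum_eq_zero_iff_of_nonneg (fun ω _ => Finset.sum_nonneg fun e _ =>
            Nat.cast_nonneg (X ω e))).1 h3 ω (Finset.mem_univ _)
          have h6 := (Finset.sum_eq_zero_iff_of_nonneg (fun e _ =>
            Nat.cast_nonneg (X ω e))).1 h5 e he
          rw [h6]
          linarith
        simp only [h4, Finset.card_empty, Nat.cast_zero, Finset.sum_const_zero]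
        have h5 : 0 ≤ T := Finset.sum_nonneg fun _ _ => Nat.cast_nonneg _
        linarith
      · have h3 : ∀ ω : Ωc × Ωr, 2 * κ * (((E ω).filter fun e =>
            ¬ (X ω e : ℝ) ≤ 2 * κ).card : ℝ) ≤ ∑ e ∈ E ω, (X ω e : ℝ) := by
          intro ω
          calc 2 * κ * (((E ω).filter fun e => ¬ (X ω e : ℝ) ≤ 2 * κ).card : ℝ)
              = ∑ e ∈ (E ω).filter fun e => ¬ (X ω e : ℝ) ≤ 2 * κ, 2 * κ := by
                rw [Finset.sum_const, nsmul_eq_mul, mul_comm]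
            _ ≤ ∑ e ∈ (E ω).filter fun e => ¬ (X ω e : ℝ) ≤ 2 * κ, (X ω e : ℝ) := by
                refine Finset.sum_le_sum fun e he => ?_
                rw [Finset.mem_filter, not_le] at he
                exact he.2.le
            _ ≤ ∑ e ∈ E ω, (X ω e : ℝ) :=
                Finset.sum_le_sum_of_subset_of_nonneg (Finset.filter_subset _ _)
                  fun _ _ _ => Nat.cast_nonneg _
        have h4 := (Finset.sum_le_sum fun ω (_ : ω ∈ Finset.univ) => h3 ω).trans hsum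
        rw [← Finset.mul_sum] at h4
        have h5 : 2 * (∑ ω : Ωc × Ωr, (((E ω).filter fun e =>
            ¬ (X ω e : ℝ) ≤ 2 * κ).card : ℝ)) ≤ T := by
          refine le_of_mul_le_mul_left ?_ h0
          linarith
        linarith
    have h3 : T = ∑ ω : Ωc × Ωr, ((E' ω).card : ℝ) +
        ∑ ω : Ωc × Ωr, (((E ω).filter fun e => ¬ (X ω e : ℝ) ≤ 2 * κ).card : ℝ) := by
      rw [hT, ← Finset.sum_add_distrib]
      exact Finset.sum_congr rfl fun ω _ => h1 ω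
    linarith
  -- choose
  set B : ℝ := Good.card * pc * pr / (2 * (1 + 2 * (κc + κr))) with hB
  have hden : 0 < 1 + 2 * κ := by linarith
  have hex : ∃ ω : Ωc × Ωr, (1 + 2 * κ) * B ≤ (E' ω).card := by
    by_contra hcon
    push Not at hcon
    have h1 : ∑ ω : Ωc × Ωr, ((E' ω).card : ℝ) < ∑ ω : Ωc × Ωr, (1 + 2 * κ) * B :=
      Finset.sum_lt_sum_of_nonempty Finset.univ_nonempty fun ω _ => hcon ω
    rw [Finset.sum_const, nsmul_eq_mul, Finset.card_univ, Fintype.card_prod] at h1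
    push_cast at h1
    have h2 : (Fintype.card Ωc : ℝ) * Fintype.card Ωr * ((1 + 2 * κ) * B) =
        Good.card * pc * pr * (Fintype.card Ωc * Fintype.card Ωr) / 2 := by
      rw [hB]
      have : 1 + 2 * (κc + κr) ≠ 0 := by
        have := hden.ne'
        rwa [hκ] at this
      rw [hκ]
      field_simp
    rw [h2] at h1
    linarith
  obtain ⟨ω, hω⟩ := hex
  obtain ⟨Z, hZ1, hZ2, hZ3⟩ := eng_greedy (E ω) cf
    (by
      rintro x y (h | h)
      · exact Or.inl h.symm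
      · exact Or.inr h.symm) (2 * κ) (E' ω) (Finset.filter_subset _ _)
    (by
      intro e he
      rw [hE'] at he
      exact (Finset.mem_filter.1 he).2)
  have hZE : ∀ e ∈ Z, e ∈ E ω := fun e he => Finset.filter_subset _ _ (hZ1 he)
  refine ⟨Z, ?_, ?_, ?_⟩
  · intro e he f hf
    have h1 := (hmem ω e).1 (hZE e he)
    have h2 := (hmem ω f).1 (hZE f hf)
    refine ⟨?_, ?_, ?_⟩
    · intro hef
      have h3 := hZ2 e he f hf hef
      exact ⟨fun h => h3 (Or.inl h), fun h => h3 (Or.inr h)⟩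
    · exact hmc ω.1 e.1 (hG e h1.1).1 e.2 (hG e h1.1).2.1 f.1 (hG f h2.1).1 f.2
        (hG f h2.1).2.1 h1.2.1 h2.2.1
    · exact hmr ω.2 e.1 (hG e h1.1).1 e.2 (hG e h1.1).2.1 f.1 (hG f h2.1).1 f.2
        (hG f h2.1).2.1 h1.2.2 h2.2.2
  · intro e he
    have h1 := (hmem ω e).1 (hZE e he)
    exact ⟨(hG e h1.1).1, (hG e h1.1).2.1, (hG e h1.1).2.2.1⟩
  · have h1 := hω.trans hZ3
    exact le_of_mul_le_mul_left h1 hden

end Twn
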