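import Pool.Agent.Twn.Basic

/-!
# Extraction of labels and representative columns

A column has at most `w` cells of `Γ1`, so at most `κ` macro rows `J` contain at least `w / κ` of them;
let `lam c` be the macro row with the most cells of `Γ'` (lose a factor `κ`). For a block `B` and a label
`J` the number of cells of `Γ1` in the block `B` and the macro row `J` (`w * D` rows, `w` windows) is at
most `4 * w`, so at most `4 * κ` columns of `B` with label `J` have a heavy part in `J`; keep the column
with the most cells (lose a factor `4 * κ`).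
-/

namespace Twn

namespace ExtractAux

theorem sum_fiber_le {α β : Type*} [DecidableEq β] (S : Finset α) (f : α → β) (T : Finset β) :
    ∑ b ∈ T, (S.filter (fun x => f x = b)).card ≤ S.card := by
  have h1 : ∑ b ∈ T, (S.filter (fun x => f x = b)).card =
      ∑ x ∈ S, ∑ b ∈ T, if f x = b then 1 else 0 := by
    rw [Finset.sum_comm]
    exact Finset.sum_congr rfl fun b _ => Finset.card_filter _ _
  rw [h1, Finset.card_eq_sum_ones]
  refine Finset.sum_le_sum fun x _ => ?_
  rw [Finset.sum_ite_eq]
  split_ifs <;> simp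

/-- in every group choose the most popular value -/
theorem select {α β γ : Type*} [DecidableEq β] [DecidableEq γ] [Inhabited γ] (S : Finset α)
    (f : α → β) (h : α → γ) (k : ℕ)
    (hk : ∀ b, ((S.filter (fun x => f x = b)).image h).card ≤ k) :
    ∃ r : β → γ, S.card ≤ k * (S.filter (fun x => h x = r (f x))).card := by
  have h1 : ∀ b, ∃ v : γ, (S.filter (fun x => f x = b)).card ≤
      k * (S.filter (fun x => f x = b ∧ h x = v)).card := by
    intro b
    by_cases hne : ((S.filter (fun x => f x = b)).image h).Nonempty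
    · obtain ⟨v, hv, hmax⟩ := Finset.exists_max_image _
        (fun v => (S.filter (fun x => f x = b ∧ h x = v)).card) hne
      refine ⟨v, ?_⟩
      have h2 : (S.filter (fun x => f x = b)).card =
          ∑ u ∈ (S.filter (fun x => f x = b)).image h,
            (S.filter (fun x => f x = b ∧ h x = u)).card := by
        rw [Finset.card_eq_sum_card_image h]
        refine Finset.sum_congr rfl fun u _ => ?_
        rw [Finset.filter_filter]
      rw [h2]
      calc ∑ u ∈ (S.filter (fun x => f x = b)).image h,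
            (S.filter (fun x => f x = b ∧ h x = u)).card
          ≤ ∑ u ∈ (S.filter (fun x => f x = b)).image h,
            (S.filter (fun x => f x = b ∧ h x = v)).card := Finset.sum_le_sum hmax
        _ = ((S.filter (fun x => f x = b)).image h).card *
            (S.filter (fun x => f x = b ∧ h x = v)).card := by
            rw [Finset.sum_const, smul_eq_mul]
        _ ≤ k * (S.filter (fun x => f x = b ∧ h x = v)).card :=
            Nat.mul_le_mul_right _ (hk b)
    · refine ⟨default, ?_⟩
      rw [Finset.not_nonempty_iff_eq_empty, Finset.image_eq_empty] at hne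
      rw [hne]
      simp
  choose r hr using h1
  refine ⟨r, ?_⟩
  have h2 : (S.filter (fun x => h x = r (f x))).card =
      ∑ b ∈ S.image f, (S.filter (fun x => f x = b ∧ h x = r b)).card := by
    have h3 : ∀ x ∈ S.filter (fun x => h x = r (f x)), f x ∈ S.image f := fun x hx =>
      Finset.mem_image_of_mem f (Finset.mem_filter.1 hx).1
    rw [Finset.card_eq_sum_card_fiberwise h3]
    refine Finset.sum_congr rfl fun b _ => ?_
    congr 1
    ext x
    simp only [Finset.mem_filter]
    constructor
    · rintro ⟨⟨h4, h5⟩, h6⟩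
      exact ⟨h4, h6, by rw [h5, h6]⟩
    · rintro ⟨h4, h5, h6⟩
      exact ⟨⟨h4, by rw [h6, h5]⟩, h5⟩
  rw [h2, Finset.mul_sum, Finset.card_eq_sum_card_image f S]
  exact Finset.sum_le_sum fun b _ => hr b

end ExtractAux

open ExtractAux in
theorem label_extract (w D b κ : ℕ) (hw : 0 < w) (hD : 0 < D) (hb : 0 < b)
    (Γ1 Γ' : Finset (ℕ × ℕ)) (hsub : Γ' ⊆ Γ1)
    (hS1 : ∀ B a, (Γ1.filter (fun g => g.1 / b = B ∧ a ≤ g.2 ∧ g.2 < a + D)).card ≤ 4)
    (hcol : ∀ c, (Γ1.filter (fun g => g.1 = c)).card ≤ w)
    (hheavy : ∀ g ∈ Γ', w ≤ κ * (Γ1.filter (fun q => q.1 = g.1 ∧ q.2 / (w * D) =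
      g.2 / (w * D))).card) :
    ∃ Γ'' ⊆ Γ', ∃ lam : ℕ → ℕ, (∀ g ∈ Γ'', lam g.1 = g.2 / (w * D)) ∧
      (∀ g ∈ Γ'', ∀ h ∈ Γ'', g.1 / b = h.1 / b → lam g.1 = lam h.1 → g.1 = h.1) ∧
      Γ'.card ≤ 4 * κ ^ 2 * Γ''.card := by
  -- step one: the label of a column
  have hk1 : ∀ c, ((Γ'.filter (fun g => g.1 = c)).image (fun g => g.2 / (w * D))).card ≤ κ := by
    intro c
    set T := (Γ'.filter (fun g => g.1 = c)).image (fun g => g.2 / (w * D)) with hT
    have h1 : T.card * w ≤ κ * w := by
      calc T.card * w = ∑ _J ∈ T, w := by rw [Finset.sum_const, smul_eq_mul]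
        _ ≤ ∑ J ∈ T, κ * ((Γ1.filter (fun g => g.1 = c)).filter
              (fun q => q.2 / (w * D) = J)).card := by
            refine Finset.sum_le_sum fun J hJ => ?_
            obtain ⟨g, hg, hgJ⟩ := Finset.mem_image.1 hJ
            obtain ⟨hg1, hg2⟩ := Finset.mem_filter.1 hg
            have h2 := hheavy g hg1
            rw [Finset.filter_filter]
            rw [hg2, hgJ] at h2
            exact h2
        _ = κ * ∑ J ∈ T, ((Γ1.filter (fun g => g.1 = c)).filter
              (fun q => q.2 / (w * D) = J)).card := by rw [Finset.mul_sum]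
        _ ≤ κ * (Γ1.filter (fun g => g.1 = c)).card :=
            Nat.mul_le_mul_left _ (sum_fiber_le _ _ _)
        _ ≤ κ * w := Nat.mul_le_mul_left _ (hcol c)
    exact Nat.le_of_mul_le_mul_right h1 hw
  obtain ⟨lam, hlam⟩ := select Γ' (fun g => g.1) (fun g => g.2 / (w * D)) κ hk1
  set Γ2 := Γ'.filter (fun g => g.2 / (w * D) = lam g.1) with hΓ2
  -- the number of cells in a block and a macro row
  have hcells : ∀ B J, (Γ1.filter (fun q => q.1 / b = B ∧ q.2 / (w * D) = J)).card ≤ 4 * w := by
    intro B J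
    have h1 := Finset.card_le_mul_card_image_of_maps_to
      (s := Γ1.filter (fun q => q.1 / b = B ∧ q.2 / (w * D) = J)) (f := fun q => q.2 / D)
      (t := Finset.Ico (J * w) (J * w + w)) (by
        intro q hq
        obtain ⟨-, -, hq2⟩ := Finset.mem_filter.1 hq
        have h2 : q.2 / D / w = J := by
          rw [Nat.div_div_eq_div_mul, mul_comm D w]
          exact hq2
        rw [Finset.mem_Ico]
        constructor
        · rw [← h2]
          exact Nat.div_mul_le_self _ _
        · have h3 := Nat.lt_div_mul_add (a := q.2 / D) hw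
          rw [h2] at h3
          exact h3) 4 (by
        intro j _
        refine le_trans (Finset.card_le_card ?_) (hS1 B (j * D))
        intro q hq
        obtain ⟨hq1, hq2⟩ := Finset.mem_filter.1 hq
        obtain ⟨hq3, hq4, -⟩ := Finset.mem_filter.1 hq1
        refine Finset.mem_filter.2 ⟨hq3, hq4, ?_, ?_⟩
        · rw [← hq2]
          exact Nat.div_mul_le_self _ _
        · have h3 := Nat.lt_div_mul_add (a := q.2) hD
          rw [← hq2]
          exact h3)
    rwa [Nat.card_Ico, Nat.add_sub_cancel_left] at h1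
  -- step two: one column for every block and label
  have hk2 : ∀ BJ : ℕ × ℕ, ((Γ2.filter (fun g => (g.1 / b, lam g.1) = BJ)).image
      (fun g => g.1)).card ≤ 4 * κ := by
    rintro ⟨B, J⟩
    set T := (Γ2.filter (fun g => (g.1 / b, lam g.1) = (B, J))).image (fun g => g.1) with hT
    have hTB : ∀ c ∈ T, c / b = B ∧ w ≤ κ * (Γ1.filter (fun q => q.1 = c ∧
        q.2 / (w * D) = J)).card := by
      intro c hc
      obtain ⟨g, hg, rfl⟩ := Finset.mem_image.1 hc
      obtain ⟨hg1, hg2⟩ := Finset.mem_filter.1 hg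
      obtain ⟨hg3, hg4⟩ := Finset.mem_filter.1 hg1
      rw [Prod.mk.injEq] at hg2
      refine ⟨hg2.1, ?_⟩
      have h2 := hheavy g hg3
      rw [hg4, hg2.2] at h2
      exact h2
    have h1 : T.card * w ≤ 4 * κ * w := by
      calc T.card * w = ∑ _c ∈ T, w := by rw [Finset.sum_const, smul_eq_mul]
        _ ≤ ∑ c ∈ T, κ * ((Γ1.filter (fun q => q.1 / b = B ∧ q.2 / (w * D) = J)).filter
              (fun q => q.1 = c)).card := by
            refine Finset.sum_le_sum fun c hc => ?_
            obtain ⟨h2, h3⟩ := hTB c hc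
            refine h3.trans (Nat.mul_le_mul_left _ (Finset.card_le_card ?_))
            intro q hq
            obtain ⟨hq1, hq2, hq3⟩ := Finset.mem_filter.1 hq
            exact Finset.mem_filter.2 ⟨Finset.mem_filter.2 ⟨hq1, by rw [hq2, h2], hq3⟩, hq2⟩
        _ = κ * ∑ c ∈ T, ((Γ1.filter (fun q => q.1 / b = B ∧ q.2 / (w * D) = J)).filter
              (fun q => q.1 = c)).card := by rw [Finset.mul_sum]
        _ ≤ κ * (Γ1.filter (fun q => q.1 / b = B ∧ q.2 / (w * D) = J)).card :=
            Nat.mul_le_mul_left _ (sum_fiber_le _ _ _)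
        _ ≤ κ * (4 * w) := Nat.mul_le_mul_left _ (hcells B J)
        _ = 4 * κ * w := by ring
    exact Nat.le_of_mul_le_mul_right h1 hw
  obtain ⟨rep, hrep⟩ := select Γ2 (fun g => (g.1 / b, lam g.1)) (fun g => g.1) (4 * κ) hk2
  refine ⟨Γ2.filter (fun g => g.1 = rep (g.1 / b, lam g.1)), ?_, lam, ?_, ?_, ?_⟩
  · exact (Finset.filter_subset _ _).trans (Finset.filter_subset _ _)
  · intro g hg
    exact (Finset.mem_filter.1 (Finset.mem_filter.1 hg).1).2.symm
  · intro g hg h hh h1 h2
    rw [(Finset.mem_filter.1 hg).2, (Finset.mem_filter.1 hh).2, h1, h2]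
  · calc Γ'.card ≤ κ * Γ2.card := hlam
      _ ≤ κ * (4 * κ * (Γ2.filter (fun g => g.1 = rep (g.1 / b, lam g.1))).card) :=
          Nat.mul_le_mul_left _ hrep
      _ = 4 * κ ^ 2 * (Γ2.filter (fun g => g.1 = rep (g.1 / b, lam g.1))).card := by ring

end Twn
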