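import Pool.Agent.Twn.Core
import Pool.Agent.Twn.Disj

/-!
# Reduction of general lengths, final statement
-/

namespace Twn

lemma permSet_of_perm {n : ℕ} (σ : Equiv.Perm (Fin n)) :
    PermSet n (Finset.univ.image (fun i : Fin n => ((i : ℕ), (σ i : ℕ)))) := by
  refine ⟨?_, ?_, ?_, ?_⟩
  · rw [Finset.card_image_of_injective]
    · simp
    · intro i j h
      simp only [Prod.mk.injEq] at h
      exact Fin.ext h.1
  · intro p hp
    obtain ⟨i, _, rfl⟩ := Finset.mem_image.mp hp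
    exact ⟨i.2, (σ i).2⟩
  · intro p hp q hq h
    obtain ⟨i, _, rfl⟩ := Finset.mem_image.mp hp
    obtain ⟨j, _, rfl⟩ := Finset.mem_image.mp hq
    have : i = j := Fin.ext h
    rw [this]
  · intro p hp q hq h
    obtain ⟨i, _, rfl⟩ := Finset.mem_image.mp hp
    obtain ⟨j, _, rfl⟩ := Finset.mem_image.mp hq
    have : i = j := σ.injective (Fin.ext h)
    rw [this]

/-- twin of length `k` in a permutation -/
def HasTwin {n : ℕ} (σ : Equiv.Perm (Fin n)) (k : ℕ) : Prop :=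
  ∃ f g : Fin k ↪o Fin n, (∀ i j, f i ≠ g j) ∧
    ∀ i j, (σ (f i) < σ (f j) ↔ σ (g i) < σ (g j))

/-- restriction to the first `m` positions -/
lemma restrict {n m : ℕ} (h : m ≤ n) (σ : Equiv.Perm (Fin n)) :
    ∃ τ : Equiv.Perm (Fin m), ∀ k, HasTwin τ k → HasTwin σ k := by
  classical
  let f : Fin m → Fin n := fun i => σ (Fin.castLE h i)
  have hf : Function.Injective f := fun i j hij => Fin.castLE_injective h (σ.injective hij)
  set s : Finset (Fin n) := Finset.univ.image f with hs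
  have hsc : s.card = m := by
    rw [hs, Finset.card_image_of_injective _ hf, Finset.card_univ, Fintype.card_fin]
  let e := s.orderIsoOfFin hsc
  have hmem : ∀ i, f i ∈ s := fun i => Finset.mem_image_of_mem _ (Finset.mem_univ i)
  let t : Fin m → Fin m := fun i => e.symm ⟨f i, hmem i⟩
  have ht : Function.Injective t := by
    intro i j hij
    have := e.symm.injective hij
    exact hf (Subtype.ext_iff.mp this)
  let τ : Equiv.Perm (Fin m) := Equiv.ofBijective t (Finite.injective_iff_bijective.mp ht)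
  have hτ : ∀ i j, τ i < τ j ↔ σ (Fin.castLE h i) < σ (Fin.castLE h j) := by
    intro i j
    change e.symm ⟨f i, hmem i⟩ < e.symm ⟨f j, hmem j⟩ ↔ f i < f j
    rw [OrderIso.lt_iff_lt]
    rfl
  refine ⟨τ, ?_⟩
  rintro k ⟨f', g', h1, h2⟩
  refine ⟨f'.trans (Fin.castLEOrderEmb h), g'.trans (Fin.castLEOrderEmb h), ?_, ?_⟩
  · intro i j hij
    exact h1 i j (Fin.castLE_injective h hij)
  · intro i j
    have := h2 i j
    rw [hτ, hτ] at this
    exact this

theorem reduce (A B K0 : ℕ) (hA : 0 < A) (hB : 0 < B) (α : ℝ) (hα : α ≤ (B : ℝ) / A)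
    (hcore : ∀ K : ℕ, K0 ≤ K → 3 ∣ K → ∀ Q : Finset (ℕ × ℕ), PermSet (K ^ A) Q →
      Tw Q ((K : ℝ) ^ B)) :
    ∃ c : ℝ, 0 < c ∧ ∃ N : ℕ, ∀ n : ℕ, N ≤ n → ∀ σ : Equiv.Perm (Fin n),
      ∃ k : ℕ, c * (n : ℝ) ^ α ≤ (k : ℝ) ∧ HasTwin σ k := by
  have hAr : (0 : ℝ) < A := by exact_mod_cast hA
  have htend : Filter.Tendsto (fun n : ℕ => (n : ℝ) ^ ((1 : ℝ) / A)) Filter.atTop Filter.atTop :=
    (tendsto_rpow_atTop (by positivity)).comp tendsto_natCast_atTop_atTop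
  obtain ⟨N, hN⟩ := Filter.eventually_atTop.mp (htend.eventually_ge_atTop ((K0 : ℝ) + 24))
  refine ⟨1 / (6 * 2 ^ B), by positivity, max N 1, ?_⟩
  intro n hn σ
  have hn1 : 1 ≤ n := le_trans (le_max_right _ _) hn
  have hnr : (1 : ℝ) ≤ n := by exact_mod_cast hn1
  set x : ℝ := (n : ℝ) ^ ((1 : ℝ) / A) with hx
  have hx24 : (K0 : ℝ) + 24 ≤ x := hN n (le_trans (le_max_left _ _) hn)
  have hxpos : 0 < x := by
    have : (0 : ℝ) ≤ K0 := Nat.cast_nonneg _
    linarith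
  set K : ℕ := 3 * ⌊x / 3⌋₊ with hK
  have hK1 : (K : ℝ) ≤ x := by
    rw [hK]
    push_cast
    have := Nat.floor_le (show 0 ≤ x / 3 by positivity)
    linarith
  have hK2 : x - 3 < K := by
    rw [hK]
    push_cast
    have := Nat.lt_floor_add_one (x / 3)
    linarith
  have hK0 : K0 ≤ K := by
    have : (K0 : ℝ) < K := by linarith
    exact_mod_cast this.le
  have hxK : x ≤ 2 * K := by
    have : (0 : ℝ) ≤ K0 := Nat.cast_nonneg _
    linarith
  have hK20 : (20 : ℝ) ≤ K := by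
    have : (0 : ℝ) ≤ K0 := Nat.cast_nonneg _
    linarith
  have hxA : x ^ A = n := by
    rw [hx, ← Real.rpow_natCast, ← Real.rpow_mul (by linarith), one_div_mul_cancel hAr.ne',
      Real.rpow_one]
  have hKn : K ^ A ≤ n := by
    have : (K : ℝ) ^ A ≤ n := by
      rw [← hxA]
      exact pow_le_pow_left₀ (Nat.cast_nonneg _) hK1 A
    exact_mod_cast this
  obtain ⟨τ, hτ⟩ := restrict hKn σ
  have htw := hcore K hK0 ⟨_, hK⟩ _ (permSet_of_perm τ)
  refine ⟨K ^ B / 3, ?_, hτ _ ?_⟩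
  · have h1 : (n : ℝ) ^ α ≤ x ^ B := by
      calc (n : ℝ) ^ α ≤ (n : ℝ) ^ ((B : ℝ) / A) := Real.rpow_le_rpow_of_exponent_le hnr hα
        _ = x ^ B := by
          rw [hx, ← Real.rpow_natCast, ← Real.rpow_mul (by linarith)]
          congr 1
          ring
    have h2 : x ^ B ≤ 2 ^ B * (K : ℝ) ^ B := by
      rw [← mul_pow]
      exact pow_le_pow_left₀ hxpos.le hxK B
    have h3 : (K : ℝ) ^ B ≤ 3 * ((K ^ B / 3 : ℕ) : ℝ) + 3 := by
      have : K ^ B ≤ 3 * (K ^ B / 3) + 3 := by omega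
      exact_mod_cast this
    have h4 : (20 : ℝ) ≤ (K : ℝ) ^ B := by
      calc (20 : ℝ) ≤ K := hK20
        _ = (K : ℝ) ^ 1 := (pow_one _).symm
        _ ≤ (K : ℝ) ^ B := pow_le_pow_right₀ (by linarith) hB
    have h5 : (K : ℝ) ^ B / 6 ≤ ((K ^ B / 3 : ℕ) : ℝ) := by linarith
    calc 1 / (6 * 2 ^ B) * (n : ℝ) ^ α ≤ 1 / (6 * 2 ^ B) * (2 ^ B * (K : ℝ) ^ B) := by
          gcongr
          exact le_trans h1 h2
      _ = (K : ℝ) ^ B / 6 := by
          field_simp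
      _ ≤ _ := h5
  · refine disj_twin τ _ rfl (K ^ B / 3) ?_
    obtain ⟨Z, hZ1, hZ2, hZ3⟩ := htw
    refine ⟨Z, hZ1, hZ2, le_trans ?_ hZ3⟩
    have : 3 * (K ^ B / 3) ≤ K ^ B := Nat.mul_div_le _ _
    exact_mod_cast this

/-- **Twins of exponent larger than 3/5.** -/
theorem twins : ∃ c : ℝ, 0 < c ∧ ∃ N : ℕ, ∀ n : ℕ, N ≤ n → ∀ σ : Equiv.Perm (Fin n),
    ∃ k : ℕ, c * (n : ℝ) ^ ((3 : ℝ) / 5 + 1 / 5000) ≤ (k : ℝ) ∧
      ∃ f g : Fin k ↪o Fin n, (∀ i j, f i ≠ g j) ∧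
        ∀ i j, (σ (f i) < σ (f j) ↔ σ (g i) < σ (g j)) := by
  refine reduce (15 * 3964) (9 * 3964 + 12) (10 ^ 13) (by norm_num) (by norm_num) _ ?_ ?_
  · norm_num
  · intro K hK h3 Q hQ
    have P : Par K 3964 21 14 34 170 885 12 15835 3950 31705 3100 :=
      ⟨hK, by norm_num, by norm_num, by norm_num, by norm_num, by norm_num, by norm_num,
        by norm_num, by norm_num⟩
    exact core P (δ' := 7) (by norm_num) (by norm_num) (by norm_num) h3
      (le_trans (by norm_num) hK) Q hQ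

end Twn
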