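import Pool.Agent.Twn.Basic

/-!
# Good pairs in one macro cell: the Ramsey step

`V` = cells of one macro cell. `eqc p q` = same column block, `cc p q` = the columns are covered.
A six-tuple of elements of `V` with no two in the same column block or row block and with no bad triple
contains (for some positions `i < j`) a good pair, because otherwise the uncovered-in-columns and the
uncovered-in-rows positions give a 2-colouring of the complete graph on six vertices without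
monochromatic triangle (`R(3,3) = 6`). Count the six-tuples `Fin 6 → V`.
-/

namespace Twn

/-- `R(3,3) = 6` in the form which is needed -/
theorem ramsey_six (P Q : Fin 6 → Fin 6 → Prop)
    (h : ∀ i j, i < j → P i j ∨ Q i j) :
    (∃ i j k, i < j ∧ j < k ∧ P i j ∧ P i k ∧ P j k) ∨
    (∃ i j k, i < j ∧ j < k ∧ Q i j ∧ Q i k ∧ Q j k) := by
  by_contra hcon
  rw [not_or] at hcon
  obtain ⟨hP, hQ⟩ := hcon
  have hP' : ∀ i j k, i < j → j < k → P i j → P i k → P j k → False :=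
    fun i j k h1 h2 h3 h4 h5 => hP ⟨i, j, k, h1, h2, h3, h4, h5⟩
  have hQ' : ∀ i j k, i < j → j < k → Q i j → Q i k → Q j k → False :=
    fun i j k h1 h2 h3 h4 h5 => hQ ⟨i, j, k, h1, h2, h3, h4, h5⟩
  have hor : ∀ i j, i < j → ¬ P i j → Q i j := fun i j hij hn => (h i j hij).resolve_left hn
  have hor' : ∀ i j, i < j → ¬ Q i j → P i j := fun i j hij hn => (h i j hij).resolve_right hn
  have k1 : ∀ j k l : Fin 6, 0 < j → j < k → k < l → P 0 j → P 0 k → P 0 l → False := by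
    intro j k l h0 h1 h2 a b c
    have e1 : ¬ P j k := fun e => hP' 0 j k h0 h1 a b e
    have e2 : ¬ P j l := fun e => hP' 0 j l h0 (h1.trans h2) a c e
    have e3 : ¬ P k l := fun e => hP' 0 k l (h0.trans h1) h2 b c e
    exact hQ' j k l h1 h2 (hor _ _ h1 e1) (hor _ _ (h1.trans h2) e2) (hor _ _ h2 e3)
  have k2 : ∀ j k l : Fin 6, 0 < j → j < k → k < l → ¬ P 0 j → ¬ P 0 k → ¬ P 0 l → False := by
    intro j k l h0 h1 h2 a b c
    have a' := hor 0 j h0 a
    have b' := hor 0 k (h0.trans h1) b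
    have c' := hor 0 l (h0.trans (h1.trans h2)) c
    have e1 : ¬ Q j k := fun e => hQ' 0 j k h0 h1 a' b' e
    have e2 : ¬ Q j l := fun e => hQ' 0 j l h0 (h1.trans h2) a' c' e
    have e3 : ¬ Q k l := fun e => hQ' 0 k l (h0.trans h1) h2 b' c' e
    exact hP' j k l h1 h2 (hor' _ _ h1 e1) (hor' _ _ (h1.trans h2) e2) (hor' _ _ h2 e3)
  by_cases p1 : P 0 1 <;> by_cases p2 : P 0 2 <;> by_cases p3 : P 0 3 <;>
    by_cases p4 : P 0 4 <;> by_cases p5 : P 0 5 <;>
    first
      | exact k1 1 2 3 (by decide) (by decide) (by decide) p1 p2 p3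
      | exact k1 1 2 4 (by decide) (by decide) (by decide) p1 p2 p4
      | exact k1 1 2 5 (by decide) (by decide) (by decide) p1 p2 p5
      | exact k1 1 3 4 (by decide) (by decide) (by decide) p1 p3 p4
      | exact k1 1 3 5 (by decide) (by decide) (by decide) p1 p3 p5
      | exact k1 1 4 5 (by decide) (by decide) (by decide) p1 p4 p5
      | exact k1 2 3 4 (by decide) (by decide) (by decide) p2 p3 p4
      | exact k1 2 3 5 (by decide) (by decide) (by decide) p2 p3 p5
      | exact k1 2 4 5 (by decide) (by decide) (by decide) p2 p4 p5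
      | exact k1 3 4 5 (by decide) (by decide) (by decide) p3 p4 p5
      | exact k2 1 2 3 (by decide) (by decide) (by decide) p1 p2 p3
      | exact k2 1 2 4 (by decide) (by decide) (by decide) p1 p2 p4
      | exact k2 1 2 5 (by decide) (by decide) (by decide) p1 p2 p5
      | exact k2 1 3 4 (by decide) (by decide) (by decide) p1 p3 p4
      | exact k2 1 3 5 (by decide) (by decide) (by decide) p1 p3 p5
      | exact k2 1 4 5 (by decide) (by decide) (by decide) p1 p4 p5
      | exact k2 2 3 4 (by decide) (by decide) (by decide) p2 p3 p4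
      | exact k2 2 3 5 (by decide) (by decide) (by decide) p2 p3 p5
      | exact k2 2 4 5 (by decide) (by decide) (by decide) p2 p4 p5
      | exact k2 3 4 5 (by decide) (by decide) (by decide) p3 p4 p5

namespace GoodCellAux

theorem card_compl2 : ∀ i j : Fin 6, i < j → Fintype.card {k : Fin 6 // k ≠ i ∧ k ≠ j} = 4 := by
  decide

theorem card_compl3 : ∀ i j l : Fin 6, i < j → j < l →
    Fintype.card {k : Fin 6 // k ≠ i ∧ k ≠ j ∧ k ≠ l} = 3 := by
  decide

theorem pair_count {α : Type*} [DecidableEq α] (V : Finset α) (R : α → α → Prop)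
    [DecidableRel R] {i j : Fin 6} (hij : i < j) :
    ((Fintype.piFinset (fun _ : Fin 6 => V)).filter (fun f => R (f i) (f j))).card ≤
      ((V ×ˢ V).filter (fun e => R e.1 e.2)).card * V.card ^ 4 := by
  have h1 : (((V ×ˢ V).filter (fun e => R e.1 e.2)) ×ˢ
      (Fintype.piFinset (fun _ : {k : Fin 6 // k ≠ i ∧ k ≠ j} => V))).card =
      ((V ×ˢ V).filter (fun e => R e.1 e.2)).card * V.card ^ 4 := by
    rw [Finset.card_product, Fintype.card_piFinset, Finset.prod_const, Finset.card_univ,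
      card_compl2 i j hij]
  rw [← h1]
  apply Finset.card_le_card_of_injOn
    (fun f => ((f i, f j), fun k : {k : Fin 6 // k ≠ i ∧ k ≠ j} => f k.1))
  · intro f hf
    rw [Finset.mem_coe, Finset.mem_filter, Fintype.mem_piFinset] at hf
    rw [Finset.mem_coe, Finset.mem_product, Finset.mem_filter, Finset.mem_product,
      Fintype.mem_piFinset]
    exact ⟨⟨⟨hf.1 i, hf.1 j⟩, hf.2⟩, fun k => hf.1 k.1⟩
  · intro f _ g _ hfg
    simp only [Prod.mk.injEq] at hfg
    obtain ⟨⟨h2, h3⟩, h4⟩ := hfg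
    funext k
    by_cases hk : k = i
    · rw [hk]; exact h2
    by_cases hk' : k = j
    · rw [hk']; exact h3
    exact congrFun h4 ⟨k, hk, hk'⟩

theorem triple_count {α : Type*} [DecidableEq α] (V : Finset α) (R : α → α → α → Prop)
    [∀ a b c, Decidable (R a b c)] {i j l : Fin 6} (hij : i < j) (hjl : j < l) :
    ((Fintype.piFinset (fun _ : Fin 6 => V)).filter (fun f => R (f i) (f j) (f l))).card ≤
      ((V ×ˢ V ×ˢ V).filter (fun e => R e.1 e.2.1 e.2.2)).card * V.card ^ 3 := by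
  have h1 : (((V ×ˢ V ×ˢ V).filter (fun e => R e.1 e.2.1 e.2.2)) ×ˢ
      (Fintype.piFinset (fun _ : {k : Fin 6 // k ≠ i ∧ k ≠ j ∧ k ≠ l} => V))).card =
      ((V ×ˢ V ×ˢ V).filter (fun e => R e.1 e.2.1 e.2.2)).card * V.card ^ 3 := by
    rw [Finset.card_product, Fintype.card_piFinset, Finset.prod_const, Finset.card_univ,
      card_compl3 i j l hij hjl]
  rw [← h1]
  apply Finset.card_le_card_of_injOn
    (fun f => ((f i, f j, f l), fun k : {k : Fin 6 // k ≠ i ∧ k ≠ j ∧ k ≠ l} => f k.1))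
  · intro f hf
    rw [Finset.mem_coe, Finset.mem_filter, Fintype.mem_piFinset] at hf
    rw [Finset.mem_coe, Finset.mem_product, Finset.mem_filter, Finset.mem_product,
      Finset.mem_product, Fintype.mem_piFinset]
    exact ⟨⟨⟨hf.1 i, hf.1 j, hf.1 l⟩, hf.2⟩, fun k => hf.1 k.1⟩
  · intro f _ g _ hfg
    simp only [Prod.mk.injEq] at hfg
    obtain ⟨⟨h2, h3, h5⟩, h4⟩ := hfg
    funext k
    by_cases hk : k = i
    · rw [hk]; exact h2
    by_cases hk' : k = j
    · rw [hk']; exact h3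
    by_cases hk'' : k = l
    · rw [hk'']; exact h5
    exact congrFun h4 ⟨k, hk, hk', hk''⟩

/-- pairs of positions -/
def PP : Finset (Fin 6 × Fin 6) := Finset.univ.filter (fun e => e.1 < e.2)

/-- triples of positions -/
def TT : Finset (Fin 6 × Fin 6 × Fin 6) := Finset.univ.filter (fun e => e.1 < e.2.1 ∧ e.2.1 < e.2.2)

theorem card_PP : PP.card = 15 := by decide

theorem card_TT : TT.card = 20 := by decide

theorem pairs_union {α : Type*} [DecidableEq α] (V : Finset α) (R : α → α → Prop)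
    [DecidableRel R] :
    (PP.biUnion (fun e => (Fintype.piFinset (fun _ : Fin 6 => V)).filter
      (fun f => R (f e.1) (f e.2)))).card ≤
      15 * ((V ×ˢ V).filter (fun e => R e.1 e.2)).card * V.card ^ 4 := by
  refine (Finset.card_biUnion_le_card_mul _ _
    (((V ×ˢ V).filter (fun e => R e.1 e.2)).card * V.card ^ 4) ?_).trans ?_
  · intro e he
    rw [PP, Finset.mem_filter] at he
    exact pair_count V R he.2
  · rw [card_PP, mul_assoc]

theorem triples_union {α : Type*} [DecidableEq α] (V : Finset α) (R : α → α → α → Prop)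
    [∀ a b c, Decidable (R a b c)] :
    (TT.biUnion (fun e => (Fintype.piFinset (fun _ : Fin 6 => V)).filter
      (fun f => R (f e.1) (f e.2.1) (f e.2.2)))).card ≤
      20 * ((V ×ˢ V ×ˢ V).filter (fun e => R e.1 e.2.1 e.2.2)).card * V.card ^ 3 := by
  refine (Finset.card_biUnion_le_card_mul _ _
    (((V ×ˢ V ×ˢ V).filter (fun e => R e.1 e.2.1 e.2.2)).card * V.card ^ 3) ?_).trans ?_
  · intro e he
    rw [TT, Finset.mem_filter] at he
    exact triple_count V R he.2.1 he.2.2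
  · rw [card_TT, mul_assoc]

theorem eq_pairs {α : Type*} [DecidableEq α] (V : Finset α) (w : ℕ) (R : α → α → Prop)
    [DecidableRel R] (h : ∀ p ∈ V, (V.filter (fun q => R p q)).card ≤ w) :
    ((V ×ˢ V).filter (fun e => R e.1 e.2)).card ≤ w * V.card := by
  have h1 : (V ×ˢ V).filter (fun e => R e.1 e.2) =
      V.biUnion (fun p => (V.filter (fun q => R p q)).image (fun q => (p, q))) := by
    ext ⟨p, q⟩
    simp only [Finset.mem_filter, Finset.mem_product, Finset.mem_biUnion, Finset.mem_image,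
      Prod.mk.injEq]
    constructor
    · rintro ⟨⟨h1, h2⟩, h3⟩
      exact ⟨p, h1, q, ⟨h2, h3⟩, rfl, rfl⟩
    · rintro ⟨a, h1, b, ⟨h2, h3⟩, rfl, rfl⟩
      exact ⟨⟨h1, h2⟩, h3⟩
  rw [h1, mul_comm]
  refine Finset.card_biUnion_le_card_mul _ _ _ ?_
  intro p hp
  exact Finset.card_image_le.trans (h p hp)

end GoodCellAux

open GoodCellAux

theorem good_cell {α : Type*} [DecidableEq α] (V : Finset α) (w : ℕ)
    (eqc eqr cc cr : α → α → Prop) [DecidableRel eqc] [DecidableRel eqr] [DecidableRel cc]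
    [DecidableRel cr]
    (hc : ∀ p ∈ V, (V.filter (fun q => eqc p q)).card ≤ w)
    (hr : ∀ p ∈ V, (V.filter (fun q => eqr p q)).card ≤ w) :
    V.card ^ 6 ≤
      15 * ((V ×ˢ V).filter (fun e => ¬ eqc e.1 e.2 ∧ ¬ eqr e.1 e.2 ∧ cc e.1 e.2 ∧
        cr e.1 e.2)).card * V.card ^ 4 + 30 * w * V.card ^ 5 +
      20 * (((V ×ˢ V ×ˢ V).filter (fun t => ¬ eqc t.1 t.2.1 ∧ ¬ eqc t.1 t.2.2 ∧
          ¬ eqc t.2.1 t.2.2 ∧ ¬ cc t.1 t.2.1 ∧ ¬ cc t.1 t.2.2 ∧ ¬ cc t.2.1 t.2.2)).card +
        ((V ×ˢ V ×ˢ V).filter (fun t => ¬ eqr t.1 t.2.1 ∧ ¬ eqr t.1 t.2.2 ∧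
          ¬ eqr t.2.1 t.2.2 ∧ ¬ cr t.1 t.2.1 ∧ ¬ cr t.1 t.2.2 ∧ ¬ cr t.2.1 t.2.2)).card) *
        V.card ^ 3 := by
  classical
  have u1 := pairs_union V (fun a b => ¬ eqc a b ∧ ¬ eqr a b ∧ cc a b ∧ cr a b)
  have u2 := pairs_union V eqc
  have u3 := pairs_union V eqr
  have u4 := triples_union V (fun a b c => ¬ eqc a b ∧ ¬ eqc a c ∧ ¬ eqc b c ∧
    ¬ cc a b ∧ ¬ cc a c ∧ ¬ cc b c)
  have u5 := triples_union V (fun a b c => ¬ eqr a b ∧ ¬ eqr a c ∧ ¬ eqr b c ∧
    ¬ cr a b ∧ ¬ cr a c ∧ ¬ cr b c)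
  have e2 := eq_pairs V w eqc hc
  have e3 := eq_pairs V w eqr hr
  generalize hA1 : (PP.biUnion (fun e => (Fintype.piFinset (fun _ : Fin 6 => V)).filter
      (fun f => (fun a b => ¬ eqc a b ∧ ¬ eqr a b ∧ cc a b ∧ cr a b) (f e.1) (f e.2)))) = A1 at u1
  generalize hA2 : (PP.biUnion (fun e => (Fintype.piFinset (fun _ : Fin 6 => V)).filter
      (fun f => eqc (f e.1) (f e.2)))) = A2 at u2
  generalize hA3 : (PP.biUnion (fun e => (Fintype.piFinset (fun _ : Fin 6 => V)).filter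
      (fun f => eqr (f e.1) (f e.2)))) = A3 at u3
  generalize hA4 : (TT.biUnion (fun e => (Fintype.piFinset (fun _ : Fin 6 => V)).filter
      (fun f => (fun a b c => ¬ eqc a b ∧ ¬ eqc a c ∧ ¬ eqc b c ∧
    ¬ cc a b ∧ ¬ cc a c ∧ ¬ cc b c) (f e.1) (f e.2.1) (f e.2.2)))) = A4 at u4
  generalize hA5 : (TT.biUnion (fun e => (Fintype.piFinset (fun _ : Fin 6 => V)).filter
      (fun f => (fun a b c => ¬ eqr a b ∧ ¬ eqr a c ∧ ¬ eqr b c ∧
    ¬ cr a b ∧ ¬ cr a c ∧ ¬ cr b c) (f e.1) (f e.2.1) (f e.2.2)))) = A5 at u5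
  have hsub : Fintype.piFinset (fun _ : Fin 6 => V) ⊆ A1 ∪ A2 ∪ A3 ∪ A4 ∪ A5 := by
    intro f hf
    by_contra hn
    simp only [Finset.mem_union, not_or] at hn
    obtain ⟨⟨⟨⟨n1, n2⟩, n3⟩, n4⟩, n5⟩ := hn
    have m2 : ∀ i j : Fin 6, i < j → ¬ eqc (f i) (f j) := by
      intro i j hij he
      apply n2
      rw [← hA2, Finset.mem_biUnion]
      exact ⟨(i, j), by rw [PP, Finset.mem_filter]; exact ⟨Finset.mem_univ _, hij⟩,
        Finset.mem_filter.2 ⟨hf, he⟩⟩
    have m3 : ∀ i j : Fin 6, i < j → ¬ eqr (f i) (f j) := by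
      intro i j hij he
      apply n3
      rw [← hA3, Finset.mem_biUnion]
      exact ⟨(i, j), by rw [PP, Finset.mem_filter]; exact ⟨Finset.mem_univ _, hij⟩,
        Finset.mem_filter.2 ⟨hf, he⟩⟩
    have m1 : ∀ i j : Fin 6, i < j → ¬ (cc (f i) (f j) ∧ cr (f i) (f j)) := by
      intro i j hij he
      apply n1
      rw [← hA1, Finset.mem_biUnion]
      exact ⟨(i, j), by rw [PP, Finset.mem_filter]; exact ⟨Finset.mem_univ _, hij⟩,
        Finset.mem_filter.2 ⟨hf, m2 i j hij, m3 i j hij, he.1, he.2⟩⟩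
    rcases ramsey_six (fun i j => ¬ cc (f i) (f j)) (fun i j => ¬ cr (f i) (f j))
      (fun i j hij => by
        by_cases hc' : cc (f i) (f j)
        · exact Or.inr fun hr' => m1 i j hij ⟨hc', hr'⟩
        · exact Or.inl hc') with ⟨i, j, k, h1, h2, h3, h4, h5⟩ | ⟨i, j, k, h1, h2, h3, h4, h5⟩
    · apply n4
      rw [← hA4, Finset.mem_biUnion]
      exact ⟨(i, j, k), by rw [TT, Finset.mem_filter]; exact ⟨Finset.mem_univ _, h1, h2⟩,
        Finset.mem_filter.2 ⟨hf, m2 i j h1, m2 i k (h1.trans h2), m2 j k h2, h3, h4, h5⟩⟩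
    · apply n5
      rw [← hA5, Finset.mem_biUnion]
      exact ⟨(i, j, k), by rw [TT, Finset.mem_filter]; exact ⟨Finset.mem_univ _, h1, h2⟩,
        Finset.mem_filter.2 ⟨hf, m3 i j h1, m3 i k (h1.trans h2), m3 j k h2, h3, h4, h5⟩⟩
  have hcard := Finset.card_le_card hsub
  rw [Fintype.card_piFinset, Finset.prod_const, Finset.card_univ, Fintype.card_fin] at hcard
  have c1 := Finset.card_union_le (A1 ∪ A2 ∪ A3 ∪ A4) A5
  have c2 := Finset.card_union_le (A1 ∪ A2 ∪ A3) A4
  have c3 := Finset.card_union_le (A1 ∪ A2) A3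
  have c4 := Finset.card_union_le A1 A2
  have f2 : 15 * ((V ×ˢ V).filter (fun e => eqc e.1 e.2)).card * V.card ^ 4 ≤
      15 * (w * V.card) * V.card ^ 4 := by gcongr
  have f3 : 15 * ((V ×ˢ V).filter (fun e => eqr e.1 e.2)).card * V.card ^ 4 ≤
      15 * (w * V.card) * V.card ^ 4 := by gcongr
  have f4 : 15 * (w * V.card) * V.card ^ 4 + 15 * (w * V.card) * V.card ^ 4 =
      30 * w * V.card ^ 5 := by ring
  rw [mul_add, add_mul]
  linarith

end Twn
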