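import Pool.Agent.Twn.Cases
import Pool.Agent.Twn.Extract

/-!
# The grid theorem: choice of parameters
-/

namespace Twn

lemma pow_absorb {k c : ℝ} {a b : ℕ} (hk : c ≤ k) (h1 : 1 ≤ k) (h : a + 1 ≤ b) :
    c * k ^ a ≤ k ^ b := by
  calc c * k ^ a ≤ k * k ^ a := by gcongr
    _ = k ^ (a + 1) := by ring
    _ ≤ k ^ b := pow_le_pow_right₀ h1 h

/-- the parameters: `w = K^(5u)`, `D = K^e1`, `R = K^(u+δ)`, `b = K^e2`, `m = K^e3`, chain length `K^el`,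
`R / l = K^eH`, thresholds `k1`, `k2`, gain `G` -/
structure Par (K u δ g k1 k2 el G e1 e2 e3 eH : ℕ) : Prop where
  hK : 10 ^ 13 ≤ K
  h1 : e1 + δ = 4 * u
  h2 : e2 + g = u
  h3 : e3 + e2 = 5 * u + e1
  hH : eH + el = u + δ
  hk1 : δ + G + 1 ≤ k1
  hk2 : 4 * k1 + δ + G + 1 ≤ k2
  hl : G + g + 2 * δ + 4 * (k1 + k2) + 1 ≤ el
  hu : 2 * δ + 3 * g + 3 * el + 6 * (k1 + k2) + 1 ≤ u

/-- the hypothesis on the set of cells with the parameters -/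
def GH (K u δ e1 e2 : ℕ) (Γ : Finset (ℕ × ℕ)) : Prop :=
  GridHyp (K ^ (5 * u)) (K ^ e1) (K ^ (u + δ)) (K ^ e2) Γ

section

variable {K u δ g k1 k2 el G e1 e2 e3 eH : ℕ}

lemma Par.hK1 (P : Par K u δ g k1 k2 el G e1 e2 e3 eH) : 1 ≤ K :=
  le_trans (by norm_num) P.hK

lemma Par.hKr (P : Par K u δ g k1 k2 el G e1 e2 e3 eH) : (10 : ℝ) ^ 13 ≤ (K : ℝ) := by
  exact_mod_cast P.hK

lemma Par.pow_pos (P : Par K u δ g k1 k2 el G e1 e2 e3 eH) (a : ℕ) : 0 < K ^ a :=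
  Nat.pow_pos P.hK1

/-- absorb the bound of `γ`: if `c * k ^ κ * γ ≥ k ^ (15 u)` -/
lemma final_ineq {k γ den R2 c : ℝ} {κ u E : ℕ} (hk : 0 < k) (hγ : k ^ (15 * u) ≤ c * k ^ κ * γ)
    (hden : 0 < den) (hR : 0 < R2)
    (h : k ^ E * (den * R2) * (c * k ^ κ) ^ 2 ≤ (k ^ (15 * u)) ^ 2) (hc : 0 < c) :
    k ^ E ≤ γ ^ 2 / R2 / den := by
  rw [le_div_iff₀ hden, le_div_iff₀ hR]
  have h1 : (k ^ (15 * u)) ^ 2 ≤ (c * k ^ κ * γ) ^ 2 := by
    apply pow_le_pow_left₀ (by positivity) hγ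
  have h2 : 0 < (c * k ^ κ) ^ 2 := by positivity
  have h3 : k ^ E * (den * R2) * (c * k ^ κ) ^ 2 ≤ γ ^ 2 * (c * k ^ κ) ^ 2 := by
    calc _ ≤ (k ^ (15 * u)) ^ 2 := h
      _ ≤ (c * k ^ κ * γ) ^ 2 := h1
      _ = _ := by ring
  have h4 := le_of_mul_le_mul_right h3 h2
  linarith [h4]

lemma sub_LL (P : Par K u δ g k1 k2 el G e1 e2 e3 eH) (Γ : Finset (ℕ × ℕ))
    (hΓ : GH K u δ e1 e2 Γ)
    (hXr : ∀ g ∈ Γ, K ^ k1 * (Γ.filter (fun q => q.2 = g.2 ∧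
      q.1 / (K ^ (5 * u) * K ^ e1) = g.1 / (K ^ (5 * u) * K ^ e1))).card < K ^ (5 * u))
    (hXc : ∀ g ∈ Γ, K ^ k1 * (Γ.filter (fun q => q.1 = g.1 ∧
      q.2 / (K ^ (5 * u) * K ^ e1) = g.2 / (K ^ (5 * u) * K ^ e1))).card < K ^ (5 * u))
    (hγ : K ^ (15 * u) ≤ 40 * Γ.card) :
    GTw Γ ((K : ℝ) ^ (9 * u + G)) := by
  obtain ⟨eX, hX⟩ : ∃ eX, eX + k1 = 5 * u := ⟨5 * u - k1, by have := P.hk2; have := P.hu; omega⟩
  have hXb : ∀ n, K ^ k1 * n < K ^ (5 * u) → n ≤ K ^ eX := by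
    intro n hn
    rw [← hX, pow_add, Nat.mul_comm (K ^ eX)] at hn
    exact (Nat.lt_of_mul_lt_mul_left hn).le
  have hKr := P.hKr
  have hk1 : (1 : ℝ) ≤ K := by exact_mod_cast P.hK1
  have hk0 : (0 : ℝ) < K := by linarith
  have h480 : 480 * K ^ (5 * u) * (K ^ (u + δ)) ^ 2 ≤ Γ.card := by
    have h : (480 : ℝ) * K ^ (5 * u) * (K ^ (u + δ)) ^ 2 * 40 ≤ (K : ℝ) ^ (15 * u) := by
      calc (480 : ℝ) * K ^ (5 * u) * (K ^ (u + δ)) ^ 2 * 40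
          = 19200 * (K : ℝ) ^ (7 * u + 2 * δ) := by ring
        _ ≤ (K : ℝ) ^ (15 * u) := pow_absorb (by linarith) hk1 (by have := P.hu; omega)
    have h' : 480 * K ^ (5 * u) * (K ^ (u + δ)) ^ 2 * 40 ≤ K ^ (15 * u) := by exact_mod_cast h
    omega
  have key := case_LL (K ^ (u + δ)) (K ^ (5 * u)) (K ^ e1) (K ^ e2) (K ^ eX) (P.pow_pos _)
    (P.pow_pos _) (P.pow_pos _) Γ hΓ (fun g hg => hXb _ (hXr g hg)) (fun g hg => hXb _ (hXc g hg))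
    h480
  refine GTw.mono key (Finset.Subset.refl _) ?_
  push_cast
  obtain ⟨ee, hee⟩ : ∃ ee, ee + e1 = eX := ⟨eX - e1, by
    have := P.hk2; have := P.hu; have := P.hl; have := P.h1; omega⟩
  have hXD : ((K : ℝ) ^ eX / (K : ℝ) ^ e1) = (K : ℝ) ^ ee := by
    rw [← hee, pow_add]
    field_simp
  rw [hXD]
  have hee1 : (1 : ℝ) ≤ (K : ℝ) ^ ee := one_le_pow₀ hk1
  refine final_ineq (κ := 0) (c := 40) (u := u) hk0 ?_ (by positivity) (by positivity) ?_ (by norm_num)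
  · have : ((K ^ (15 * u) : ℕ) : ℝ) ≤ ((40 * Γ.card : ℕ) : ℝ) := by exact_mod_cast hγ
    push_cast at this
    simpa using this
  · have hb : (1 + 2 * (200 * (1 + (K : ℝ) ^ ee) + 200 * (1 + (K : ℝ) ^ ee))) ≤
        1601 * (K : ℝ) ^ ee := by linarith
    calc (K : ℝ) ^ (9 * u + G) * (2 * (4 * ((K : ℝ) ^ (5 * u) * (K : ℝ) ^ e1)) *
          (4 * ((K : ℝ) ^ (5 * u) * (K : ℝ) ^ e1)) *
          (1 + 2 * (200 * (1 + (K : ℝ) ^ ee) + 200 * (1 + (K : ℝ) ^ ee))) *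
          (120 * ((K : ℝ) ^ (u + δ)) ^ 2)) * (40 * (K : ℝ) ^ 0) ^ 2
        ≤ (K : ℝ) ^ (9 * u + G) * (2 * (4 * ((K : ℝ) ^ (5 * u) * (K : ℝ) ^ e1)) *
          (4 * ((K : ℝ) ^ (5 * u) * (K : ℝ) ^ e1)) *
          (1601 * (K : ℝ) ^ ee) *
          (120 * ((K : ℝ) ^ (u + δ)) ^ 2)) * (40 * (K : ℝ) ^ 0) ^ 2 := by gcongr
      _ = (2 * 16 * 1601 * 120 * 1600) *
          (K : ℝ) ^ ((9 * u + G) + 2 * (5 * u + e1) + ee + 2 * (u + δ)) := by ring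
      _ ≤ (K : ℝ) ^ (30 * u) := by
          refine pow_absorb ?_ hk1 ?_
          · refine le_trans ?_ hKr
            norm_num
          · have h1 := P.h1
            have h2 := P.hk1
            omega
      _ = ((K : ℝ) ^ (15 * u)) ^ 2 := by ring

lemma Par.facts (P : Par K u δ g k1 k2 el G e1 e2 e3 eH) :
    K ^ e3 * K ^ e2 = K ^ (5 * u) * K ^ e1 ∧ K ^ e2 ≤ K ^ e1 ∧ K ^ (u + δ) / K ^ el = K ^ eH := by
  refine ⟨?_, ?_, ?_⟩
  · rw [← pow_add, ← pow_add, P.h3]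
  · refine Nat.pow_le_pow_right P.hK1 ?_
    have := P.h1; have := P.h2; have := P.hu
    omega
  · rw [← P.hH, pow_add]
    exact Nat.mul_div_cancel _ (P.pow_pos _)

/-- the two size conditions for sets which lost at most `C K^κ`, `κ ≤ 2 (k1 + k2)` -/
lemma Par.size (P : Par K u δ g k1 k2 el G e1 e2 e3 eH) {C κ γ : ℕ} (hC : C ≤ 640)
    (hκ : κ ≤ 2 * (k1 + k2)) (hγ : K ^ (15 * u) ≤ C * K ^ κ * γ) :
    480 * K ^ (5 * u) * (K ^ (u + δ)) ^ 2 ≤ γ ∧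
    1280 * ((K ^ e3) ^ 3 * (K ^ el) ^ 3 * (K ^ (5 * u)) ^ 3) * (K ^ (u + δ)) ^ 5 ≤ γ ^ 3 := by
  have hKr := P.hKr
  have hk1 : (1 : ℝ) ≤ K := by exact_mod_cast P.hK1
  have hk0 : (0 : ℝ) < K := by linarith
  have hC' : (C : ℝ) ≤ 640 := by exact_mod_cast hC
  have hγr : (K : ℝ) ^ (15 * u) ≤ 640 * (K : ℝ) ^ κ * γ := by
    have : ((K ^ (15 * u) : ℕ) : ℝ) ≤ ((C * K ^ κ * γ : ℕ) : ℝ) := by exact_mod_cast hγ
    push_cast at this
    refine le_trans this ?_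
    gcongr
  have h1 := P.h1
  have h2 := P.h2
  have h3 := P.h3
  have hH := P.hH
  have hu := P.hu
  constructor
  · have h : (480 : ℝ) * K ^ (5 * u) * (K ^ (u + δ)) ^ 2 * (640 * (K : ℝ) ^ κ) ≤
        γ * (640 * (K : ℝ) ^ κ) := by
      calc (480 : ℝ) * K ^ (5 * u) * (K ^ (u + δ)) ^ 2 * (640 * (K : ℝ) ^ κ)
          = (480 * 640) * (K : ℝ) ^ (7 * u + 2 * δ + κ) := by ring
        _ ≤ (K : ℝ) ^ (15 * u) := pow_absorb (by linarith) hk1 (by omega)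
        _ ≤ 640 * (K : ℝ) ^ κ * γ := hγr
        _ = γ * (640 * (K : ℝ) ^ κ) := by ring
    have h' := le_of_mul_le_mul_right h (by positivity)
    exact_mod_cast h'
  · have h : (1280 : ℝ) * (((K : ℝ) ^ e3) ^ 3 * (K ^ el) ^ 3 * (K ^ (5 * u)) ^ 3) *
        (K ^ (u + δ)) ^ 5 * (640 * (K : ℝ) ^ κ) ^ 3 ≤ (γ : ℝ) ^ 3 * (640 * (K : ℝ) ^ κ) ^ 3 := by
      calc (1280 : ℝ) * (((K : ℝ) ^ e3) ^ 3 * (K ^ el) ^ 3 * (K ^ (5 * u)) ^ 3) *
            (K ^ (u + δ)) ^ 5 * (640 * (K : ℝ) ^ κ) ^ 3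
          = (1280 * 640 ^ 3) * (K : ℝ) ^ (3 * e3 + 3 * el + 15 * u + 5 * (u + δ) + 3 * κ) := by
            ring
        _ ≤ (K : ℝ) ^ (45 * u) := by
            refine pow_absorb ?_ hk1 (by omega)
            refine le_trans ?_ hKr
            norm_num
        _ = ((K : ℝ) ^ (15 * u)) ^ 3 := by ring
        _ ≤ (640 * (K : ℝ) ^ κ * γ) ^ 3 := by gcongr
        _ = (γ : ℝ) ^ 3 * (640 * (K : ℝ) ^ κ) ^ 3 := by ring
    have h' := le_of_mul_le_mul_right h (by positivity)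
    exact_mod_cast h'

lemma sub_AL (P : Par K u δ g k1 k2 el G e1 e2 e3 eH) (Γ1 Γ : Finset (ℕ × ℕ)) (hs : Γ ⊆ Γ1)
    (hΓ : GH K u δ e1 e2 Γ1)
    (hheavy : ∀ g ∈ Γ, K ^ (5 * u) ≤ K ^ k1 * (Γ1.filter (fun q => q.1 = g.1 ∧
      q.2 / (K ^ (5 * u) * K ^ e1) = g.2 / (K ^ (5 * u) * K ^ e1))).card)
    (hXr : ∀ g ∈ Γ, K ^ k2 * (Γ.filter (fun q => q.2 = g.2 ∧
      q.1 / (K ^ (5 * u) * K ^ e1) = g.1 / (K ^ (5 * u) * K ^ e1))).card < K ^ (5 * u))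
    (hγ : K ^ (15 * u) ≤ 40 * Γ.card) :
    GTw Γ ((K : ℝ) ^ (9 * u + G)) := by
  obtain ⟨Γ2, hΓ2, lam, hlam, huniq, hcard⟩ := label_extract (K ^ (5 * u)) (K ^ e1) (K ^ e2)
    (K ^ k1) (P.pow_pos _) (P.pow_pos _) (P.pow_pos _) Γ1 Γ hs hΓ.2.1 hΓ.2.2.2.1 hheavy
  obtain ⟨eX, hX⟩ : ∃ eX, eX + k2 = 5 * u := ⟨5 * u - k2, by have := P.hu; omega⟩
  have hXb : ∀ n, K ^ k2 * n < K ^ (5 * u) → n ≤ K ^ eX := by
    intro n hn
    rw [← hX, pow_add, Nat.mul_comm (K ^ eX)] at hn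
    exact (Nat.lt_of_mul_lt_mul_left hn).le
  have hKr := P.hKr
  have hk1 : (1 : ℝ) ≤ K := by exact_mod_cast P.hK1
  have hk0 : (0 : ℝ) < K := by linarith
  have hγ2 : K ^ (15 * u) ≤ 160 * K ^ (2 * k1) * Γ2.card := by
    calc K ^ (15 * u) ≤ 40 * Γ.card := hγ
      _ ≤ 40 * (4 * (K ^ k1) ^ 2 * Γ2.card) := Nat.mul_le_mul_left _ hcard
      _ = 160 * K ^ (2 * k1) * Γ2.card := by ring
  obtain ⟨hs1, hs2⟩ := P.size (C := 160) (κ := 2 * k1) (by norm_num) (by omega) hγ2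
  obtain ⟨hmb, hbD, hRl⟩ := P.facts
  have key := case_AL (K ^ (u + δ)) (K ^ (5 * u)) (K ^ e1) (K ^ e2) (K ^ e3) (K ^ el) (K ^ eX)
    (P.pow_pos _) (P.pow_pos _) (P.pow_pos _) (P.pow_pos _) (P.pow_pos _) (P.pow_pos _)
    (by rw [hRl]; exact P.pow_pos _) hmb hbD Γ2 ((hΓ.mono hs).mono hΓ2)
    (by
      intro g hg
      refine le_trans (Finset.card_le_card ?_) (hXb _ (hXr g (hΓ2 hg)))
      exact Finset.filter_subset_filter _ hΓ2)
    lam hlam huniq hs1 hs2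
  rw [hRl] at key
  refine GTw.mono key hΓ2 ?_
  push_cast
  have h1 := P.h1
  have h2 := P.h2
  have h3 := P.h3
  have hH := P.hH
  have hu := P.hu
  have hpk2 := P.hk2
  have hpl := P.hl
  have hpk1 := P.hk1
  -- exponent of the conflict term
  obtain ⟨ee, hee⟩ : ∃ ee, ee + k2 + g = u + el := ⟨u + el - k2 - g, by omega⟩
  have hee1 : (1 : ℝ) ≤ (K : ℝ) ^ ee := one_le_pow₀ hk1
  -- first term
  have ht1 : (200 / (K : ℝ) ^ eH) * (1 + (K : ℝ) ^ eX * (K : ℝ) ^ e2 / (K : ℝ) ^ e1) ≤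
      400 * (K : ℝ) ^ ee := by
    rw [div_mul_eq_mul_div, div_le_iff₀ (by positivity)]
    obtain ⟨a, ha⟩ : ∃ a, a + e1 = eX + e2 := ⟨eX + e2 - e1, by omega⟩
    have hx : (K : ℝ) ^ eX * (K : ℝ) ^ e2 / (K : ℝ) ^ e1 = (K : ℝ) ^ a := by
      rw [← pow_add, ← ha, pow_add]
      field_simp
    rw [hx]
    have ha1 : (1 : ℝ) ≤ (K : ℝ) ^ a := one_le_pow₀ hk1
    have : (K : ℝ) ^ ee * (K : ℝ) ^ eH = (K : ℝ) ^ a := by
      rw [← pow_add]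
      congr 1
      omega
    rw [mul_assoc, this]
    linarith
  have ht2 : 200 * (1 + (K : ℝ) ^ (5 * u) / (K : ℝ) ^ e1) ≤ 400 * (K : ℝ) ^ ee := by
    have hx : (K : ℝ) ^ (5 * u) / (K : ℝ) ^ e1 = (K : ℝ) ^ (u + δ) := by
      have : 5 * u = (u + δ) + e1 := by omega
      rw [this, pow_add]
      field_simp
    rw [hx]
    have : (K : ℝ) ^ (u + δ) ≤ (K : ℝ) ^ ee := pow_le_pow_right₀ hk1 (by omega)
    linarith
  refine final_ineq (κ := 2 * k1) (c := 160) (u := u) hk0 ?_ (by positivity) (by positivity) ?_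
    (by norm_num)
  · have : ((K ^ (15 * u) : ℕ) : ℝ) ≤ ((160 * K ^ (2 * k1) * Γ2.card : ℕ) : ℝ) := by
      exact_mod_cast hγ2
    push_cast at this
    exact this
  · have hb : (1 + 2 * ((200 / (K : ℝ) ^ eH) * (1 + (K : ℝ) ^ eX * (K : ℝ) ^ e2 / (K : ℝ) ^ e1) +
        200 * (1 + (K : ℝ) ^ (5 * u) / (K : ℝ) ^ e1))) ≤ 1601 * (K : ℝ) ^ ee := by linarith
    calc (K : ℝ) ^ (9 * u + G) * (2 * (4 * (K : ℝ) ^ e3 * (K : ℝ) ^ eH) *
          (4 * ((K : ℝ) ^ (5 * u) * (K : ℝ) ^ e1)) *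
          (1 + 2 * ((200 / (K : ℝ) ^ eH) * (1 + (K : ℝ) ^ eX * (K : ℝ) ^ e2 / (K : ℝ) ^ e1) +
            200 * (1 + (K : ℝ) ^ (5 * u) / (K : ℝ) ^ e1))) *
          (120 * ((K : ℝ) ^ (u + δ)) ^ 2)) * (160 * (K : ℝ) ^ (2 * k1)) ^ 2
        ≤ (K : ℝ) ^ (9 * u + G) * (2 * (4 * (K : ℝ) ^ e3 * (K : ℝ) ^ eH) *
          (4 * ((K : ℝ) ^ (5 * u) * (K : ℝ) ^ e1)) *
          (1601 * (K : ℝ) ^ ee) *
          (120 * ((K : ℝ) ^ (u + δ)) ^ 2)) * (160 * (K : ℝ) ^ (2 * k1)) ^ 2 := by gcongr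
      _ = (2 * 16 * 1601 * 120 * 25600) *
          (K : ℝ) ^ ((9 * u + G) + (e3 + eH) + (5 * u + e1) + ee + 2 * (u + δ) + 4 * k1) := by
            ring
      _ ≤ (K : ℝ) ^ (30 * u) := by
          refine pow_absorb ?_ hk1 ?_
          · refine le_trans ?_ hKr
            norm_num
          · omega
      _ = ((K : ℝ) ^ (15 * u)) ^ 2 := by ring

lemma sub_AA (P : Par K u δ g k1 k2 el G e1 e2 e3 eH) (Γ1 Γ : Finset (ℕ × ℕ)) (hs : Γ ⊆ Γ1)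
    (hΓ : GH K u δ e1 e2 Γ1)
    (hheavy : ∀ g ∈ Γ, K ^ (5 * u) ≤ K ^ k1 * (Γ1.filter (fun q => q.1 = g.1 ∧
      q.2 / (K ^ (5 * u) * K ^ e1) = g.2 / (K ^ (5 * u) * K ^ e1))).card)
    (hheavy2 : ∀ g ∈ Γ, K ^ (5 * u) ≤ K ^ k2 * (Γ1.filter (fun q => q.2 = g.2 ∧
      q.1 / (K ^ (5 * u) * K ^ e1) = g.1 / (K ^ (5 * u) * K ^ e1))).card)
    (hγ : K ^ (15 * u) ≤ 40 * Γ.card) :
    GTw Γ ((K : ℝ) ^ (9 * u + G)) := by
  obtain ⟨Γ2, hΓ2, lam, hlam, huniq, hcard⟩ := label_extract (K ^ (5 * u)) (K ^ e1) (K ^ e2)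
    (K ^ k1) (P.pow_pos _) (P.pow_pos _) (P.pow_pos _) Γ1 Γ hs hΓ.2.1 hΓ.2.2.2.1 hheavy
  have hswap : ∀ (S : Finset (ℕ × ℕ)) (p : ℕ × ℕ → Prop) [DecidablePred p]
      [DecidablePred (fun q : ℕ × ℕ => p q.swap)],
      ((S.image Prod.swap).filter p).card = (S.filter (fun q => p q.swap)).card := by
    intro S p _ _
    have : (S.image Prod.swap).filter p = (S.filter (fun q => p q.swap)).image Prod.swap := by
      ext q
      simp only [Finset.mem_filter, Finset.mem_image]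
      constructor
      · rintro ⟨⟨a, ha, rfl⟩, h⟩
        exact ⟨a, ⟨ha, h⟩, rfl⟩
      · rintro ⟨a, ⟨ha, h⟩, rfl⟩
        exact ⟨⟨a, ha, rfl⟩, h⟩
    rw [this, Finset.card_image_of_injective _ Prod.swap_injective]
  have hΓs := GridHyp.swap hΓ
  obtain ⟨Γ3', hΓ3', mu, hmu, huniq2, hcard2⟩ := label_extract (K ^ (5 * u)) (K ^ e1) (K ^ e2)
    (K ^ k2) (P.pow_pos _) (P.pow_pos _) (P.pow_pos _) (Γ1.image Prod.swap) (Γ2.image Prod.swap)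
    (Finset.image_subset_image (hΓ2.trans hs)) hΓs.2.1 hΓs.2.2.2.1
    (by
      intro g hg
      obtain ⟨q, hq, rfl⟩ := Finset.mem_image.mp hg
      have := hheavy2 q (hΓ2 hq)
      rw [hswap]
      exact this)
  -- back to the original orientation
  obtain ⟨Γ3, hΓ3, rfl⟩ : ∃ Γ3 ⊆ Γ2, Γ3' = Γ3.image Prod.swap := by
    refine ⟨Γ3'.image Prod.swap, ?_, ?_⟩
    · intro q hq
      obtain ⟨a, ha, rfl⟩ := Finset.mem_image.mp hq
      obtain ⟨c, hc, h⟩ := Finset.mem_image.mp (hΓ3' ha)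
      rw [← h]
      simpa using hc
    · rw [Finset.image_image]
      simp
  have hcard3 : Γ2.card ≤ 4 * (K ^ k2) ^ 2 * Γ3.card := by
    rw [Finset.card_image_of_injective _ Prod.swap_injective,
      Finset.card_image_of_injective _ Prod.swap_injective] at hcard2
    exact hcard2
  have hKr := P.hKr
  have hk1 : (1 : ℝ) ≤ K := by exact_mod_cast P.hK1
  have hk0 : (0 : ℝ) < K := by linarith
  have hγ3 : K ^ (15 * u) ≤ 640 * K ^ (2 * (k1 + k2)) * Γ3.card := by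
    calc K ^ (15 * u) ≤ 40 * Γ.card := hγ
      _ ≤ 40 * (4 * (K ^ k1) ^ 2 * Γ2.card) := Nat.mul_le_mul_left _ hcard
      _ ≤ 40 * (4 * (K ^ k1) ^ 2 * (4 * (K ^ k2) ^ 2 * Γ3.card)) :=
          Nat.mul_le_mul_left _ (Nat.mul_le_mul_left _ hcard3)
      _ = 640 * K ^ (2 * (k1 + k2)) * Γ3.card := by ring
  obtain ⟨hs1, hs2⟩ := P.size (C := 640) (κ := 2 * (k1 + k2)) (by norm_num) (by omega) hγ3
  obtain ⟨hmb, hbD, hRl⟩ := P.facts
  have key := case_AA (K ^ (u + δ)) (K ^ (5 * u)) (K ^ e1) (K ^ e2) (K ^ e3) (K ^ el)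
    (P.pow_pos _) (P.pow_pos _) (P.pow_pos _) (P.pow_pos _) (P.pow_pos _) (P.pow_pos _)
    (by rw [hRl]; exact P.pow_pos _) hmb hbD Γ3 (((hΓ.mono hs).mono hΓ2).mono hΓ3)
    lam (fun g hg => hlam g (hΓ3 hg)) (fun g hg h hh => huniq g (hΓ3 hg) h (hΓ3 hh))
    mu
    (by
      intro g hg
      exact hmu g.swap (Finset.mem_image_of_mem _ hg))
    (by
      intro g hg h hh
      exact huniq2 g.swap (Finset.mem_image_of_mem _ hg) h.swap (Finset.mem_image_of_mem _ hh))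
    hs1 hs2
  rw [hRl] at key
  refine GTw.mono key (hΓ3.trans hΓ2) ?_
  push_cast
  have h1 := P.h1
  have h2 := P.h2
  have h3 := P.h3
  have hH := P.hH
  have hu := P.hu
  have hpk2 := P.hk2
  have hpl := P.hl
  have hpk1 := P.hk1
  obtain ⟨ee, hee⟩ : ∃ ee, ee + g = u + el := ⟨u + el - g, by omega⟩
  have hee1 : (1 : ℝ) ≤ (K : ℝ) ^ ee := one_le_pow₀ hk1
  have ht1 : (200 / (K : ℝ) ^ eH) * (1 + (K : ℝ) ^ (5 * u) * (K : ℝ) ^ e2 / (K : ℝ) ^ e1) ≤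
      400 * (K : ℝ) ^ ee := by
    rw [div_mul_eq_mul_div, div_le_iff₀ (by positivity)]
    obtain ⟨a, ha⟩ : ∃ a, a + e1 = 5 * u + e2 := ⟨5 * u + e2 - e1, by omega⟩
    have hx : (K : ℝ) ^ (5 * u) * (K : ℝ) ^ e2 / (K : ℝ) ^ e1 = (K : ℝ) ^ a := by
      rw [← pow_add, ← ha, pow_add]
      field_simp
    rw [hx]
    have ha1 : (1 : ℝ) ≤ (K : ℝ) ^ a := one_le_pow₀ hk1
    have : (K : ℝ) ^ ee * (K : ℝ) ^ eH = (K : ℝ) ^ a := by
      rw [← pow_add]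
      congr 1
      omega
    rw [mul_assoc, this]
    linarith
  refine final_ineq (κ := 2 * (k1 + k2)) (c := 640) (u := u) hk0 ?_ (by positivity)
    (by positivity) ?_ (by norm_num)
  · have : ((K ^ (15 * u) : ℕ) : ℝ) ≤ ((640 * K ^ (2 * (k1 + k2)) * Γ3.card : ℕ) : ℝ) := by
      exact_mod_cast hγ3
    push_cast at this
    exact this
  · have hb : (1 + 2 * ((200 / (K : ℝ) ^ eH) *
        (1 + (K : ℝ) ^ (5 * u) * (K : ℝ) ^ e2 / (K : ℝ) ^ e1) +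
        (200 / (K : ℝ) ^ eH) * (1 + (K : ℝ) ^ (5 * u) * (K : ℝ) ^ e2 / (K : ℝ) ^ e1))) ≤
        1601 * (K : ℝ) ^ ee := by linarith
    calc (K : ℝ) ^ (9 * u + G) * (2 * (4 * (K : ℝ) ^ e3 * (K : ℝ) ^ eH) *
          (4 * (K : ℝ) ^ e3 * (K : ℝ) ^ eH) *
          (1 + 2 * ((200 / (K : ℝ) ^ eH) *
            (1 + (K : ℝ) ^ (5 * u) * (K : ℝ) ^ e2 / (K : ℝ) ^ e1) +
            (200 / (K : ℝ) ^ eH) * (1 + (K : ℝ) ^ (5 * u) * (K : ℝ) ^ e2 / (K : ℝ) ^ e1))) *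
          (120 * ((K : ℝ) ^ (u + δ)) ^ 2)) * (640 * (K : ℝ) ^ (2 * (k1 + k2))) ^ 2
        ≤ (K : ℝ) ^ (9 * u + G) * (2 * (4 * (K : ℝ) ^ e3 * (K : ℝ) ^ eH) *
          (4 * (K : ℝ) ^ e3 * (K : ℝ) ^ eH) *
          (1601 * (K : ℝ) ^ ee) *
          (120 * ((K : ℝ) ^ (u + δ)) ^ 2)) * (640 * (K : ℝ) ^ (2 * (k1 + k2))) ^ 2 := by gcongr
      _ = (2 * 16 * 1601 * 120 * 409600) *
          (K : ℝ) ^ ((9 * u + G) + 2 * (e3 + eH) + ee + 2 * (u + δ) + 4 * (k1 + k2)) := by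
            ring
      _ ≤ (K : ℝ) ^ (30 * u) := by
          refine pow_absorb ?_ hk1 ?_
          · refine le_trans ?_ hKr
            norm_num
          · omega
      _ = ((K : ℝ) ^ (15 * u)) ^ 2 := by ring

lemma swap_filter_card (S : Finset (ℕ × ℕ)) (p q : ℕ × ℕ → Prop) [DecidablePred p]
    [DecidablePred q] (h : ∀ x, p x.swap ↔ q x) :
    ((S.image Prod.swap).filter p).card = (S.filter q).card := by
  have : (S.image Prod.swap).filter p = (S.filter q).image Prod.swap := by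
    ext x
    simp only [Finset.mem_filter, Finset.mem_image]
    constructor
    · rintro ⟨⟨a, ha, rfl⟩, h1⟩
      exact ⟨a, ⟨ha, (h a).mp h1⟩, rfl⟩
    · rintro ⟨a, ⟨ha, h1⟩, rfl⟩
      exact ⟨⟨a, ha, rfl⟩, (h a).mpr h1⟩
  rw [this, Finset.card_image_of_injective _ Prod.swap_injective]

/-- number of cells of `Γ` in the same column and macro row -/
def qc (d0 : ℕ) (Γ : Finset (ℕ × ℕ)) (g : ℕ × ℕ) : ℕ :=
  (Γ.filter (fun q => q.1 = g.1 ∧ q.2 / d0 = g.2 / d0)).card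

/-- number of cells of `Γ` in the same row and macro column -/
def qr (d0 : ℕ) (Γ : Finset (ℕ × ℕ)) (g : ℕ × ℕ) : ℕ :=
  (Γ.filter (fun q => q.2 = g.2 ∧ q.1 / d0 = g.1 / d0)).card

lemma qc_mono {d0 : ℕ} {Γ Γ' : Finset (ℕ × ℕ)} (h : Γ' ⊆ Γ) (g : ℕ × ℕ) :
    qc d0 Γ' g ≤ qc d0 Γ g :=
  Finset.card_le_card (Finset.filter_subset_filter _ h)

lemma qr_mono {d0 : ℕ} {Γ Γ' : Finset (ℕ × ℕ)} (h : Γ' ⊆ Γ) (g : ℕ × ℕ) :
    qr d0 Γ' g ≤ qr d0 Γ g :=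
  Finset.card_le_card (Finset.filter_subset_filter _ h)

lemma qc_swap (d0 : ℕ) (Γ : Finset (ℕ × ℕ)) (g : ℕ × ℕ) :
    qc d0 (Γ.image Prod.swap) g.swap = qr d0 Γ g := by
  unfold qc qr
  apply swap_filter_card
  intro x
  simp

lemma qr_swap (d0 : ℕ) (Γ : Finset (ℕ × ℕ)) (g : ℕ × ℕ) :
    qr d0 (Γ.image Prod.swap) g.swap = qc d0 Γ g := by
  unfold qc qr
  apply swap_filter_card
  intro x
  simp

theorem grid_main (P : Par K u δ g k1 k2 el G e1 e2 e3 eH) (Γ : Finset (ℕ × ℕ))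
    (hΓ : GH K u δ e1 e2 Γ) (hγ : K ^ (15 * u) ≤ 8 * Γ.card) :
    GTw Γ ((K : ℝ) ^ (9 * u + G)) := by
  classical
  set d0 := K ^ (5 * u) * K ^ e1 with hd0
  let Ac : ℕ × ℕ → Prop := fun g => K ^ (5 * u) ≤ K ^ k1 * qc d0 Γ g
  let Ar : ℕ × ℕ → Prop := fun g => K ^ (5 * u) ≤ K ^ k1 * qr d0 Γ g
  let Hc : ℕ × ℕ → Prop := fun g => K ^ (5 * u) ≤ K ^ k2 * qc d0 Γ g
  let Hr : ℕ × ℕ → Prop := fun g => K ^ (5 * u) ≤ K ^ k2 * qr d0 Γ g
  set S1 := Γ.filter (fun g => ¬ Ac g ∧ ¬ Ar g) with hS1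
  set S2 := Γ.filter (fun g => Ac g ∧ ¬ Hr g) with hS2
  set S3 := Γ.filter (fun g => Ar g ∧ ¬ Hc g) with hS3
  set S4 := Γ.filter (fun g => Ac g ∧ Hr g) with hS4
  set S5 := Γ.filter (fun g => Ar g ∧ Hc g) with hS5
  have hcov : Γ ⊆ S1 ∪ S2 ∪ S3 ∪ S4 ∪ S5 := by
    intro g hg
    simp only [Finset.mem_union, hS1, hS2, hS3, hS4, hS5, Finset.mem_filter]
    by_cases h1 : Ac g <;> by_cases h2 : Ar g <;> by_cases h3 : Hc g <;> by_cases h4 : Hr g <;>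
      simp [h1, h2, h3, h4, hg]
  have hsum : Γ.card ≤ S1.card + S2.card + S3.card + S4.card + S5.card := by
    refine le_trans (Finset.card_le_card hcov) ?_
    refine le_trans (Finset.card_union_le _ _) (Nat.add_le_add_right ?_ _)
    refine le_trans (Finset.card_union_le _ _) (Nat.add_le_add_right ?_ _)
    refine le_trans (Finset.card_union_le _ _) (Nat.add_le_add_right ?_ _)
    exact Finset.card_union_le _ _
  have hcases : K ^ (15 * u) ≤ 40 * S1.card ∨ K ^ (15 * u) ≤ 40 * S2.card ∨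
      K ^ (15 * u) ≤ 40 * S3.card ∨ K ^ (15 * u) ≤ 40 * S4.card ∨ K ^ (15 * u) ≤ 40 * S5.card := by
    by_contra hcon
    push Not at hcon
    omega
  have hΓs : GH K u δ e1 e2 (Γ.image Prod.swap) := GridHyp.swap hΓ
  rcases hcases with h | h | h | h | h
  · refine GTw.mono (sub_LL P S1 (GridHyp.mono hΓ (Finset.filter_subset _ _)) ?_ ?_ h)
      (Finset.filter_subset _ _) le_rfl
    · intro g hg
      have hg' := (Finset.mem_filter.mp hg).2.2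
      refine lt_of_le_of_lt (Nat.mul_le_mul_left _ (qr_mono (d0 := d0)
        (Finset.filter_subset (fun g => ¬ Ac g ∧ ¬ Ar g) Γ) g)) (not_le.mp hg')
    · intro g hg
      have hg' := (Finset.mem_filter.mp hg).2.1
      refine lt_of_le_of_lt (Nat.mul_le_mul_left _ (qc_mono (d0 := d0)
        (Finset.filter_subset (fun g => ¬ Ac g ∧ ¬ Ar g) Γ) g)) (not_le.mp hg')
  · refine GTw.mono (sub_AL P Γ S2 (Finset.filter_subset _ _) hΓ ?_ ?_ h)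
      (Finset.filter_subset _ _) le_rfl
    · intro g hg
      exact (Finset.mem_filter.mp hg).2.1
    · intro g hg
      have hg' := (Finset.mem_filter.mp hg).2.2
      refine lt_of_le_of_lt (Nat.mul_le_mul_left _ (qr_mono (d0 := d0)
        (Finset.filter_subset (fun g => Ac g ∧ ¬ Hr g) Γ) g)) (not_le.mp hg')
  · refine GTw.mono (GTw.swap (sub_AL P (Γ.image Prod.swap) (S3.image Prod.swap)
      (Finset.image_subset_image (Finset.filter_subset _ _)) hΓs ?_ ?_ ?_))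
      (Finset.filter_subset _ _) le_rfl
    · intro g hg
      obtain ⟨q, hq, rfl⟩ := Finset.mem_image.mp hg
      have hq' := (Finset.mem_filter.mp hq).2.1
      have := qc_swap d0 Γ q
      change K ^ (5 * u) ≤ K ^ k1 * qc d0 (Γ.image Prod.swap) q.swap
      rw [this]
      exact hq'
    · intro g hg
      obtain ⟨q, hq, rfl⟩ := Finset.mem_image.mp hg
      have hq' := (Finset.mem_filter.mp hq).2.2
      change K ^ k2 * qr d0 (S3.image Prod.swap) q.swap < K ^ (5 * u)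
      rw [qr_swap]
      refine lt_of_le_of_lt (Nat.mul_le_mul_left _ (qc_mono (d0 := d0)
        (Finset.filter_subset (fun g => Ar g ∧ ¬ Hc g) Γ) q)) (not_le.mp hq')
    · rw [Finset.card_image_of_injective _ Prod.swap_injective]
      exact h
  · refine GTw.mono (sub_AA P Γ S4 (Finset.filter_subset _ _) hΓ ?_ ?_ h)
      (Finset.filter_subset _ _) le_rfl
    · intro g hg
      exact (Finset.mem_filter.mp hg).2.1
    · intro g hg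
      exact (Finset.mem_filter.mp hg).2.2
  · refine GTw.mono (GTw.swap (sub_AA P (Γ.image Prod.swap) (S5.image Prod.swap)
      (Finset.image_subset_image (Finset.filter_subset _ _)) hΓs ?_ ?_ ?_))
      (Finset.filter_subset _ _) le_rfl
    · intro g hg
      obtain ⟨q, hq, rfl⟩ := Finset.mem_image.mp hg
      have hq' := (Finset.mem_filter.mp hq).2.1
      change K ^ (5 * u) ≤ K ^ k1 * qc d0 (Γ.image Prod.swap) q.swap
      rw [qc_swap]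
      exact hq'
    · intro g hg
      obtain ⟨q, hq, rfl⟩ := Finset.mem_image.mp hg
      have hq' := (Finset.mem_filter.mp hq).2.2
      change K ^ (5 * u) ≤ K ^ k2 * qr d0 (Γ.image Prod.swap) q.swap
      rw [qr_swap]
      exact hq'
    · rw [Finset.card_image_of_injective _ Prod.swap_injective]
      exact h

end

end Twn
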