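import Pool.Agent.Twn.Basic

/-!
# From sparse points to a sparse set of cells

A cell is `(p.1 / w, p.2 / w)`. A cell contains at most four points of `P0` (it lies in a block of `b * w`
columns and a window of height `D * w`). `Γ` = set of the cells of `P0`; choose one point in each cell.
For `GTw Γ k → Tw P k` replace each cell by its chosen point.
-/

namespace Twn

/-- hypotheses on a set of cells: `R` macro segments of `w * D` strips in both directions; any `D`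
consecutive rows meet a block of `b` columns in at most four cells, and transposed; a row or a column
contains at most `w` cells -/
def GridHyp (w D R b : ℕ) (Γ : Finset (ℕ × ℕ)) : Prop :=
  (∀ g ∈ Γ, g.1 < R * (w * D) ∧ g.2 < R * (w * D)) ∧
  (∀ B a, (Γ.filter (fun g => g.1 / b = B ∧ a ≤ g.2 ∧ g.2 < a + D)).card ≤ 4) ∧
  (∀ B a, (Γ.filter (fun g => g.2 / b = B ∧ a ≤ g.1 ∧ g.1 < a + D)).card ≤ 4) ∧
  (∀ c, (Γ.filter (fun g => g.1 = c)).card ≤ w) ∧
  (∀ r, (Γ.filter (fun g => g.2 = r)).card ≤ w)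

theorem GridHyp.mono {w D R b : ℕ} {Γ Γ' : Finset (ℕ × ℕ)} (h : GridHyp w D R b Γ)
    (hs : Γ' ⊆ Γ) : GridHyp w D R b Γ' := by
  obtain ⟨h1, h2, h3, h4, h5⟩ := h
  refine ⟨fun g hg => h1 g (hs hg), fun B a => ?_, fun B a => ?_, fun c => ?_, fun r => ?_⟩
  · exact (Finset.card_le_card (Finset.filter_subset_filter _ hs)).trans (h2 B a)
  · exact (Finset.card_le_card (Finset.filter_subset_filter _ hs)).trans (h3 B a)
  · exact (Finset.card_le_card (Finset.filter_subset_filter _ hs)).trans (h4 c)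
  · exact (Finset.card_le_card (Finset.filter_subset_filter _ hs)).trans (h5 r)

theorem GridHyp.swap {w D R b : ℕ} {Γ : Finset (ℕ × ℕ)} (h : GridHyp w D R b Γ) :
    GridHyp w D R b (Γ.image Prod.swap) := by
  obtain ⟨h1, h2, h3, h4, h5⟩ := h
  refine ⟨?_, fun B a => ?_, fun B a => ?_, fun c => ?_, fun r => ?_⟩
  · intro g hg
    obtain ⟨g', hg', rfl⟩ := Finset.mem_image.1 hg
    exact ⟨(h1 g' hg').2, (h1 g' hg').1⟩
  · rw [Finset.filter_image]
    exact Finset.card_image_le.trans (h3 B a)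
  · rw [Finset.filter_image]
    exact Finset.card_image_le.trans (h2 B a)
  · rw [Finset.filter_image]
    exact Finset.card_image_le.trans (h5 c)
  · rw [Finset.filter_image]
    exact Finset.card_image_le.trans (h4 r)

theorem GTw.swap {Γ : Finset (ℕ × ℕ)} {k : ℝ} (h : GTw (Γ.image Prod.swap) k) : GTw Γ k := by
  obtain ⟨Z, hZ1, hZ2, hZ3⟩ := h
  have hinj : Function.Injective
      (fun e : (ℕ × ℕ) × (ℕ × ℕ) => (e.1.swap, e.2.swap)) := by
    rintro ⟨⟨a, b⟩, c, d⟩ ⟨⟨a', b'⟩, c', d'⟩ h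
    simp only [Prod.swap_prod_mk, Prod.mk.injEq] at h
    obtain ⟨⟨h1, h2⟩, h3, h4⟩ := h
    rw [h1, h2, h3, h4]
  refine ⟨Z.image (fun e => (e.1.swap, e.2.swap)), ?_, ?_, ?_⟩
  · intro e he f hf
    obtain ⟨e', he', rfl⟩ := Finset.mem_image.1 he
    obtain ⟨f', hf', rfl⟩ := Finset.mem_image.1 hf
    obtain ⟨h1, h2, h3⟩ := hZ1 e' he' f' hf'
    refine ⟨fun hne => ?_, h3, h2⟩
    have hne' : e' ≠ f' := fun h => hne (by rw [h])
    exact ⟨(h1 hne').2, (h1 hne').1⟩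
  · intro e he
    obtain ⟨e', he', rfl⟩ := Finset.mem_image.1 he
    obtain ⟨h1, h2, h3⟩ := hZ2 e' he'
    obtain ⟨g1, hg1, hg1'⟩ := Finset.mem_image.1 h1
    obtain ⟨g2, hg2, hg2'⟩ := Finset.mem_image.1 h2
    refine ⟨?_, ?_, ?_⟩
    · show e'.1.swap ∈ Γ
      rw [← hg1', Prod.swap_swap]
      exact hg1
    · show e'.2.swap ∈ Γ
      rw [← hg2', Prod.swap_swap]
      exact hg2
    · intro h
      exact h3 (Prod.swap_injective h)
  · rw [Finset.card_image_of_injective _ hinj]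
    exact hZ3

theorem GTw.mono {Γ Γ' : Finset (ℕ × ℕ)} {k k' : ℝ} (h : GTw Γ' k) (hs : Γ' ⊆ Γ) (hk : k' ≤ k) :
    GTw Γ k' := by
  obtain ⟨Z, hZ1, hZ2, hZ3⟩ := h
  exact ⟨Z, hZ1, fun e he => ⟨hs (hZ2 e he).1, hs (hZ2 e he).2.1, (hZ2 e he).2.2⟩, hk.trans hZ3⟩

theorem Tw.swap {P : Finset (ℕ × ℕ)} {k : ℝ} (h : Tw (P.image Prod.swap) k) : Tw P k := by
  obtain ⟨Z, hZ1, hZ2, hZ3⟩ := h
  have hinj : Function.Injective
      (fun e : (ℕ × ℕ) × (ℕ × ℕ) => (e.1.swap, e.2.swap)) := by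
    rintro ⟨⟨a, b⟩, c, d⟩ ⟨⟨a', b'⟩, c', d'⟩ h
    simp only [Prod.swap_prod_mk, Prod.mk.injEq] at h
    obtain ⟨⟨h1, h2⟩, h3, h4⟩ := h
    rw [h1, h2, h3, h4]
  refine ⟨Z.image (fun e => (e.1.swap, e.2.swap)), ?_, ?_, ?_⟩
  · intro e he f hf
    obtain ⟨e', he', rfl⟩ := Finset.mem_image.1 he
    obtain ⟨f', hf', rfl⟩ := Finset.mem_image.1 hf
    obtain ⟨h2, h3⟩ := hZ1 e' he' f' hf'
    exact ⟨h3, h2⟩
  · intro e he
    obtain ⟨e', he', rfl⟩ := Finset.mem_image.1 he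
    obtain ⟨h1, h2, h3⟩ := hZ2 e' he'
    obtain ⟨g1, hg1, hg1'⟩ := Finset.mem_image.1 h1
    obtain ⟨g2, hg2, hg2'⟩ := Finset.mem_image.1 h2
    refine ⟨?_, ?_, ?_⟩
    · show e'.1.swap ∈ P
      rw [← hg1', Prod.swap_swap]
      exact hg1
    · show e'.2.swap ∈ P
      rw [← hg2', Prod.swap_swap]
      exact hg2
    · intro h
      exact h3 (Prod.swap_injective h)
  · rw [Finset.card_image_of_injective _ hinj]
    exact hZ3

theorem PermSet.swap {n : ℕ} {P : Finset (ℕ × ℕ)} (h : PermSet n P) :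
    PermSet n (P.image Prod.swap) := by
  obtain ⟨h1, h2, h3, h4⟩ := h
  refine ⟨?_, ?_, ?_, ?_⟩
  · rw [Finset.card_image_of_injective _ Prod.swap_injective]
    exact h1
  · intro p hp
    obtain ⟨p', hp', rfl⟩ := Finset.mem_image.1 hp
    exact ⟨(h2 p' hp').2, (h2 p' hp').1⟩
  · intro p hp q hq hpq
    obtain ⟨p', hp', rfl⟩ := Finset.mem_image.1 hp
    obtain ⟨q', hq', rfl⟩ := Finset.mem_image.1 hq
    rw [h4 p' hp' q' hq' hpq]
  · intro p hp q hq hpq
    obtain ⟨p', hp', rfl⟩ := Finset.mem_image.1 hp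
    obtain ⟨q', hq', rfl⟩ := Finset.mem_image.1 hq
    rw [h3 p' hp' q' hq' hpq]

namespace GridOfAux

/-- the cell of a point -/
def cell (w : ℕ) (p : ℕ × ℕ) : ℕ × ℕ := (p.1 / w, p.2 / w)

lemma div_range {w a D x : ℕ} (hw : 0 < w) (h1 : a ≤ x / w) (h2 : x / w < a + D) :
    a * w ≤ x ∧ x < a * w + D * w := by
  constructor
  · exact (Nat.le_div_iff_mul_le hw).1 h1
  · have := (Nat.div_lt_iff_lt_mul hw).1 h2
    rw [add_mul] at this
    exact this

lemma lt_iff_div {w x y : ℕ} (_hw : 0 < w) (h : x / w ≠ y / w) : x < y ↔ x / w < y / w := by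
  constructor
  · intro hxy
    exact lt_of_le_of_ne (Nat.div_le_div_right hxy.le) h
  · intro hxy
    by_contra hc
    exact absurd (Nat.div_le_div_right (c := w) (not_lt.1 hc)) (not_le.2 hxy)

lemma lt_iff_cell {w x y c d : ℕ} (hx : x / w = c) (hy : y / w = d) (hw : 0 < w) (h : c ≠ d) :
    x < y ↔ c < d := by
  rw [← hx, ← hy] at h ⊢
  exact lt_iff_div hw h

lemma line_card {w c : ℕ} (hw : 0 < w) (s : Finset (ℕ × ℕ)) (f : ℕ × ℕ → ℕ)
    (hf : ∀ p ∈ s, ∀ q ∈ s, f p = f q → p = q) :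
    (s.filter (fun p => f p / w = c)).card ≤ w := by
  have h1 : ((s.filter (fun p => f p / w = c)).image f).card =
      (s.filter (fun p => f p / w = c)).card := by
    apply Finset.card_image_of_injOn
    intro p hp q hq hpq
    exact hf p (Finset.mem_filter.1 hp).1 q (Finset.mem_filter.1 hq).1 hpq
  rw [← h1]
  have h2 : (s.filter (fun p => f p / w = c)).image f ⊆ Finset.Ico (c * w) (c * w + w) := by
    intro x hx
    obtain ⟨p, hp, rfl⟩ := Finset.mem_image.1 hx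
    have hp2 := (Finset.mem_filter.1 hp).2
    have := div_range (D := 1) hw hp2.ge (by omega)
    rw [one_mul] at this
    exact Finset.mem_Ico.2 this
  exact (Finset.card_le_card h2).trans (by simp)

end GridOfAux

open GridOfAux in
theorem grid_of (w D R b n : ℕ) (hw : 0 < w) (hD : 0 < D) (hb : 0 < b) (P : Finset (ℕ × ℕ))
    (hP : PermSet n P) (hn : n = R * (w * D) * w) (P0 : Finset (ℕ × ℕ)) (hP0 : P0 ⊆ P)
    (hcol : ∀ B a, (P0.filter (fun p => p.1 / (b * w) = B ∧ a ≤ p.2 ∧ p.2 < a + D * w)).card ≤ 4)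
    (hrow : ∀ B a, (P0.filter (fun p => p.2 / (b * w) = B ∧ a ≤ p.1 ∧ p.1 < a + D * w)).card ≤ 4) :
    ∃ Γ : Finset (ℕ × ℕ), GridHyp w D R b Γ ∧ P0.card ≤ 4 * Γ.card ∧
      ∀ k, GTw Γ k → Tw P k := by
  obtain ⟨hP1, hP2, hP3, hP4⟩ := hP
  have hcolD : ∀ B a, ((P0.image (cell w)).filter
      (fun g => g.1 / b = B ∧ a ≤ g.2 ∧ g.2 < a + D)).card ≤ 4 := by
    intro B a
    rw [Finset.filter_image]
    refine Finset.card_image_le.trans (le_trans (Finset.card_le_card ?_) (hcol B (a * w)))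
    intro p hp
    obtain ⟨hp1, hp2, hp3, hp4⟩ := Finset.mem_filter.1 hp
    simp only [cell] at hp2 hp3 hp4
    rw [Nat.div_div_eq_div_mul, mul_comm] at hp2
    exact Finset.mem_filter.2 ⟨hp1, hp2, div_range hw hp3 hp4⟩
  have hrowD : ∀ B a, ((P0.image (cell w)).filter
      (fun g => g.2 / b = B ∧ a ≤ g.1 ∧ g.1 < a + D)).card ≤ 4 := by
    intro B a
    rw [Finset.filter_image]
    refine Finset.card_image_le.trans (le_trans (Finset.card_le_card ?_) (hrow B (a * w)))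
    intro p hp
    obtain ⟨hp1, hp2, hp3, hp4⟩ := Finset.mem_filter.1 hp
    simp only [cell] at hp2 hp3 hp4
    rw [Nat.div_div_eq_div_mul, mul_comm] at hp2
    exact Finset.mem_filter.2 ⟨hp1, hp2, div_range hw hp3 hp4⟩
  refine ⟨P0.image (cell w), ⟨?_, hcolD, hrowD, ?_, ?_⟩, ?_, ?_⟩
  · intro g hg
    obtain ⟨p, hp, rfl⟩ := Finset.mem_image.1 hg
    obtain ⟨h1, h2⟩ := hP2 p (hP0 hp)
    rw [hn, mul_comm _ w] at h1 h2
    exact ⟨Nat.div_lt_of_lt_mul h1, Nat.div_lt_of_lt_mul h2⟩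
  · intro c
    rw [Finset.filter_image]
    refine Finset.card_image_le.trans ?_
    exact line_card hw P0 Prod.fst fun p hp q hq => hP3 p (hP0 hp) q (hP0 hq)
  · intro r
    rw [Finset.filter_image]
    refine Finset.card_image_le.trans ?_
    exact line_card hw P0 Prod.snd fun p hp q hq => hP4 p (hP0 hp) q (hP0 hq)
  · refine Finset.card_le_mul_card_image P0 4 ?_
    rintro ⟨c, r⟩ _
    refine le_trans (Finset.card_le_card ?_) (hcol (c / b) (r * w))
    intro p hp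
    obtain ⟨hp1, hp2⟩ := Finset.mem_filter.1 hp
    simp only [cell, Prod.mk.injEq] at hp2
    obtain ⟨hp2, hp3⟩ := hp2
    refine Finset.mem_filter.2 ⟨hp1, ?_, ?_⟩
    · rw [← hp2, Nat.div_div_eq_div_mul, mul_comm b w]
    · exact div_range hw hp3.ge (by omega)
  · rintro k ⟨Z, hZ1, hZ2, hZ3⟩
    have hex : ∀ g : ℕ × ℕ, ∃ p : ℕ × ℕ, g ∈ P0.image (cell w) → p ∈ P0 ∧ cell w p = g := by
      intro g
      by_cases hg : g ∈ P0.image (cell w)
      · obtain ⟨p, hp, hpg⟩ := Finset.mem_image.1 hg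
        exact ⟨p, fun _ => ⟨hp, hpg⟩⟩
      · exact ⟨(0, 0), fun h => absurd h hg⟩
    choose pt hpt using hex
    have hc1 : ∀ g ∈ P0.image (cell w), (pt g).1 / w = g.1 := fun g hg =>
      congrArg Prod.fst (hpt g hg).2
    have hc2 : ∀ g ∈ P0.image (cell w), (pt g).2 / w = g.2 := fun g hg =>
      congrArg Prod.snd (hpt g hg).2
    have key : ∀ g ∈ P0.image (cell w), ∀ g' ∈ P0.image (cell w), pt g = pt g' → g = g' := by
      intro g hg g' hg' h
      rw [← (hpt g hg).2, ← (hpt g' hg').2, h]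
    refine ⟨Z.image (fun e => (pt e.1, pt e.2)), ?_, ?_, ?_⟩
    · intro e he f hf
      obtain ⟨e, he', rfl⟩ := Finset.mem_image.1 he
      obtain ⟨f, hf', rfl⟩ := Finset.mem_image.1 hf
      obtain ⟨h1, h2, h3⟩ := hZ1 e he' f hf'
      obtain ⟨_, h2', h3'⟩ := hZ1 f hf' e he'
      obtain ⟨m1, m2, -⟩ := hZ2 e he'
      obtain ⟨n1, n2, -⟩ := hZ2 f hf'
      simp only
      by_cases hef : e = f
      · subst hef
        simp
      · obtain ⟨h4, h5⟩ := h1 hef
        have h6 : e.2.1 ≠ f.2.1 := by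
          rcases lt_or_gt_of_ne h4 with h | h
          · exact (h2.1 h).ne
          · exact (h2'.1 h).ne'
        have h7 : e.2.2 ≠ f.2.2 := by
          rcases lt_or_gt_of_ne h5 with h | h
          · exact (h3.1 h).ne
          · exact (h3'.1 h).ne'
        constructor
        · exact (lt_iff_cell (hc1 _ m1) (hc1 _ n1) hw h4).trans
            (h2.trans (lt_iff_cell (hc1 _ m2) (hc1 _ n2) hw h6).symm)
        · exact (lt_iff_cell (hc2 _ m1) (hc2 _ n1) hw h5).trans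
            (h3.trans (lt_iff_cell (hc2 _ m2) (hc2 _ n2) hw h7).symm)
    · intro e he
      obtain ⟨e, he', rfl⟩ := Finset.mem_image.1 he
      obtain ⟨m1, m2, m3⟩ := hZ2 e he'
      exact ⟨hP0 (hpt _ m1).1, hP0 (hpt _ m2).1, fun h => m3 (key _ m1 _ m2 h)⟩
    · rw [Finset.card_image_of_injOn]
      · exact hZ3
      · intro e he f hf hef
        simp only [Prod.mk.injEq] at hef
        obtain ⟨m1, m2, -⟩ := hZ2 e he
        obtain ⟨n1, n2, -⟩ := hZ2 f hf
        exact Prod.ext (key _ m1 _ n1 hef.1) (key _ m2 _ n2 hef.2)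

end Twn
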