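import Pool.Agent.Twn.Basic

/-!
# The conflict sum

Fix `c₁ ∈ S`, `c₁' ∈ S'` (if `Pr (Rel c₁ c₁') = 0` the sum is `0`; otherwise `Pr = 1 / (4 m H)`).

* `c₂` in the same macro segment, block distance `d ≥ 1` (`hinj`): the `c₂' ∈ S'` with positive probability
  have block in `[B₁' + d, B₁' + 2 d]` (or symmetric), i.e. lie in `(d + 1) b ≤ 2 d b` consecutive columns,
  so there are at most `4 (2 d b / D + 1)`; each has probability at most `3 / (4 m H H d)`. Sum over `c₂`: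
  `(1 / (4 m H)) (1 / H) ∑ (24 b / D + 12 / d)`; `∑ 1 / d ≤ 16 + X b / D` since the `c₂` with `d b < D` lie
  within distance `2 D` of `c₁` (four windows), the others have `1 / d ≤ b / D`.
  Total at most `(1 / (4 m H)) (1 / H) (192 + 36 X b / D)`.
* `c₂` in another macro segment: `c₂'` is in the macro segment of `c₂`, at most `X` choices,
  probability at most `1 / (4 m H) ^ 2`: total at most
  `w X / (4 m H) ^ 2 = (1 / (4 m H)) X b / (4 D H)`.
-/

namespace Twn


namespace KappaAux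

theorem Pr_nonneg {Ω : Type} [Fintype Ω] (p : Ω → Prop) : 0 ≤ Pr p := by
  unfold Pr
  positivity

theorem Pr_zero {Ω : Type} [Fintype Ω] {p : Ω → Prop} (h : ∀ ω, ¬ p ω) : Pr p = 0 := by
  classical
  unfold Pr
  have e : (Finset.univ.filter p).card = 0 := by
    rw [Finset.card_eq_zero, Finset.filter_eq_empty_iff]
    intro ω _
    exact h ω
  have e2 : ∀ h : DecidablePred p, (@Finset.filter Ω p h Finset.univ).card = 0 := by
    intro h
    rw [← e]
    congr
  rw [e2, Nat.cast_zero, zero_div]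

theorem exists_of_Pr {Ω : Type} [Fintype Ω] {p : Ω → Prop} (h : Pr p ≠ 0) : ∃ ω, p ω := by
  by_contra h2
  push Not at h2
  exact h (Pr_zero h2)

theorem win_mul {D : ℕ} {S : Finset ℕ} (h : Spr D S) (a k : ℕ) :
    (S.filter (fun c => a ≤ c ∧ c < a + k * D)).card ≤ 4 * k := by
  induction k with
  | zero =>
    rw [Nat.mul_zero, Nat.le_zero, Finset.card_eq_zero, Finset.filter_eq_empty_iff]
    intro c _ hc
    omega
  | succ k ih =>
    have h1 := h (a + k * D)
    have h2 : S.filter (fun c => a ≤ c ∧ c < a + (k + 1) * D) ⊆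
        S.filter (fun c => a ≤ c ∧ c < a + k * D) ∪
          S.filter (fun c => a + k * D ≤ c ∧ c < a + k * D + D) := by
      intro c hc
      rw [Finset.mem_filter] at hc
      rw [Finset.mem_union, Finset.mem_filter, Finset.mem_filter]
      have e : (k + 1) * D = k * D + D := by ring
      rw [e] at hc
      by_cases h3 : c < a + k * D
      · exact Or.inl ⟨hc.1, hc.2.1, h3⟩
      · exact Or.inr ⟨hc.1, by omega, by omega⟩
    have h3 := (Finset.card_le_card h2).trans (Finset.card_union_le _ _)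
    omega

theorem win {D : ℕ} (hD : 0 < D) {S : Finset ℕ} (h : Spr D S) (a l : ℕ) :
    ((S.filter (fun c => a ≤ c ∧ c < a + l)).card : ℝ) ≤ 4 * ((l : ℝ) / D + 1) := by
  have h1 := win_mul h a (l / D + 1)
  have h2 : S.filter (fun c => a ≤ c ∧ c < a + l) ⊆
      S.filter (fun c => a ≤ c ∧ c < a + (l / D + 1) * D) := by
    intro c hc
    rw [Finset.mem_filter] at hc ⊢
    refine ⟨hc.1, hc.2.1, ?_⟩
    have h3 := Nat.div_add_mod l D
    have h4 := Nat.mod_lt l hD
    have e : (l / D + 1) * D = D * (l / D) + D := by ring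
    rw [e]
    omega
  have h3 := (Finset.card_le_card h2).trans h1
  have h4 : ((S.filter (fun c => a ≤ c ∧ c < a + l)).card : ℝ) ≤ ((4 * (l / D + 1) : ℕ) : ℝ) :=
    Nat.cast_le.2 h3
  have h5 : ((l / D : ℕ) : ℝ) ≤ (l : ℝ) / D := Nat.cast_div_le
  push_cast at h4
  linarith

/-- a sum with few nonzero terms -/
theorem sum_le_card (S T : Finset ℕ) (J : ℕ → ℝ) (q : ℝ) (hq : 0 ≤ q)
    (h : ∀ c ∈ S, J c ≤ q) (h0 : ∀ c ∈ S, c ∉ T → J c = 0) : ∑ c ∈ S, J c ≤ T.card * q := by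
  classical
  have h1 : ∑ c ∈ S, J c ≤ ∑ c ∈ S, (if c ∈ T then q else 0) := by
    apply Finset.sum_le_sum
    intro c hc
    split_ifs with hT
    · exact h c hc
    · exact (h0 c hc hT).le
  refine h1.trans ?_
  rw [← Finset.sum_filter, Finset.sum_const, nsmul_eq_mul]
  apply mul_le_mul_of_nonneg_right _ hq
  have : S.filter (fun c => c ∈ T) ⊆ T := fun c hc => (Finset.mem_filter.1 hc).2
  exact_mod_cast Finset.card_le_card this

section

variable {R w D m b H X : ℕ} {Cov : ℕ → ℕ → Prop}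

/-- block distance -/
def bd (b c c' : ℕ) : ℕ := (c' / b - c / b) + (c / b - c' / b)

theorem inner (hD : 0 < D) (hm : 0 < m) (hb : 0 < b) (hH : 0 < H)
    (F : RandRel R m b H Cov) (S' : Finset ℕ) (hS' : ∀ c ∈ S', c < R * m * b)
    (hSp' : Spr D S') (c₁ c₁' c₂ : ℕ) (h1 : c₁ < R * m * b) (h1' : c₁' < R * m * b)
    (h2 : c₂ < R * m * b) (hm1 : c₁ / b / m = c₂ / b / m) (hne : c₁ / b ≠ c₂ / b) :
    ∑ c₂' ∈ S', Pr (fun ω => F.Rel ω c₁ c₁' ∧ F.Rel ω c₂ c₂') ≤
      1 / (4 * m * H) * (1 / H) * (24 * (b / D : ℝ) + 12 * (1 / (bd b c₁ c₂ : ℝ))) := by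
  have hDr : (0 : ℝ) < D := by exact_mod_cast hD
  have hmr : (0 : ℝ) < m := by exact_mod_cast hm
  have hbr : (0 : ℝ) < b := by exact_mod_cast hb
  have hHr : (0 : ℝ) < H := by exact_mod_cast hH
  have hbdpos : 0 < bd b c₁ c₂ := by
    unfold bd
    omega
  have hdr : (1 : ℝ) ≤ (bd b c₁ c₂ : ℝ) := by exact_mod_cast hbdpos
  obtain ⟨a, ha⟩ : ∃ a : ℕ, ∀ c₂' ∈ S', ∀ ω, F.Rel ω c₁ c₁' → F.Rel ω c₂ c₂' →
      a ≤ c₂' ∧ c₂' < a + (bd b c₁ c₂ + 1) * b := by
    rcases lt_or_gt_of_ne hne with hlt | hlt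
    · refine ⟨(c₁' / b + bd b c₁ c₂) * b, ?_⟩
      intro c₂' hc ω r1 r2
      obtain ⟨n1, n2⟩ := F.near ω c₁ c₁' c₂ c₂' h1 h1' h2 (hS' _ hc) hm1 hlt r1 r2
      have hd : bd b c₁ c₂ = c₂ / b - c₁ / b := by
        unfold bd
        omega
      rw [← hd] at n1 n2
      have e1 : (c₂' / b) * b ≤ c₂' := Nat.div_mul_le_self _ _
      have e2 : c₂' < (c₂' / b + 1) * b := by
        have := Nat.lt_mul_div_succ c₂' hb
        rwa [mul_comm] at this
      constructor
      · exact (Nat.mul_le_mul_right b n1).trans e1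
      · have e3 : (c₂' / b + 1) * b ≤ (c₁' / b + 2 * bd b c₁ c₂ + 1) * b :=
          Nat.mul_le_mul_right b (by omega)
        have e4 : (c₁' / b + bd b c₁ c₂) * b + (bd b c₁ c₂ + 1) * b =
            (c₁' / b + 2 * bd b c₁ c₂ + 1) * b := by ring
        rw [e4]
        omega
    · refine ⟨(c₁' / b - 2 * bd b c₁ c₂) * b, ?_⟩
      intro c₂' hc ω r1 r2
      obtain ⟨n1, n2⟩ := F.near ω c₂ c₂' c₁ c₁' h2 (hS' _ hc) h1 h1' hm1.symm hlt r2 r1
      have hd : bd b c₁ c₂ = c₁ / b - c₂ / b := by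
        unfold bd
        omega
      rw [← hd] at n1 n2
      have e1 : (c₂' / b) * b ≤ c₂' := Nat.div_mul_le_self _ _
      have e2 : c₂' < (c₂' / b + 1) * b := by
        have := Nat.lt_mul_div_succ c₂' hb
        rwa [mul_comm] at this
      constructor
      · exact (Nat.mul_le_mul_right b (Nat.sub_le_iff_le_add.2 n2)).trans e1
      · have e3 : (c₂' / b + 1) * b ≤
            (c₁' / b - 2 * bd b c₁ c₂ + (bd b c₁ c₂ + 1)) * b := by
          apply Nat.mul_le_mul_right b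
          generalize c₂' / b = q at n1 n2
          generalize c₁' / b = q' at n1 n2
          omega
        rw [← Nat.add_mul]
        exact lt_of_lt_of_le e2 e3
  have hcard := win hD hSp' a ((bd b c₁ c₂ + 1) * b)
  have hp : ∀ c ∈ S', Pr (fun ω => F.Rel ω c₁ c₁' ∧ F.Rel ω c₂ c) ≤
      3 / (4 * m * H * H) / (bd b c₁ c₂ : ℝ) := by
    intro c hc
    rw [le_div_iff₀ (by linarith)]
    rcases lt_or_gt_of_ne hne with hlt | hlt
    · have hd : bd b c₁ c₂ = c₂ / b - c₁ / b := by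
        unfold bd
        omega
      rw [hd]
      exact F.two c₁ c₁' c₂ c h1 h1' h2 (hS' _ hc) hm1 hlt
    · have hd : bd b c₁ c₂ = c₁ / b - c₂ / b := by
        unfold bd
        omega
      rw [hd]
      have h := F.two c₂ c c₁ c₁' h2 (hS' _ hc) h1 h1' hm1.symm hlt
      have e : (fun ω => F.Rel ω c₁ c₁' ∧ F.Rel ω c₂ c) =
          (fun ω => F.Rel ω c₂ c ∧ F.Rel ω c₁ c₁') := by
        funext ω
        exact propext and_comm
      rw [e]
      exact h
  have hq : 0 ≤ 3 / (4 * m * H * H) / (bd b c₁ c₂ : ℝ) := by positivity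
  refine (sum_le_card S' (S'.filter (fun c => a ≤ c ∧ c < a + (bd b c₁ c₂ + 1) * b)) _ _ hq hp
    ?_).trans ?_
  · intro c hc hcT
    apply Pr_zero
    rintro ω ⟨r1, r2⟩
    exact hcT (Finset.mem_filter.2 ⟨hc, ha c hc ω r1 r2⟩)
  · refine (mul_le_mul_of_nonneg_right hcard hq).trans ?_
    have e1 : (((bd b c₁ c₂ + 1) * b : ℕ) : ℝ) / D ≤ 2 * (bd b c₁ c₂ : ℝ) * (b / D) := by
      push_cast
      rw [mul_div_assoc]
      apply mul_le_mul_of_nonneg_right _ (by positivity)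
      linarith
    have e2 : 4 * ((((bd b c₁ c₂ + 1) * b : ℕ) : ℝ) / D + 1) *
        (3 / (4 * m * H * H) / (bd b c₁ c₂ : ℝ)) ≤
        4 * (2 * (bd b c₁ c₂ : ℝ) * (b / D) + 1) *
        (3 / (4 * m * H * H) / (bd b c₁ c₂ : ℝ)) := by
      apply mul_le_mul_of_nonneg_right _ hq
      linarith
    refine e2.trans (le_of_eq ?_)
    field_simp
    ring

theorem outer (hw : 0 < w) (hm : 0 < m) (hH : 0 < H)
    (F : RandRel R m b H Cov) (S' : Finset ℕ) (hS' : ∀ c ∈ S', c < R * m * b)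
    (hX' : ∀ I, (S'.filter (fun c => c / b / m = I)).card ≤ X)
    (c₁ c₁' c₂ : ℕ) (h1 : c₁ < R * m * b) (h1' : c₁' < R * m * b)
    (h2 : c₂ < R * m * b) (hne : c₁ / b / m ≠ c₂ / b / m) :
    ∑ c₂' ∈ S', Pr (fun ω => F.Rel ω c₁ c₁' ∧ F.Rel ω c₂ c₂') ≤
      X * (1 / (4 * m * H : ℝ) ^ 2) := by
  have hq : (0 : ℝ) ≤ 1 / (4 * m * H : ℝ) ^ 2 := by positivity
  refine (sum_le_card S' (S'.filter (fun c => c / b / m = c₂ / b / m)) _ _ hq
    (fun c hc => F.far c₁ c₁' c₂ c h1 h1' h2 (hS' _ hc) hne) ?_).trans ?_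
  · intro c hc hcT
    apply Pr_zero
    rintro ω ⟨_, r2⟩
    exact hcT (Finset.mem_filter.2 ⟨hc, (F.cov ω _ _ r2).2.symm⟩)
  · apply mul_le_mul_of_nonneg_right _ hq
    exact_mod_cast hX' _

/-- the sum of the inverse distances -/
theorem inv_sum (hD : 0 < D) (hb : 0 < b) (hbD : b ≤ D) (S : Finset ℕ) (hSp : Spr D S)
    (hX : ∀ I, (S.filter (fun c => c / b / m = I)).card ≤ X) (c₁ : ℕ)
    (A : Finset ℕ) (hA : ∀ c ∈ A, c ∈ S ∧ c / b / m = c₁ / b / m ∧ c₁ / b ≠ c / b) :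
    ∑ c ∈ A, (24 * (b / D : ℝ) + 12 * (1 / (bd b c₁ c : ℝ))) ≤ 192 + 36 * (X * b / D) := by
  classical
  have hDr : (0 : ℝ) < D := by exact_mod_cast hD
  have hbr : (0 : ℝ) < b := by exact_mod_cast hb
  have hbd0 : (0 : ℝ) ≤ (b / D : ℝ) := by positivity
  have hAX : (A.card : ℝ) ≤ X := by
    have h1 : A ⊆ S.filter (fun c => c / b / m = c₁ / b / m) := fun c hc =>
      Finset.mem_filter.2 ⟨(hA c hc).1, (hA c hc).2.1⟩
    exact_mod_cast (Finset.card_le_card h1).trans (hX _)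
  have hW : ((S.filter (fun c => c₁ - 2 * D ≤ c ∧ c < c₁ - 2 * D + 4 * D)).card : ℝ) ≤ 16 := by
    have h := win_mul hSp (c₁ - 2 * D) 4
    exact_mod_cast h
  have hpt : ∀ c ∈ A, (1 / (bd b c₁ c : ℝ)) ≤
      (if c ∈ S.filter (fun c => c₁ - 2 * D ≤ c ∧ c < c₁ - 2 * D + 4 * D) then (1 : ℝ) else 0) +
        b / D := by
    intro c hc
    obtain ⟨hcS, _, hne⟩ := hA c hc
    have hbdpos : 0 < bd b c₁ c := by
      unfold bd
      omega
    have hdr : (1 : ℝ) ≤ (bd b c₁ c : ℝ) := by exact_mod_cast hbdpos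
    by_cases hs : bd b c₁ c * b < D
    · have hmem : c ∈ S.filter (fun c => c₁ - 2 * D ≤ c ∧ c < c₁ - 2 * D + 4 * D) := by
        rw [Finset.mem_filter]
        have e1 : (c / b) * b ≤ c := Nat.div_mul_le_self _ _
        have e2 : c < (c / b + 1) * b := by
          have := Nat.lt_mul_div_succ c hb
          rwa [mul_comm] at this
        have e3 : (c₁ / b) * b ≤ c₁ := Nat.div_mul_le_self _ _
        have e4 : c₁ < (c₁ / b + 1) * b := by
          have := Nat.lt_mul_div_succ c₁ hb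
          rwa [mul_comm] at this
        have e5 : c₁ / b ≤ c / b + bd b c₁ c := by
          unfold bd
          omega
        have e6 : c / b ≤ c₁ / b + bd b c₁ c := by
          unfold bd
          omega
        have e7 := Nat.mul_le_mul_right b e5
        have e8 := Nat.mul_le_mul_right b e6
        rw [Nat.add_mul] at e7 e8
        rw [Nat.add_mul, Nat.one_mul] at e2 e4
        exact ⟨hcS, by omega, by omega⟩
      rw [if_pos hmem]
      have : 1 / (bd b c₁ c : ℝ) ≤ 1 := by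
        rw [div_le_one (by linarith)]
        exact hdr
      linarith
    · have h1 : (D : ℝ) ≤ (bd b c₁ c : ℝ) * b := by exact_mod_cast not_lt.1 hs
      have h2 : 1 / (bd b c₁ c : ℝ) ≤ b / D := by
        rw [div_le_div_iff₀ (by linarith) hDr]
        linarith
      have h3 : (0 : ℝ) ≤ (if c ∈ S.filter (fun c => c₁ - 2 * D ≤ c ∧ c < c₁ - 2 * D + 4 * D)
          then (1 : ℝ) else 0) := by
        split_ifs <;> norm_num
      linarith
  have hsum : ∑ c ∈ A, (1 / (bd b c₁ c : ℝ)) ≤ 16 + X * (b / D : ℝ) := by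
    refine (Finset.sum_le_sum hpt).trans ?_
    rw [Finset.sum_add_distrib, Finset.sum_const, nsmul_eq_mul, ← Finset.sum_filter,
      Finset.sum_const, nsmul_eq_mul, mul_one]
    apply add_le_add
    · refine le_trans ?_ hW
      have : A.filter (fun c => c ∈ S.filter (fun c => c₁ - 2 * D ≤ c ∧ c < c₁ - 2 * D + 4 * D))
          ⊆ S.filter (fun c => c₁ - 2 * D ≤ c ∧ c < c₁ - 2 * D + 4 * D) :=
        fun c hc => (Finset.mem_filter.1 hc).2
      exact_mod_cast Finset.card_le_card this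
    · exact mul_le_mul_of_nonneg_right hAX hbd0
  rw [Finset.sum_add_distrib, Finset.sum_const, nsmul_eq_mul, ← Finset.mul_sum]
  have h1 : (A.card : ℝ) * (24 * (b / D : ℝ)) ≤ X * (24 * (b / D : ℝ)) :=
    mul_le_mul_of_nonneg_right hAX (by positivity)
  have h2 : (X : ℝ) * b / D = X * (b / D : ℝ) := mul_div_assoc _ _ _
  rw [h2]
  linarith

end

end KappaAux

theorem kappa (R w D m b H X : ℕ) (hw : 0 < w) (hD : 0 < D) (hm : 0 < m) (hb : 0 < b) (hH : 0 < H)
    (Cov : ℕ → ℕ → Prop) (F : RandRel R m b H Cov) (hd : m * b = w * D) (hbD : b ≤ D)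
    (S S' : Finset ℕ) (hS : ∀ c ∈ S, c < R * m * b) (hS' : ∀ c ∈ S', c < R * m * b)
    (hSp : Spr D S) (hSp' : Spr D S') (hSw : S.card ≤ w)
    (hX : ∀ I, (S.filter (fun c => c / b / m = I)).card ≤ X)
    (hX' : ∀ I, (S'.filter (fun c => c / b / m = I)).card ≤ X)
    (hinj : ∀ c ∈ S, ∀ d ∈ S, c / b = d / b → c = d)
    (c₁ c₁' : ℕ) (h1 : c₁ ∈ S) (h1' : c₁' ∈ S') :
    ∑ c₂ ∈ S.erase c₁, ∑ c₂' ∈ S', Pr (fun ω => F.Rel ω c₁ c₁' ∧ F.Rel ω c₂ c₂') ≤
      (200 / H) * (1 + X * b / D) * Pr (fun ω => F.Rel ω c₁ c₁') := by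
  classical
  have hDr : (0 : ℝ) < D := by exact_mod_cast hD
  have hmr : (0 : ℝ) < m := by exact_mod_cast hm
  have hbr : (0 : ℝ) < b := by exact_mod_cast hb
  have hHr : (0 : ℝ) < H := by exact_mod_cast hH
  have hR1 := hS c₁ h1
  have hR1' := hS' c₁' h1'
  by_cases hP : Pr (fun ω => F.Rel ω c₁ c₁') = 0
  · have hno : ∀ ω, ¬ F.Rel ω c₁ c₁' := by
      intro ω hω
      have hc := F.cov ω _ _ hω
      have h := F.one c₁ c₁' hR1 hR1' hc.1 hc.2
      rw [hP] at h
      have : (0 : ℝ) < 1 / (4 * m * H) := by positivity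
      linarith
    rw [hP, mul_zero]
    apply le_of_eq
    apply Finset.sum_eq_zero
    intro c₂ _
    apply Finset.sum_eq_zero
    intro c₂' _
    exact KappaAux.Pr_zero fun ω hω => hno ω hω.1
  · obtain ⟨ω, hω⟩ := KappaAux.exists_of_Pr hP
    have hc := F.cov ω _ _ hω
    rw [F.one c₁ c₁' hR1 hR1' hc.1 hc.2]
    rw [← Finset.sum_filter_add_sum_filter_not (S.erase c₁)
      (fun c => c / b / m = c₁ / b / m)]
    have hnear : ∑ c₂ ∈ (S.erase c₁).filter (fun c => c / b / m = c₁ / b / m),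
        ∑ c₂' ∈ S', Pr (fun ω => F.Rel ω c₁ c₁' ∧ F.Rel ω c₂ c₂') ≤
        1 / (4 * m * H) * (1 / H) * (192 + 36 * (X * b / D)) := by
      have hA : ∀ c ∈ (S.erase c₁).filter (fun c => c / b / m = c₁ / b / m),
          c ∈ S ∧ c / b / m = c₁ / b / m ∧ c₁ / b ≠ c / b := by
        intro c hc
        rw [Finset.mem_filter, Finset.mem_erase] at hc
        refine ⟨hc.1.2, hc.2, ?_⟩
        intro e
        exact hc.1.1 (hinj c hc.1.2 c₁ h1 e.symm)
      have h2 : ∑ c₂ ∈ (S.erase c₁).filter (fun c => c / b / m = c₁ / b / m),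
          ∑ c₂' ∈ S', Pr (fun ω => F.Rel ω c₁ c₁' ∧ F.Rel ω c₂ c₂') ≤
          ∑ c₂ ∈ (S.erase c₁).filter (fun c => c / b / m = c₁ / b / m),
            1 / (4 * m * H) * (1 / H) *
              (24 * (b / D : ℝ) + 12 * (1 / (KappaAux.bd b c₁ c₂ : ℝ))) := by
        apply Finset.sum_le_sum
        intro c hc
        obtain ⟨k1, k2, k3⟩ := hA c hc
        exact KappaAux.inner hD hm hb hH F S' hS' hSp' c₁ c₁' c hR1 hR1' (hS c k1) k2.symm k3
      refine h2.trans ?_
      rw [← Finset.mul_sum]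
      apply mul_le_mul_of_nonneg_left _ (by positivity)
      exact KappaAux.inv_sum hD hb hbD S hSp hX c₁ _ hA
    have hfar : ∑ c₂ ∈ (S.erase c₁).filter (fun c => ¬ c / b / m = c₁ / b / m),
        ∑ c₂' ∈ S', Pr (fun ω => F.Rel ω c₁ c₁' ∧ F.Rel ω c₂ c₂') ≤
        w * (X * (1 / (4 * m * H : ℝ) ^ 2)) := by
      have h2 : ∑ c₂ ∈ (S.erase c₁).filter (fun c => ¬ c / b / m = c₁ / b / m),
          ∑ c₂' ∈ S', Pr (fun ω => F.Rel ω c₁ c₁' ∧ F.Rel ω c₂ c₂') ≤
          ∑ _c₂ ∈ (S.erase c₁).filter (fun c => ¬ c / b / m = c₁ / b / m),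
            X * (1 / (4 * m * H : ℝ) ^ 2) := by
        apply Finset.sum_le_sum
        intro c hc
        rw [Finset.mem_filter, Finset.mem_erase] at hc
        exact KappaAux.outer hw hm hH F S' hS' hX' c₁ c₁' c hR1 hR1' (hS c hc.1.2)
          (fun e => hc.2 e.symm)
      refine h2.trans ?_
      rw [Finset.sum_const, nsmul_eq_mul]
      apply mul_le_mul_of_nonneg_right _ (by positivity)
      have h3 : (S.erase c₁).filter (fun c => ¬ c / b / m = c₁ / b / m) ⊆ S :=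
        (Finset.filter_subset _ _).trans (Finset.erase_subset _ _)
      exact_mod_cast (Finset.card_le_card h3).trans hSw
    refine (add_le_add hnear hfar).trans ?_
    have hwr : (w : ℝ) = m * b / D := by
      rw [eq_div_iff hDr.ne']
      exact_mod_cast hd.symm
    have e1 : (w : ℝ) * (X * (1 / (4 * m * H : ℝ) ^ 2)) =
        1 / (4 * m * H) * (1 / H) * (X * b / D / 4) := by
      rw [hwr]
      field_simp
    have e2 : (200 / H : ℝ) * (1 + X * b / D) * (1 / (4 * m * H)) =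
        1 / (4 * m * H) * (1 / H) * (200 * (1 + X * b / D)) := by
      field_simp
    rw [e1, e2, ← mul_add]
    apply mul_le_mul_of_nonneg_left _ (by positivity)
    have : (0 : ℝ) ≤ X * b / D := by positivity
    linarith

end Twn
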