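import Pool.Agent.Twn.Kappa
import Pool.Agent.Twn.Engine
import Pool.Agent.Twn.GridOf

/-!
# The engine with two random matchings
-/

namespace Twn

lemma mem_rowOf {Γ : Finset (ℕ × ℕ)} {r c : ℕ} : c ∈ rowOf Γ r ↔ (c, r) ∈ Γ := by
  unfold rowOf
  constructor
  · intro h
    obtain ⟨g, hg, rfl⟩ := Finset.mem_image.mp h
    obtain ⟨h1, rfl⟩ := Finset.mem_filter.mp hg
    exact h1
  · intro h
    exact Finset.mem_image.mpr ⟨(c, r), Finset.mem_filter.mpr ⟨h, rfl⟩, rfl⟩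

lemma mem_colOf {Γ : Finset (ℕ × ℕ)} {r c : ℕ} : r ∈ colOf Γ c ↔ (c, r) ∈ Γ := by
  unfold colOf
  constructor
  · intro h
    obtain ⟨g, hg, rfl⟩ := Finset.mem_image.mp h
    obtain ⟨h1, rfl⟩ := Finset.mem_filter.mp hg
    exact h1
  · intro h
    exact Finset.mem_image.mpr ⟨(c, r), Finset.mem_filter.mpr ⟨h, rfl⟩, rfl⟩

theorem pipeline (R w D mc bc Hc Xr mr br Hr Xc : ℕ) (hw : 0 < w) (hD : 0 < D)
    (hmc0 : 0 < mc) (hbc0 : 0 < bc) (hHc : 0 < Hc) (hmr0 : 0 < mr) (hbr0 : 0 < br) (hHr : 0 < Hr)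
    (hmc : mc * bc = w * D) (hmr : mr * br = w * D) (hbc : bc ≤ D) (hbr : br ≤ D)
    (Γ : Finset (ℕ × ℕ)) (hΓ : ∀ g ∈ Γ, g.1 < R * (w * D) ∧ g.2 < R * (w * D))
    (hSr : ∀ r, Spr D (rowOf Γ r)) (hSc : ∀ c, Spr D (colOf Γ c))
    (hwr : ∀ r, (rowOf Γ r).card ≤ w) (hwc : ∀ c, (colOf Γ c).card ≤ w)
    (hXr : ∀ r I, ((rowOf Γ r).filter (fun c => c / (w * D) = I)).card ≤ Xr)
    (hXc : ∀ c J, ((colOf Γ c).filter (fun r => r / (w * D) = J)).card ≤ Xc)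
    (hic : ∀ g ∈ Γ, ∀ h ∈ Γ, g.2 = h.2 → g.1 / bc = h.1 / bc → g.1 = h.1)
    (hir : ∀ g ∈ Γ, ∀ h ∈ Γ, g.1 = h.1 → g.2 / br = h.2 / br → g.2 = h.2)
    (Covc Covr : ℕ → ℕ → Prop) (Fc : RandRel R mc bc Hc Covc) (Fr : RandRel R mr br Hr Covr)
    (Good : Finset ((ℕ × ℕ) × (ℕ × ℕ)))
    (hG : ∀ e ∈ Good, e.1 ∈ Γ ∧ e.2 ∈ Γ ∧ e.1 ≠ e.2 ∧ Covc e.1.1 e.2.1 ∧ Covr e.1.2 e.2.2 ∧
      e.1.1 / (w * D) = e.2.1 / (w * D) ∧ e.1.2 / (w * D) = e.2.2 / (w * D)) :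
    GTw Γ ((Good.card : ℝ) / (2 * (4 * mc * Hc) * (4 * mr * Hr) *
      (1 + 2 * ((200 / Hc) * (1 + Xr * bc / D) + (200 / Hr) * (1 + Xc * br / D))))) := by
  have divc : ∀ c, c / bc / mc = c / (w * D) := by
    intro c
    rw [Nat.div_div_eq_div_mul, Nat.mul_comm bc mc, hmc]
  have divr : ∀ c, c / br / mr = c / (w * D) := by
    intro c
    rw [Nat.div_div_eq_div_mul, Nat.mul_comm br mr, hmr]
  have bndc : ∀ c, c < R * (w * D) ↔ c < R * mc * bc := by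
    intro c
    rw [Nat.mul_assoc R mc bc, hmc]
  have bndr : ∀ c, c < R * (w * D) ↔ c < R * mr * br := by
    intro c
    rw [Nat.mul_assoc R mr br, hmr]
  have hc1 : ∀ g ∈ Γ, g.1 < R * mc * bc := fun g hg => (bndc _).mp (hΓ g hg).1
  have hr1 : ∀ g ∈ Γ, g.2 < R * mr * br := fun g hg => (bndr _).mp (hΓ g hg).2
  have key := engine Fc.Rel Fr.Rel Γ
    (fun ω e he e' he' f hf f' hf' h1 h2 =>
      Fc.mono ω e.1 e'.1 f.1 f'.1 (hc1 e he) (hc1 e' he') (hc1 f hf) (hc1 f' hf') h1 h2)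
    (fun ω e he e' he' f hf f' hf' h1 h2 =>
      Fr.mono ω e.2 e'.2 f.2 f'.2 (hr1 e he) (hr1 e' he') (hr1 f hf) (hr1 f' hf') h1 h2)
    ((200 / Hc) * (1 + Xr * bc / D)) ((200 / Hr) * (1 + Xc * br / D))
    (1 / (4 * mc * Hc)) (1 / (4 * mr * Hr))
    (by positivity) (by positivity) (by positivity) (by positivity)
    (by
      intro g hg g' hg'
      refine kappa R w D mc bc Hc Xr hw hD hmc0 hbc0 hHc Covc Fc hmc hbc
        (rowOf Γ g.2) (rowOf Γ g'.2) ?_ ?_ (hSr _) (hSr _) (hwr _) ?_ ?_ ?_ g.1 g'.1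
        (mem_rowOf.mpr hg) (mem_rowOf.mpr hg')
      · intro c hc
        exact hc1 _ (mem_rowOf.mp hc)
      · intro c hc
        exact hc1 _ (mem_rowOf.mp hc)
      · intro I
        simpa [divc] using hXr g.2 I
      · intro I
        simpa [divc] using hXr g'.2 I
      · intro c hc d hd h
        exact hic (c, g.2) (mem_rowOf.mp hc) (d, g.2) (mem_rowOf.mp hd) rfl h)
    (by
      intro g hg g' hg'
      refine kappa R w D mr br Hr Xc hw hD hmr0 hbr0 hHr Covr Fr hmr hbr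
        (colOf Γ g.1) (colOf Γ g'.1) ?_ ?_ (hSc _) (hSc _) (hwc _) ?_ ?_ ?_ g.2 g'.2
        (mem_colOf.mpr hg) (mem_colOf.mpr hg')
      · intro c hc
        exact hr1 _ (mem_colOf.mp hc)
      · intro c hc
        exact hr1 _ (mem_colOf.mp hc)
      · intro I
        simpa [divr] using hXc g.1 I
      · intro I
        simpa [divr] using hXc g'.1 I
      · intro c hc d hd h
        exact hir (g.1, c) (mem_colOf.mp hc) (g.1, d) (mem_colOf.mp hd) rfl h)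
    Good
    (by
      intro e he
      obtain ⟨h1, h2, h3, h4, h5, h6, h7⟩ := hG e he
      refine ⟨h1, h2, h3, ?_, ?_⟩
      · rw [Fc.one _ _ (hc1 _ h1) (hc1 _ h2) h4 (by rw [divc, divc]; exact h6)]
      · rw [Fr.one _ _ (hr1 _ h1) (hr1 _ h2) h5 (by rw [divr, divr]; exact h7)])
  refine GTw.mono key (Finset.Subset.refl _) (le_of_eq ?_)
  have hx : (0 : ℝ) < 1 + 2 * ((200 / Hc) * (1 + Xr * bc / D) + (200 / Hr) * (1 + Xc * br / D)) := by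
    positivity
  have h1 : (0 : ℝ) < mc := by exact_mod_cast hmc0
  have h2 : (0 : ℝ) < Hc := by exact_mod_cast hHc
  have h3 : (0 : ℝ) < mr := by exact_mod_cast hmr0
  have h4 : (0 : ℝ) < Hr := by exact_mod_cast hHr
  generalize (1 + 2 * ((200 / (Hc : ℝ)) * (1 + Xr * bc / D) + (200 / Hr) * (1 + Xc * br / D))) = y at hx ⊢
  field_simp

end Twn
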