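import Pool.Agent.Twn.ThreeOrder

/-!
# Many short triples give a long twin (Bukh-Rudenko with three orders)

`Trip` = triple of points of one block (a block = `W` consecutive columns), sorted by columns.

Proof of `short_win`. Classes: `K ^ i ≤ hi G - lo G < K ^ (i + 1)`, `i < s` (span at least 2): some class
has at least `𝒢.card / s` triples. Windows of height `V = 2 * K ^ (i + 1)`: for one of the two offsets
`o = 0, K ^ (i + 1)` at least half of the triples satisfy `(lo G + o) / V = (hi G + o) / V`. For a block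
`B` and a window `j` at most `2 * K` triples of the class are in `(B, j)` (they have disjoint value
intervals with more than `K ^ i` integers). So there are at least `N' = 𝒢.card / (4 * s * K)` pairs
`(B, j)`; choose a triple for each. Treat the windows one after the other: `A j` = set of blocks which
were not used before and have a triple in window `j`; `three_order_cube` applied to `A j` with the three
value functions (the three points of the triple sorted by column) gives `T j ⊆ A j` with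
`(A j).card ≤ (T j).card ^ 3`; as `(A j).card ≤ V ≤ 2 * K ^ s ≤ lam ^ 3`
we get `(A j).card ≤ lam ^ 2 * (T j).card`. All blocks of `T j` are now used.
Let `T = ∑ (T j).card`. The pairs `(B, j)` with `B` used are at most `T * W` (a block has at most `W`
triples), hence `N' ≤ T * W + lam ^ 2 * T`. The set `Z` of the pairs (i-th point, i'-th point) of the
chosen triples of the blocks of `T j` is order-consistent: blocks are different, the order of columns is
the order of blocks; values: inside a window by the common chain, in different windows by the windows.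
-/

set_option linter.all false

namespace Twn

/-- lowest value of a triple -/
def lo (G : (ℕ × ℕ) × (ℕ × ℕ) × (ℕ × ℕ)) : ℕ := min G.1.2 (min G.2.1.2 G.2.2.2)

/-- highest value of a triple -/
def hi (G : (ℕ × ℕ) × (ℕ × ℕ) × (ℕ × ℕ)) : ℕ := max G.1.2 (max G.2.1.2 G.2.2.2)

/-- a set of triples of points of `P`, each inside one block, value-separated inside a block -/
def TripSet (W : ℕ) (P : Finset (ℕ × ℕ)) (𝒢 : Finset ((ℕ × ℕ) × (ℕ × ℕ) × (ℕ × ℕ))) : Prop :=
  (∀ G ∈ 𝒢, G.1 ∈ P ∧ G.2.1 ∈ P ∧ G.2.2 ∈ P ∧ G.1.1 < G.2.1.1 ∧ G.2.1.1 < G.2.2.1 ∧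
    G.2.1.1 / W = G.1.1 / W ∧ G.2.2.1 / W = G.1.1 / W) ∧
  (∀ G ∈ 𝒢, ∀ G' ∈ 𝒢, G ≠ G' → G.1.1 / W = G'.1.1 / W → hi G < lo G' ∨ hi G' < lo G)


/-! ### auxiliary lemmas -/

/-- triples of points -/
abbrev Trp := (ℕ × ℕ) × (ℕ × ℕ) × (ℕ × ℕ)

/-- `p` selects one of the three points -/
def IsPt (p : Trp → ℕ × ℕ) : Prop := ∀ G, p G = G.1 ∨ p G = G.2.1 ∨ p G = G.2.2

theorem isPt_1 : IsPt (fun G => G.1) := fun _ => Or.inl rfl
theorem isPt_2 : IsPt (fun G => G.2.1) := fun _ => Or.inr (Or.inl rfl)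
theorem isPt_3 : IsPt (fun G => G.2.2) := fun _ => Or.inr (Or.inr rfl)

theorem IsPt.lo_le {p : Trp → ℕ × ℕ} (hp : IsPt p) (G : Trp) : lo G ≤ (p G).2 := by
  unfold lo
  rcases hp G with h | h | h <;> rw [h] <;> omega

theorem IsPt.le_hi {p : Trp → ℕ × ℕ} (hp : IsPt p) (G : Trp) : (p G).2 ≤ hi G := by
  unfold hi
  rcases hp G with h | h | h <;> rw [h] <;> omega

/-- the greedy choice, window after window -/
theorem greedy (S : ℕ → Finset ℕ) (c : ℕ) (Good : ℕ → Finset ℕ → Prop) (J : Finset ℕ)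
    (hgood : ∀ j ∈ J, ∀ A ⊆ S j, ∃ T ⊆ A, A.card ≤ c * T.card ∧ Good j T) :
    ∃ T : ℕ → Finset ℕ, (∀ j ∈ J, T j ⊆ S j ∧ Good j (T j)) ∧
      (∀ j ∈ J, ∀ j' ∈ J, j ≠ j' → Disjoint (T j) (T j')) ∧
      ∑ j ∈ J, (S j \ J.biUnion T).card ≤ c * ∑ j ∈ J, (T j).card := by
  classical
  induction J using Finset.induction_on with
  | empty => exact ⟨fun _ => ∅, by simp, by simp, by simp⟩
  | insert j0 J hj0 ih =>
    obtain ⟨T, h1, h2, h3⟩ := ih fun j hj => hgood j (Finset.mem_insert_of_mem hj)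
    obtain ⟨T0, hT0, hc0, hg0⟩ := hgood j0 (Finset.mem_insert_self _ _)
      (S j0 \ J.biUnion T) Finset.sdiff_subset
    have hne : ∀ j ∈ J, j ≠ j0 := fun j hj h => hj0 (h ▸ hj)
    have hup : ∀ j ∈ J, Function.update T j0 T0 j = T j := fun j hj =>
      Function.update_of_ne (hne j hj) _ _
    have hself : Function.update T j0 T0 j0 = T0 := Function.update_self _ _ _
    have hU : (insert j0 J).biUnion (Function.update T j0 T0) = T0 ∪ J.biUnion T := by
      rw [Finset.biUnion_insert, hself]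
      congr 1
      exact Finset.biUnion_congr rfl hup
    have hdisj : ∀ j ∈ J, Disjoint T0 (T j) := by
      intro j hj
      rw [Finset.disjoint_left]
      intro x hx hx'
      have h4 := (Finset.mem_sdiff.mp (hT0 hx)).2
      exact h4 (Finset.mem_biUnion.mpr ⟨j, hj, hx'⟩)
    refine ⟨Function.update T j0 T0, ?_, ?_, ?_⟩
    · intro j hj
      rcases Finset.mem_insert.mp hj with rfl | hj
      · rw [hself]
        exact ⟨hT0.trans Finset.sdiff_subset, hg0⟩
      · rw [hup j hj]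
        exact h1 j hj
    · intro j hj j' hj' hjj
      rcases Finset.mem_insert.mp hj with hj | hj
      · rcases Finset.mem_insert.mp hj' with hj' | hj'
        · exact absurd (hj.trans hj'.symm) hjj
        · rw [hj, hself, hup j' hj']
          exact hdisj j' hj'
      · rcases Finset.mem_insert.mp hj' with hj' | hj'
        · rw [hj', hself, hup j hj]
          exact (hdisj j hj).symm
        · rw [hup j hj, hup j' hj']
          exact h2 j hj j' hj' hjj
    · rw [hU, Finset.sum_insert hj0, Finset.sum_insert hj0, hself, mul_add]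
      have e1 : ∑ j ∈ J, (Function.update T j0 T0 j).card = ∑ j ∈ J, (T j).card :=
        Finset.sum_congr rfl fun j hj => by rw [hup j hj]
      rw [e1]
      have e2 : (S j0 \ (T0 ∪ J.biUnion T)).card ≤ c * T0.card :=
        (Finset.card_le_card (Finset.sdiff_subset_sdiff (Finset.Subset.refl _)
          Finset.subset_union_right)).trans hc0
      have e3 : ∑ j ∈ J, (S j \ (T0 ∪ J.biUnion T)).card ≤ ∑ j ∈ J, (S j \ J.biUnion T).card :=
        Finset.sum_le_sum fun j _ => Finset.card_le_card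
          (Finset.sdiff_subset_sdiff (Finset.Subset.refl _) Finset.subset_union_right)
      omega

/-- the total count -/
theorem greedy_count (S : ℕ → Finset ℕ) (c W : ℕ) (Good : ℕ → Finset ℕ → Prop) (J : Finset ℕ)
    (hW : ∀ B, (J.filter fun j => B ∈ S j).card ≤ W)
    (hgood : ∀ j ∈ J, ∀ A ⊆ S j, ∃ T ⊆ A, A.card ≤ c * T.card ∧ Good j T) :
    ∃ T : ℕ → Finset ℕ, (∀ j ∈ J, T j ⊆ S j ∧ Good j (T j)) ∧
      (∀ j ∈ J, ∀ j' ∈ J, j ≠ j' → Disjoint (T j) (T j')) ∧
      ∑ j ∈ J, (S j).card ≤ (W + c) * ∑ j ∈ J, (T j).card := by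
  classical
  obtain ⟨T, h1, h2, h3⟩ := greedy S c Good J hgood
  refine ⟨T, h1, h2, ?_⟩
  set U := J.biUnion T with hU
  have h4 : ∀ j, (S j).card = (S j \ U).card + (U.filter fun B => B ∈ S j).card := by
    intro j
    have h5 : (U.filter fun B => B ∈ S j) = S j ∩ U := by
      ext B
      simp only [Finset.mem_filter, Finset.mem_inter]
      tauto
    rw [h5, ← Finset.card_sdiff_add_card_inter]
  have h5 : ∑ j ∈ J, (U.filter fun B => B ∈ S j).card =
      ∑ B ∈ U, (J.filter fun j => B ∈ S j).card := by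
    simp only [Finset.card_filter]
    exact Finset.sum_comm
  have h6 : ∑ B ∈ U, (J.filter fun j => B ∈ S j).card ≤ W * U.card := by
    calc _ ≤ ∑ B ∈ U, W := Finset.sum_le_sum fun B _ => hW B
      _ = W * U.card := by rw [Finset.sum_const, smul_eq_mul, mul_comm]
  have h7 : U.card ≤ ∑ j ∈ J, (T j).card := Finset.card_biUnion_le
  calc ∑ j ∈ J, (S j).card = ∑ j ∈ J, (S j \ U).card +
        ∑ j ∈ J, (U.filter fun B => B ∈ S j).card := by
        rw [← Finset.sum_add_distrib]
        exact Finset.sum_congr rfl fun j _ => h4 j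
    _ ≤ c * ∑ j ∈ J, (T j).card + W * ∑ j ∈ J, (T j).card := by
        rw [h5]
        exact Nat.add_le_add h3 (h6.trans (Nat.mul_le_mul_left _ h7))
    _ = (W + c) * ∑ j ∈ J, (T j).card := by ring

/-- one of two offsets works -/
theorem offset {a b H : ℕ} (hH : 0 < H) (hab : a ≤ b) (hb : b < a + H) :
    a / (2 * H) = b / (2 * H) ∨ (a + H) / (2 * H) = (b + H) / (2 * H) := by
  by_cases h : a / (2 * H) = b / (2 * H)
  · exact Or.inl h
  · right
    have hV : 0 < 2 * H := by omega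
    have h1 : a / (2 * H) ≤ b / (2 * H) := Nat.div_le_div_right hab
    have h2 : a / (2 * H) + 1 ≤ b / (2 * H) := by omega
    have h3 := Nat.div_add_mod a (2 * H)
    have h4 := Nat.mod_lt a hV
    have h5 := Nat.mul_le_mul_left (2 * H) h2
    have h6 : 2 * H * (b / (2 * H)) ≤ b := Nat.mul_div_le b (2 * H)
    rw [mul_add, mul_one] at h5
    generalize a / (2 * H) = q at *
    have e1 : (a + H) / (2 * H) = q + 1 := by
      rw [Nat.div_eq_iff hV, add_mul, one_mul, mul_comm q]
      generalize 2 * H * q = x at *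
      omega
    have e2 : (b + H) / (2 * H) = q + 1 := by
      rw [Nat.div_eq_iff hV, add_mul, one_mul, mul_comm q]
      generalize 2 * H * q = x at *
      omega
    rw [e1, e2]

theorem lam_bound {A t lam : ℕ} (h1 : A ≤ lam ^ 3) (h2 : A ≤ t ^ 3) : A ≤ lam ^ 2 * t := by
  rcases le_total lam t with h | h
  · calc A ≤ lam ^ 3 := h1
      _ = lam ^ 2 * lam := by ring
      _ ≤ lam ^ 2 * t := Nat.mul_le_mul_left _ h
  · calc A ≤ t ^ 3 := h2
      _ = t ^ 2 * t := by ring
      _ ≤ lam ^ 2 * t := Nat.mul_le_mul_right _ (Nat.pow_le_pow_left h 2)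

/-- facts about the triples -/
theorem TripSet.pt {W : ℕ} {P : Finset (ℕ × ℕ)} {𝒢 : Finset Trp} (h : TripSet W P 𝒢)
    {G : Trp} (hG : G ∈ 𝒢) {p : Trp → ℕ × ℕ} (hp : IsPt p) :
    p G ∈ P ∧ (p G).1 / W = G.1.1 / W := by
  obtain ⟨h1, h2, h3, h4, h5, h6, h7⟩ := h.1 G hG
  rcases hp G with h | h | h <;> rw [h]
  · exact ⟨h1, rfl⟩
  · exact ⟨h2, h6⟩
  · exact ⟨h3, h7⟩

/-- the main construction in one class with one offset -/
theorem main_class {n : ℕ} (P : Finset (ℕ × ℕ)) (hP : PermSet n P) (k K W lam V o : ℕ)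
    (hk : 0 < k) (hW : 0 < W) (hV : V = 2 * (k * K)) (hV0 : 0 < V) (hlam : V ≤ lam ^ 3)
    (𝒢 : Finset Trp) (hG : TripSet W P 𝒢) (hspan : ∀ G ∈ 𝒢, k ≤ hi G - lo G)
    (hwin : ∀ G ∈ 𝒢, (lo G + o) / V = (hi G + o) / V) :
    ∃ Z : Finset ((ℕ × ℕ) × (ℕ × ℕ)), OC Z ∧ (∀ e ∈ Z, e.1 ∈ P ∧ e.2 ∈ P ∧ e.1 ≠ e.2) ∧
      𝒢.card ≤ 2 * K * ((W + lam ^ 2) * Z.card) := by
  classical
  set win : Trp → ℕ := fun G => (lo G + o) / V with hwindef
  set blk : Trp → ℕ := fun G => G.1.1 / W with hblk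
  set J : Finset ℕ := 𝒢.image win with hJ
  set S : ℕ → Finset ℕ := fun j => (𝒢.filter fun G => win G = j).image blk with hS
  have hex : ∀ B j, ∃ G, B ∈ S j → G ∈ 𝒢 ∧ win G = j ∧ blk G = B := by
    intro B j
    by_cases h : B ∈ S j
    · obtain ⟨G, hG1, hG2⟩ := Finset.mem_image.mp h
      rw [Finset.mem_filter] at hG1
      exact ⟨G, fun _ => ⟨hG1.1, hG1.2, hG2⟩⟩
    · exact ⟨((0, 0), (0, 0), (0, 0)), fun h' => absurd h' h⟩
  choose g hg using hex
  -- all points of a triple are in the window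
  have hwpt : ∀ G ∈ 𝒢, ∀ p, IsPt p → ((p G).2 + o) / V = win G := by
    intro G hGG p hp
    have h1 := hp.lo_le G
    have h2 := hp.le_hi G
    have h3 : (lo G + o) / V ≤ ((p G).2 + o) / V := Nat.div_le_div_right (by omega)
    have h4 : ((p G).2 + o) / V ≤ (hi G + o) / V := Nat.div_le_div_right (by omega)
    have h5 := hwin G hGG
    show _ = (lo G + o) / V
    omega
  -- the same point in two triples
  have hsame : ∀ G ∈ 𝒢, ∀ G' ∈ 𝒢, blk G = blk G' → ∀ p q, IsPt p → IsPt q → p G = q G' →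
      G = G' := by
    intro G hGG G' hGG' hbb p q hp hq hpq
    by_contra hne
    have h1 := hp.lo_le G
    have h2 := hp.le_hi G
    have h3 := hq.lo_le G'
    have h4 := hq.le_hi G'
    rw [hpq] at h1 h2
    rcases hG.2 G hGG G' hGG' hne hbb with h | h <;> omega
  -- values determine blocks
  have hval : ∀ j, ∀ B ∈ S j, ∀ B' ∈ S j, ∀ p, IsPt p → (p (g B j)).2 = (p (g B' j)).2 →
      B = B' := by
    intro j B hB B' hB' p hp h
    obtain ⟨m1, m2, m3⟩ := hg B j hB
    obtain ⟨m1', m2', m3'⟩ := hg B' j hB'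
    have h1 := hG.pt m1 hp
    have h2 := hG.pt m1' hp
    have h3 := hP.2.2.2 _ h1.1 _ h2.1 h
    rw [← m3, ← m3']
    show (g B j).1.1 / W = (g B' j).1.1 / W
    rw [← h1.2, ← h2.2, h3]
  -- a block has at most `W` windows
  have hWJ : ∀ B, (J.filter fun j => B ∈ S j).card ≤ W := by
    intro B
    have h1 : Set.InjOn (fun j => (g B j).1.1) (J.filter fun j => B ∈ S j) := by
      intro j hj j' hj' h
      rw [Finset.coe_filter, Set.mem_setOf_eq] at hj hj'
      obtain ⟨m1, m2, m3⟩ := hg B j hj.2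
      obtain ⟨m1', m2', m3'⟩ := hg B j' hj'.2
      have h2 := hP.2.2.1 _ (hG.pt m1 isPt_1).1 _ (hG.pt m1' isPt_1).1 h
      have h3 := hsame _ m1 _ m1' (m3.trans m3'.symm) _ _ isPt_1 isPt_1 h2
      rw [← m2, ← m2', h3]
    have h2 : (J.filter fun j => B ∈ S j).card ≤ (Finset.Ico (B * W) (B * W + W)).card := by
      apply Finset.card_le_card_of_injOn (fun j => (g B j).1.1) _ h1
      intro j hj
      rw [Finset.coe_filter, Set.mem_setOf_eq] at hj
      obtain ⟨m1, m2, m3⟩ := hg B j hj.2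
      have h3 : (g B j).1.1 / W = B := m3
      rw [Nat.div_eq_iff hW] at h3
      rw [Finset.coe_Ico, Set.mem_Ico]
      show B * W ≤ (g B j).1.1 ∧ (g B j).1.1 < B * W + W
      omega
    rw [Nat.card_Ico] at h2
    omega
  -- at most `2 K` triples of one block in one window
  have hfib : ∀ j B, ((𝒢.filter fun G => win G = j).filter fun G => blk G = B).card ≤ 2 * K := by
    intro j B
    set F := (𝒢.filter fun G => win G = j).filter fun G => blk G = B with hF
    have hF1 : ∀ G ∈ F, G ∈ 𝒢 ∧ win G = j ∧ blk G = B := by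
      intro G h
      rw [hF, Finset.mem_filter, Finset.mem_filter] at h
      exact ⟨h.1.1, h.1.2, h.2⟩
    have h1 : (F.biUnion fun G => Finset.Icc (lo G + o) (hi G + o)) ⊆
        Finset.Ico (j * V) (j * V + V) := by
      intro x hx
      obtain ⟨G, hGF, hxG⟩ := Finset.mem_biUnion.mp hx
      obtain ⟨m1, m2, m3⟩ := hF1 G hGF
      rw [Finset.mem_Icc] at hxG
      have h2 : (lo G + o) / V = j := m2
      have h3 : (hi G + o) / V = j := by rw [← hwin G m1]; exact m2
      rw [Nat.div_eq_iff hV0] at h2 h3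
      rw [Finset.mem_Ico]
      omega
    have h2 : (F.biUnion fun G => Finset.Icc (lo G + o) (hi G + o)).card =
        ∑ G ∈ F, (Finset.Icc (lo G + o) (hi G + o)).card := by
      apply Finset.card_biUnion
      intro G hGF G' hGF' hne
      obtain ⟨m1, m2, m3⟩ := hF1 G hGF
      obtain ⟨m1', m2', m3'⟩ := hF1 G' hGF'
      rw [Function.onFun, Finset.disjoint_left]
      intro x hx hx'
      rw [Finset.mem_Icc] at hx hx'
      rcases hG.2 G m1 G' m1' hne (m3.trans m3'.symm) with h | h <;> omega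
    have h3 := Finset.card_le_card h1
    rw [h2, Nat.card_Ico] at h3
    have h4 : F.card * k ≤ ∑ G ∈ F, (Finset.Icc (lo G + o) (hi G + o)).card := by
      rw [← smul_eq_mul, ← Finset.sum_const]
      apply Finset.sum_le_sum
      intro G hGF
      obtain ⟨m1, m2, m3⟩ := hF1 G hGF
      rw [Nat.card_Icc]
      have := hspan G m1
      omega
    have h5 : F.card * k ≤ 2 * K * k := by
      calc F.card * k ≤ V := by omega
        _ = 2 * K * k := by rw [hV]; ring
    exact Nat.le_of_mul_le_mul_right h5 hk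
  have hcount : 𝒢.card ≤ 2 * K * ∑ j ∈ J, (S j).card := by
    rw [Finset.card_eq_sum_card_image win 𝒢, Finset.mul_sum]
    apply Finset.sum_le_sum
    intro j _
    exact Finset.card_le_mul_card_image _ _ fun B _ => hfib j B
  -- the goodness property
  set Good : ℕ → Finset ℕ → Prop := fun j T => ∃ p q : Trp → ℕ × ℕ, IsPt p ∧ IsPt q ∧
    (∀ G ∈ 𝒢, p G ≠ q G) ∧
    ∀ s ∈ T, ∀ t ∈ T, ((p (g s j)).2 < (p (g t j)).2 ↔ (q (g s j)).2 < (q (g t j)).2) with hGood
  have hne12 : ∀ G ∈ 𝒢, G.1 ≠ G.2.1 := by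
    intro G hGG h
    have h1 := (hG.1 G hGG).2.2.2.1
    rw [h] at h1
    exact lt_irrefl _ h1
  have hne23 : ∀ G ∈ 𝒢, G.2.1 ≠ G.2.2 := by
    intro G hGG h
    have h1 := (hG.1 G hGG).2.2.2.2.1
    rw [h] at h1
    exact lt_irrefl _ h1
  have hne13 : ∀ G ∈ 𝒢, G.1 ≠ G.2.2 := by
    intro G hGG h
    have h1 := (hG.1 G hGG).2.2.2.1
    have h2 := (hG.1 G hGG).2.2.2.2.1
    rw [h] at h1
    exact lt_irrefl _ (h1.trans h2)
  have hgood : ∀ j ∈ J, ∀ A ⊆ S j, ∃ T ⊆ A, A.card ≤ lam ^ 2 * T.card ∧ Good j T := by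
    intro j _ A hA
    obtain ⟨T, hTA, hT3, hT⟩ := three_order_cube A (fun B => (g B j).1.2)
      (fun B => (g B j).2.1.2) (fun B => (g B j).2.2.2)
      (fun s hs t ht h => hval j s (hA hs) t (hA ht) _ isPt_1 h)
      (fun s hs t ht h => hval j s (hA hs) t (hA ht) _ isPt_2 h)
      (fun s hs t ht h => hval j s (hA hs) t (hA ht) _ isPt_3 h)
    refine ⟨T, hTA, lam_bound ?_ hT3, ?_⟩
    · refine le_trans ?_ hlam
      have h1 : Set.InjOn (fun B => (g B j).1.2 + o) A := by
        intro B hB B' hB' h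
        have h2 : (g B j).1.2 + o = (g B' j).1.2 + o := h
        exact hval j B (hA hB) B' (hA hB') _ isPt_1 (by omega)
      have h2 : A.card ≤ (Finset.Ico (j * V) (j * V + V)).card := by
        apply Finset.card_le_card_of_injOn (fun B => (g B j).1.2 + o) _ h1
        intro B hB
        obtain ⟨m1, m2, m3⟩ := hg B j (hA hB)
        have h3 := hwpt _ m1 _ isPt_1
        rw [m2, Nat.div_eq_iff hV0] at h3
        rw [Finset.coe_Ico, Set.mem_Ico]
        show j * V ≤ (g B j).1.2 + o ∧ (g B j).1.2 + o < j * V + V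
        omega
      rw [Nat.card_Ico] at h2
      omega
    · rcases hT with hT | hT | hT
      · exact ⟨_, _, isPt_1, isPt_2, hne12, hT⟩
      · exact ⟨_, _, isPt_1, isPt_3, hne13, hT⟩
      · exact ⟨_, _, isPt_2, isPt_3, hne23, hT⟩
  obtain ⟨T, hT1, hT2, hT3⟩ := greedy_count S (lam ^ 2) W Good J hWJ hgood
  have hsel : ∀ j, ∃ pq : (Trp → ℕ × ℕ) × (Trp → ℕ × ℕ), j ∈ J → IsPt pq.1 ∧ IsPt pq.2 ∧
      (∀ G ∈ 𝒢, pq.1 G ≠ pq.2 G) ∧ ∀ s ∈ T j, ∀ t ∈ T j,
      ((pq.1 (g s j)).2 < (pq.1 (g t j)).2 ↔ (pq.2 (g s j)).2 < (pq.2 (g t j)).2) := by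
    intro j
    by_cases hj : j ∈ J
    · obtain ⟨p, q, h1, h2, h3, h4⟩ := (hT1 j hj).2
      exact ⟨(p, q), fun _ => ⟨h1, h2, h3, h4⟩⟩
    · exact ⟨(fun _ => (0, 0), fun _ => (0, 0)), fun h => absurd h hj⟩
  choose pq hpq using hsel
  set Z : Finset ((ℕ × ℕ) × (ℕ × ℕ)) := J.biUnion fun j => (T j).image fun B =>
    ((pq j).1 (g B j), (pq j).2 (g B j)) with hZ
  -- blocks of the points
  have hblkZ : ∀ j ∈ J, ∀ B ∈ T j, ((pq j).1 (g B j)).1 / W = B ∧
      ((pq j).2 (g B j)).1 / W = B ∧ (pq j).1 (g B j) ∈ P ∧ (pq j).2 (g B j) ∈ P ∧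
      (pq j).1 (g B j) ≠ (pq j).2 (g B j) ∧ (((pq j).1 (g B j)).2 + o) / V = j ∧
      (((pq j).2 (g B j)).2 + o) / V = j := by
    intro j hj B hB
    obtain ⟨m1, m2, m3⟩ := hg B j ((hT1 j hj).1 hB)
    obtain ⟨h1, h2, h3, -⟩ := hpq j hj
    have h4 := hG.pt m1 h1
    have h5 := hG.pt m1 h2
    refine ⟨h4.2.trans m3, h5.2.trans m3, h4.1, h5.1, h3 _ m1, ?_, ?_⟩
    · rw [hwpt _ m1 _ h1, m2]
    · rw [hwpt _ m1 _ h2, m2]
  refine ⟨Z, ?_, ?_, ?_⟩
  · -- order-consistent
    intro e he f hf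
    obtain ⟨j, hj, he⟩ := Finset.mem_biUnion.mp he
    obtain ⟨B, hB, rfl⟩ := Finset.mem_image.mp he
    obtain ⟨j', hj', hf⟩ := Finset.mem_biUnion.mp hf
    obtain ⟨B', hB', rfl⟩ := Finset.mem_image.mp hf
    obtain ⟨b1, b2, -, -, -, b3, b4⟩ := hblkZ j hj B hB
    obtain ⟨c1, c2, -, -, -, c3, c4⟩ := hblkZ j' hj' B' hB'
    by_cases hBB : B = B'
    · subst hBB
      have hjj : j = j' := by
        by_contra hne
        exact Finset.disjoint_left.mp (hT2 j hj j' hj' hne) hB hB'
      subst hjj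
      simp
    · constructor
      · show ((pq j).1 (g B j)).1 < ((pq j').1 (g B' j')).1 ↔
          ((pq j).2 (g B j)).1 < ((pq j').2 (g B' j')).1
        rw [Nat.div_eq_iff hW] at b1 b2 c1 c2
        rcases lt_or_gt_of_ne hBB with h | h
        · have h1 : (B + 1) * W ≤ B' * W := Nat.mul_le_mul_right _ h
          rw [add_mul, one_mul] at h1
          constructor <;> intro _ <;> omega
        · have h1 : (B' + 1) * W ≤ B * W := Nat.mul_le_mul_right _ h
          rw [add_mul, one_mul] at h1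
          constructor <;> intro _ <;> omega
      · show ((pq j).1 (g B j)).2 < ((pq j').1 (g B' j')).2 ↔
          ((pq j).2 (g B j)).2 < ((pq j').2 (g B' j')).2
        by_cases hjj : j = j'
        · subst hjj
          exact (hpq j hj).2.2.2 B hB B' hB'
        · rw [Nat.div_eq_iff hV0] at b3 b4 c3 c4
          rcases lt_or_gt_of_ne hjj with h | h
          · have h1 : (j + 1) * V ≤ j' * V := Nat.mul_le_mul_right _ h
            rw [add_mul, one_mul] at h1
            constructor <;> intro _ <;> omega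
          · have h1 : (j' + 1) * V ≤ j * V := Nat.mul_le_mul_right _ h
            rw [add_mul, one_mul] at h1
            constructor <;> intro _ <;> omega
  · intro e he
    obtain ⟨j, hj, he⟩ := Finset.mem_biUnion.mp he
    obtain ⟨B, hB, rfl⟩ := Finset.mem_image.mp he
    obtain ⟨-, -, b3, b4, b5, -, -⟩ := hblkZ j hj B hB
    exact ⟨b3, b4, b5⟩
  · have hZcard : Z.card = ∑ j ∈ J, (T j).card := by
      rw [hZ, Finset.card_biUnion]
      · refine Finset.sum_congr rfl fun j hj => Finset.card_image_of_injOn ?_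
        intro B hB B' hB' h
        have h1 := (hblkZ j hj B hB).1
        have h2 := (hblkZ j hj B' hB').1
        have h3 : (pq j).1 (g B j) = (pq j).1 (g B' j) := congrArg Prod.fst h
        rw [← h1, ← h2, h3]
      · intro j hj j' hj' hne
        rw [Function.onFun, Finset.disjoint_left]
        intro e he he'
        obtain ⟨B, hB, rfl⟩ := Finset.mem_image.mp he
        obtain ⟨B', hB', h⟩ := Finset.mem_image.mp he'
        have h1 := (hblkZ j hj B hB).1
        have h2 := (hblkZ j' hj' B' hB').1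
        have h3 : (pq j').1 (g B' j') = (pq j).1 (g B j) := congrArg Prod.fst h
        rw [h3, h1] at h2
        subst h2
        exact Finset.disjoint_left.mp (hT2 j hj j' hj' hne) hB hB'
    rw [hZcard]
    exact hcount.trans (Nat.mul_le_mul_left _ hT3)

theorem short_win {n : ℕ} (P : Finset (ℕ × ℕ)) (hP : PermSet n P) (K s W lam : ℕ) (hK : 2 ≤ K)
    (hW : 0 < W) (hlam : 2 * K ^ s ≤ lam ^ 3) (𝒢 : Finset ((ℕ × ℕ) × (ℕ × ℕ) × (ℕ × ℕ)))
    (hG : TripSet W P 𝒢) (hspan : ∀ G ∈ 𝒢, hi G < lo G + K ^ s) :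
    Tw P ((𝒢.card : ℝ) / (4 * s * K * (W + lam ^ 2))) := by
  classical
  -- every triple has span at least two
  have hsp : ∀ G ∈ 𝒢, lo G < hi G := by
    intro G hGG
    obtain ⟨h1, h2, h3, h4, h5, h6, h7⟩ := hG.1 G hGG
    have h8 : G.1.2 ≠ G.2.1.2 := by
      intro h
      have h9 := hP.2.2.2 _ h1 _ h2 h
      rw [h9] at h4
      exact lt_irrefl _ h4
    unfold lo hi
    omega
  rcases Nat.eq_zero_or_pos s with rfl | hs
  · refine ⟨∅, ?_, ?_, ?_⟩
    · intro e he
      exact absurd he (Finset.notMem_empty _)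
    · intro e he
      exact absurd he (Finset.notMem_empty _)
    · simp
  set cl : Trp → ℕ := fun G => Nat.log K (hi G - lo G) with hcl
  have hmaps : ∀ G ∈ 𝒢, cl G ∈ Finset.range s := by
    intro G hGG
    rw [Finset.mem_range]
    have h1 := hsp G hGG
    have h2 := hspan G hGG
    exact Nat.log_lt_of_lt_pow (by omega) (by omega)
  obtain ⟨i, hi1, hi2⟩ := Finset.exists_max_image (Finset.range s)
    (fun i => (𝒢.filter fun G => cl G = i).card) ⟨0, Finset.mem_range.mpr hs⟩
  have hc1 : 𝒢.card ≤ s * (𝒢.filter fun G => cl G = i).card := by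
    rw [Finset.card_eq_sum_card_fiberwise (f := cl) (t := Finset.range s) hmaps]
    calc _ ≤ ∑ _b ∈ Finset.range s, (𝒢.filter fun G => cl G = i).card :=
          Finset.sum_le_sum fun b hb => hi2 b hb
      _ = _ := by rw [Finset.sum_const, Finset.card_range, smul_eq_mul]
  set C := 𝒢.filter fun G => cl G = i with hC
  set H := K ^ (i + 1) with hH
  have hH0 : 0 < H := Nat.pow_pos (by omega)
  have hCm : ∀ G ∈ C, G ∈ 𝒢 ∧ K ^ i ≤ hi G - lo G ∧ hi G < lo G + H := by
    intro G hGC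
    rw [hC, Finset.mem_filter] at hGC
    have h1 := hsp G hGC.1
    have h2 : Nat.log K (hi G - lo G) = i := hGC.2
    have h3 := Nat.pow_log_le_self K (x := hi G - lo G) (by omega)
    have h4 := Nat.lt_pow_succ_log_self (b := K) (by omega) (hi G - lo G)
    rw [h2] at h3 h4
    refine ⟨hGC.1, h3, ?_⟩
    have h5 : hi G - lo G < H := h4
    omega
  have hcov : C.card ≤ (C.filter fun G => (lo G + 0) / (2 * H) = (hi G + 0) / (2 * H)).card +
      (C.filter fun G => (lo G + H) / (2 * H) = (hi G + H) / (2 * H)).card := by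
    refine le_trans (Finset.card_le_card ?_) (Finset.card_union_le _ _)
    intro G hGC
    obtain ⟨h1, h2, h3⟩ := hCm G hGC
    rcases offset hH0 (hsp G h1).le h3 with h | h
    · exact Finset.mem_union_left _ (Finset.mem_filter.mpr ⟨hGC, h⟩)
    · exact Finset.mem_union_right _ (Finset.mem_filter.mpr ⟨hGC, h⟩)
  obtain ⟨o, ho⟩ : ∃ o, C.card ≤ 2 *
      (C.filter fun G => (lo G + o) / (2 * H) = (hi G + o) / (2 * H)).card := by
    rcases le_total (C.filter fun G => (lo G + 0) / (2 * H) = (hi G + 0) / (2 * H)).card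
      (C.filter fun G => (lo G + H) / (2 * H) = (hi G + H) / (2 * H)).card with h | h
    · exact ⟨H, by omega⟩
    · exact ⟨0, by omega⟩
  set D := C.filter fun G => (lo G + o) / (2 * H) = (hi G + o) / (2 * H) with hD
  have hDm : ∀ G ∈ D, G ∈ C ∧ (lo G + o) / (2 * H) = (hi G + o) / (2 * H) := by
    intro G hGD
    rw [hD, Finset.mem_filter] at hGD
    exact hGD
  have hlt : i < s := Finset.mem_range.mp hi1
  have hVlam : 2 * H ≤ lam ^ 3 := by
    refine le_trans (Nat.mul_le_mul_left _ ?_) hlam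
    exact Nat.pow_le_pow_right (by omega) hlt
  have hDT : TripSet W P D := by
    refine ⟨fun G hGD => hG.1 G (hCm G (hDm G hGD).1).1, ?_⟩
    intro G hGD G' hGD' hne hbb
    exact hG.2 G (hCm G (hDm G hGD).1).1 G' (hCm G' (hDm G' hGD').1).1 hne hbb
  obtain ⟨Z, hZ1, hZ2, hZ3⟩ := main_class P hP (K ^ i) K W lam (2 * H) o
    (Nat.pow_pos (by omega)) hW (by rw [hH, pow_succ]) (by omega) hVlam D hDT
    (fun G hGD => (hCm G (hDm G hGD).1).2.1) (fun G hGD => (hDm G hGD).2)
  refine ⟨Z, hZ1, hZ2, ?_⟩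
  have hfin : 𝒢.card ≤ Z.card * (4 * s * K * (W + lam ^ 2)) := by
    calc 𝒢.card ≤ s * C.card := hc1
      _ ≤ s * (2 * D.card) := Nat.mul_le_mul_left _ ho
      _ ≤ s * (2 * (2 * K * ((W + lam ^ 2) * Z.card))) :=
          Nat.mul_le_mul_left _ (Nat.mul_le_mul_left _ hZ3)
      _ = Z.card * (4 * s * K * (W + lam ^ 2)) := by ring
  apply div_le_of_le_mul₀ (by positivity) (by positivity)
  exact_mod_cast hfin

end Twn
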